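import Mathlib

/-!
# Definitions for the second-order rational difference equation
-/

set_option autoImplicit false

namespace Pool.Agent.MP_7f1385_an

open Filter Topology

/-- `x` is a solution of the recursion (`x n` is the term with index `n - 1`): the two initial
values are nonnegative, no denominator vanishes, and the recursion holds. -/
def IsSolution (α β A B : ℝ) (x : ℕ → ℝ) : Prop :=
  0 ≤ x 0 ∧ 0 ≤ x 1 ∧ ∀ n, x n + B * x (n + 1) + A ≠ 0 ∧
    x (n + 2) = (x n + β * x (n + 1) + α) / (x n + B * x (n + 1) + A)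

/-- The map `T (u, v) = (v, (α + β v + u) / (A + B v + u))` of the plane. -/
noncomputable def T (α β A B : ℝ) (z : ℝ × ℝ) : ℝ × ℝ :=
  (z.2, (α + β * z.2 + z.1) / (A + B * z.2 + z.1))

/-- Lyapunov stability of the point `z₀` for the map `G` of the closed first quadrant. -/
def LocStable (G : ℝ × ℝ → ℝ × ℝ) (z₀ : ℝ × ℝ) : Prop :=
  ∀ ε > 0, ∃ δ > 0, ∀ z : ℝ × ℝ, 0 ≤ z.1 → 0 ≤ z.2 → dist z z₀ < δ → ∀ n : ℕ,
    dist (G^[n] z) z₀ < ε

/-- Asymptotic stability: Lyapunov stability and attraction of a neighbourhood. -/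
def LocAsymStable (G : ℝ × ℝ → ℝ × ℝ) (z₀ : ℝ × ℝ) : Prop :=
  LocStable G z₀ ∧ ∃ δ > 0, ∀ z : ℝ × ℝ, 0 ≤ z.1 → 0 ≤ z.2 → dist z z₀ < δ →
    Tendsto (fun n : ℕ => G^[n] z) atTop (𝓝 z₀)

end Pool.Agent.MP_7f1385_an
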