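import Pool.Agent.Lib.MP_7f1385_an.Poly
import Pool.Agent.Lib.MP_7f1385_an.Defs

/-!
# The equation `x (n+2) = (x n + β x (n+1) + α) / (x n + B x (n+1) + A)`: basic facts
-/

set_option autoImplicit false

namespace Pool.Agent.MP_7f1385_an

/-- The right hand side of the recursion, `u` the older and `v` the newer term. -/
noncomputable def F (α β A B u v : ℝ) : ℝ := (u + β * v + α) / (u + B * v + A)

variable {α β A B : ℝ}

lemma D_pos {u v : ℝ} (hA : 0 ≤ A) (hB : 0 < B) (hu : 0 < u) (hv : 0 ≤ v) :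
    0 < u + B * v + A := by positivity

lemma F_le_iff {u v c : ℝ} (hD : 0 < u + B * v + A) :
    F α β A B u v ≤ c ↔ u + β * v + α ≤ c * (u + B * v + A) := by
  rw [F, div_le_iff₀ hD]

lemma F_lt_iff {u v c : ℝ} (hD : 0 < u + B * v + A) :
    F α β A B u v < c ↔ u + β * v + α < c * (u + B * v + A) := by
  rw [F, div_lt_iff₀ hD]

lemma le_F_iff {u v c : ℝ} (hD : 0 < u + B * v + A) :
    c ≤ F α β A B u v ↔ c * (u + B * v + A) ≤ u + β * v + α := by
  rw [F, le_div_iff₀ hD]

lemma lt_F_iff {u v c : ℝ} (hD : 0 < u + B * v + A) :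
    c < F α β A B u v ↔ c * (u + B * v + A) < u + β * v + α := by
  rw [F, lt_div_iff₀ hD]

lemma mono_u {u u' v : ℝ} (hD : 0 < u + B * v + A) (h : u ≤ u')
    (hs : 0 ≤ (B - β) * v + (A - α)) : F α β A B u v ≤ F α β A B u' v := by
  have hD' : 0 < u' + B * v + A := by linarith
  rw [F, F, div_le_div_iff₀ hD hD']
  nlinarith [mul_nonneg (sub_nonneg.2 h) hs]

lemma anti_u {u u' v : ℝ} (hD : 0 < u + B * v + A) (h : u ≤ u')
    (hs : (B - β) * v + (A - α) ≤ 0) : F α β A B u' v ≤ F α β A B u v := by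
  have hD' : 0 < u' + B * v + A := by linarith
  rw [F, F, div_le_div_iff₀ hD' hD]
  nlinarith [mul_nonneg (sub_nonneg.2 h) (neg_nonneg.2 hs)]

lemma mono_v {u v v' : ℝ} (hB : 0 < B) (hD : 0 < u + B * v + A) (h : v ≤ v')
    (hs : 0 ≤ (β - B) * u + (β * A - B * α)) : F α β A B u v ≤ F α β A B u v' := by
  have hD' : 0 < u + B * v' + A := by nlinarith
  rw [F, F, div_le_div_iff₀ hD hD']
  nlinarith [mul_nonneg (sub_nonneg.2 h) hs]

lemma anti_v {u v v' : ℝ} (hB : 0 < B) (hD : 0 < u + B * v + A) (h : v ≤ v')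
    (hs : (β - B) * u + (β * A - B * α) ≤ 0) : F α β A B u v' ≤ F α β A B u v := by
  have hD' : 0 < u + B * v' + A := by nlinarith
  rw [F, F, div_le_div_iff₀ hD' hD]
  nlinarith [mul_nonneg (sub_nonneg.2 h) (neg_nonneg.2 hs)]

lemma F_nonneg {u v : ℝ} (hα : 0 ≤ α) (hA : 0 ≤ A) (hβ : 0 < β) (hB : 0 < B) (hu : 0 ≤ u)
    (hv : 0 ≤ v) : 0 ≤ F α β A B u v := by
  unfold F
  positivity

lemma pol_eq {I w x : ℝ} (hE : (B + 1) * x ^ 2 + (A - β - 1) * x - α = 0)
    (hD : 0 < I + B * w + A) :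
    pol α A B I w x = x ^ 2 * (I + B * w + A) *
      ((I + β * x + α) * (w + B * F α β A B I w + A) -
        (w + β * F α β A B I w + α) * (I + B * x + A)) := by
  have hφ : F α β A B I w * (I + B * w + A) = I + β * w + α := by
    rw [F, div_mul_cancel₀ _ hD.ne']
  have hb : (1 + B) * x ^ 2 + (A - 1) * x - α = β * x := by linarith
  unfold pol
  rw [hb]
  linear_combination (-(x ^ 2 * ((I + β * x + α) * B - β * (I + B * x + A)))) * hφ

/-- Lower claim: for `1 ≤ I ≤ w ≤ x`, `x` the equilibrium, `α ≤ A`. -/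
lemma claim_low {I w x : ℝ} (hα : 0 ≤ α) (hαA : α ≤ A) (hβ : 0 < β) (hB : 0 < B)
    (hI : 1 ≤ I) (hw : I ≤ w) (hx : w ≤ x)
    (hE : (B + 1) * x ^ 2 + (A - β - 1) * x - α = 0) :
    F α β A B w (F α β A B I w) ≤ F α β A B I x := by
  have hA : 0 ≤ A := hα.trans hαA
  have hI0 : 0 < I := by linarith
  have hw0 : 0 < w := by linarith
  have hx0 : 0 < x := by linarith
  have hD1 : 0 < I + B * w + A := D_pos hA hB hI0 hw0.le
  have hφ := F_nonneg (α := α) (β := β) hα hA hβ hB hI0.le hw0.le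
  have hD2 : 0 < w + B * F α β A B I w + A := D_pos hA hB hw0 hφ
  have hD3 : 0 < I + B * x + A := D_pos hA hB hI0 hx0.le
  have h1 := pol_eq (α := α) (β := β) hE hD1
  have h2 := pol_low α (A - α) B (I - 1) (w - I) (x - w) hα (by linarith) hB.le (by linarith)
    (by linarith) (by linarith)
  rw [show α + (A - α) = A by ring, show 1 + (I - 1) = I by ring, show I + (w - I) = w by ring,
    show w + (x - w) = x by ring, h1] at h2
  have h3 : 0 ≤ (I + β * x + α) * (w + B * F α β A B I w + A) -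
        (w + β * F α β A B I w + α) * (I + B * x + A) :=
    nonneg_of_mul_nonneg_right h2 (by positivity)
  rw [F_le_iff hD2]
  have h4 : F α β A B I x * (I + B * x + A) = I + β * x + α := by
    rw [F, div_mul_cancel₀ _ hD3.ne']
  have h5 : 0 ≤ (F α β A B I x * (w + B * F α β A B I w + A) -
        (w + β * F α β A B I w + α)) * (I + B * x + A) := by
    rw [← h4] at h3
    linarith
  have h6 := nonneg_of_mul_nonneg_left h5 hD3
  linarith

/-- Upper claim: for `1 ≤ x ≤ w ≤ S`, `x` the equilibrium, `α ≤ A`. -/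
lemma claim_up {S w x : ℝ} (hα : 0 ≤ α) (hαA : α ≤ A) (hβ : 0 < β) (hB : 0 < B)
    (hx : 1 ≤ x) (hw : x ≤ w) (hS : w ≤ S)
    (hE : (B + 1) * x ^ 2 + (A - β - 1) * x - α = 0) :
    F α β A B S x ≤ F α β A B w (F α β A B S w) := by
  have hA : 0 ≤ A := hα.trans hαA
  have hx0 : 0 < x := by linarith
  have hw0 : 0 < w := by linarith
  have hS0 : 0 < S := by linarith
  have hD1 : 0 < S + B * w + A := D_pos hA hB hS0 hw0.le
  have hφ := F_nonneg (α := α) (β := β) hα hA hβ hB hS0.le hw0.le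
  have hD2 : 0 < w + B * F α β A B S w + A := D_pos hA hB hw0 hφ
  have hD3 : 0 < S + B * x + A := D_pos hA hB hS0 hx0.le
  have h1 := pol_eq (α := α) (β := β) hE hD1
  have h2 := pol_up α (A - α) B (x - 1) (w - x) (S - w) hα (by linarith) hB.le (by linarith)
    (by linarith) (by linarith)
  rw [show α + (A - α) = A by ring, show 1 + (x - 1) = x by ring, show x + (w - x) = w by ring,
    show w + (S - w) = S by ring, h1] at h2
  have h3 : 0 ≤ (w + β * F α β A B S w + α) * (S + B * x + A) -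
        (S + β * x + α) * (w + B * F α β A B S w + A) := by
    have h2' : 0 ≤ x ^ 2 * (S + B * w + A) * ((w + β * F α β A B S w + α) * (S + B * x + A) -
        (S + β * x + α) * (w + B * F α β A B S w + A)) := by linarith
    exact nonneg_of_mul_nonneg_right h2' (by positivity)
  rw [le_F_iff hD2]
  have h4 : F α β A B S x * (S + B * x + A) = S + β * x + α := by
    rw [F, div_mul_cancel₀ _ hD3.ne']
  have h5 : 0 ≤ ((w + β * F α β A B S w + α) -
        F α β A B S x * (w + B * F α β A B S w + A)) * (S + B * x + A) := by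
    rw [← h4] at h3
    linarith
  have h6 := nonneg_of_mul_nonneg_left h5 hD3
  linarith

end Pool.Agent.MP_7f1385_an
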