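import Pool.Agent.Lib.MP_7f1385_an.Stable

/-!
# Asymptotic stability of the two-cycle
-/

set_option autoImplicit false

namespace Pool.Agent.MP_7f1385_an

open Filter Topology

variable {α β A B : ℝ}

/-- `F u v ≤ c` on a box with corner `(c, d)`. -/
lemma F_le_of_box {u v c d : ℝ} (hD : 0 < u + B * v + A) (hu : u ≤ c) (hv : d ≤ v)
    (h1 : 0 ≤ 1 - c) (h2 : β ≤ B * c) (hG : c * (1 - c) + d * (β - B * c) + α - A * c ≤ 0) :
    F α β A B u v ≤ c := by
  rw [F_le_iff hD]
  nlinarith [mul_nonneg (sub_nonneg.2 hu) h1, mul_nonneg (sub_nonneg.2 hv) (sub_nonneg.2 h2)]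

lemma le_F_of_box {u v c d : ℝ} (hD : 0 < u + B * v + A) (hu : c ≤ u) (hv : v ≤ d)
    (h1 : 0 ≤ 1 - c) (h2 : β ≤ B * c) (hG : 0 ≤ c * (1 - c) + d * (β - B * c) + α - A * c) :
    c ≤ F α β A B u v := by
  rw [le_F_iff hD]
  nlinarith [mul_nonneg (sub_nonneg.2 hu) h1, mul_nonneg (sub_nonneg.2 hv) (sub_nonneg.2 h2)]

/-- Small invariant boxes around a two-cycle. -/
lemma cycle_box {p q : ℝ} (hα : 0 ≤ α) (hA : 0 ≤ A) (hβ : 0 < β) (hB : 0 < B) (hp : 0 < p)
    (hq : 0 < q) (hpq : p ≠ q) (h1 : F α β A B p q = p) (h2 : F α β A B q p = q) :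
    ∃ X Y t₀ : ℝ, 0 < X ∧ 0 < Y ∧ 0 < t₀ ∧ ∀ t, 0 < t → t ≤ t₀ →
      0 < p - t * X ∧ 0 < q - t * Y ∧
      ∀ u v, p - t * X ≤ u → u ≤ p + t * X → q - t * Y ≤ v → v ≤ q + t * Y →
        (p - t * X ≤ F α β A B u v ∧ F α β A B u v ≤ p + t * X) ∧
        (q - t * Y ≤ F α β A B v (F α β A B u v) ∧
          F α β A B v (F α β A B u v) ≤ q + t * Y) := by
  obtain ⟨hs, hP, hB1, hsum, -⟩ := cycle_facts hα hA hβ hB hp hq hpq h1 h2
  -- the four coefficients, multiplied out
  obtain ⟨P1, hP1⟩ : ∃ P1, P1 * p = p ^ 2 + α + β * q := ⟨(p ^ 2 + α + β * q) / p, by field_simp⟩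
  obtain ⟨P2, hP2⟩ : ∃ P2, P2 * q = p * q + α + β * p := ⟨(p * q + α + β * p) / q, by field_simp⟩
  obtain ⟨Q1, hQ1⟩ : ∃ Q1, Q1 * q = q ^ 2 + α + β * p := ⟨(q ^ 2 + α + β * p) / q, by field_simp⟩
  obtain ⟨Q2, hQ2⟩ : ∃ Q2, Q2 * p = p * q + α + β * q := ⟨(p * q + α + β * q) / p, by field_simp⟩
  have hP1p : 0 < P1 := pos_of_mul_pos_left (by rw [hP1]; positivity) hp.le
  have hP2p : 0 < P2 := pos_of_mul_pos_left (by rw [hP2]; positivity) hq.le
  have hQ1p : 0 < Q1 := pos_of_mul_pos_left (by rw [hQ1]; positivity) hq.le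
  have hQ2p : 0 < Q2 := pos_of_mul_pos_left (by rw [hQ2]; positivity) hp.le
  have hA' : A = 1 - β - (p + q) := by linarith
  -- identification of the coefficients
  have c1 : 1 - A - 2 * p - B * q = -P1 := by
    have : p * (1 - A - 2 * p - B * q) = p * -P1 := by
      rw [hA']
      linear_combination (-1) * hP + hP1
    exact mul_left_cancel₀ hp.ne' this
  have c2 : β - B * p = -P2 := by
    have : q * (β - B * p) = q * -P2 := by
      linear_combination (-1) * hP + hP2
    exact mul_left_cancel₀ hq.ne' this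
  have c3 : 1 - A - 2 * q - B * p = -Q1 := by
    have : q * (1 - A - 2 * q - B * p) = q * -Q1 := by
      rw [hA']
      linear_combination (-1) * hP + hQ1
    exact mul_left_cancel₀ hq.ne' this
  have c4 : β - B * q = -Q2 := by
    have : p * (β - B * q) = p * -Q2 := by
      linear_combination (-1) * hP + hQ2
    exact mul_left_cancel₀ hp.ne' this
  have hD1 : 0 < p + B * q + A := D_pos hA hB hp hq.le
  have hD2 : 0 < q + B * p + A := D_pos hA hB hq hp.le
  have g1 : p * (1 - p) + q * (β - B * p) + α - A * p = 0 := by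
    rw [F, div_eq_iff hD1.ne'] at h1
    linarith
  have g2 : q * (1 - q) + p * (β - B * q) + α - A * q = 0 := by
    rw [F, div_eq_iff hD2.ne'] at h2
    linarith
  -- expansions
  have G1 : ∀ a b, (p + a) * (1 - (p + a)) + (q + b) * (β - B * (p + a)) + α - A * (p + a) =
      -(a * P1) - b * P2 - a ^ 2 - B * a * b := fun a b => by
    linear_combination g1 + a * c1 + b * c2
  have G2 : ∀ a b, (q + b) * (1 - (q + b)) + (p + a) * (β - B * (q + b)) + α - A * (q + b) =
      -(b * Q1) - a * Q2 - b ^ 2 - B * a * b := fun a b => by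
    linear_combination g2 + b * c3 + a * c4
  set Δ := P1 * Q1 - P2 * Q2 with hΔ
  have hΔ0 : 0 < Δ := by
    have h3 : p * q * Δ = (p - q) ^ 2 * (α + β * (p + q)) := by
      have : p * q * Δ = (P1 * p) * (Q1 * q) - (P2 * q) * (Q2 * p) := by rw [hΔ]; ring
      rw [this, hP1, hP2, hQ1, hQ2]
      ring
    have h4 : 0 < p * q * Δ := by
      rw [h3]
      have := sub_ne_zero.2 hpq
      positivity
    exact (mul_pos_iff_of_pos_left (mul_pos hp hq)).1 h4
  set X := P2 + Q1 with hX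
  set Y := P1 + Q2 with hY
  have hX0 : 0 < X := by positivity
  have hY0 : 0 < Y := by positivity
  -- room for the box
  have hBp : 0 < B * p - β := by linarith
  have hBq : 0 < B * q - β := by linarith
  have hp1 : 0 < 1 - p := by linarith
  have hq1 : 0 < 1 - q := by linarith
  obtain ⟨W, hW0, hW⟩ : ∃ W : ℝ, 0 < W ∧ X ≤ W ∧ Y ≤ W ∧ B * X ≤ W ∧ B * Y ≤ W ∧
      X ^ 2 ≤ W ∧ Y ^ 2 ≤ W ∧ B * X * Y ≤ W := by
    refine ⟨X + Y + B * X + B * Y + X ^ 2 + Y ^ 2 + B * X * Y, by positivity, ?_⟩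
    have e1 : 0 < B * X := mul_pos hB hX0
    have e2 : 0 < B * Y := mul_pos hB hY0
    have e3 : 0 < X ^ 2 := by positivity
    have e4 : 0 < Y ^ 2 := by positivity
    have e5 : 0 < B * X * Y := by positivity
    refine ⟨?_, ?_, ?_, ?_, ?_, ?_, ?_⟩ <;> linarith
  obtain ⟨hW1, hW2, hW3, hW4, hW5, hW6, hW7⟩ := hW
  obtain ⟨κ, hκ0, hκ⟩ : ∃ κ : ℝ, 0 < κ ∧ κ < p ∧ κ < q ∧ κ ≤ 1 - p ∧ κ ≤ 1 - q ∧
      κ ≤ B * p - β ∧ κ ≤ B * q - β ∧ κ ≤ Δ := by
    refine ⟨min (min (p / 2) (q / 2)) (min (min (1 - p) (1 - q))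
      (min (min (B * p - β) (B * q - β)) Δ)), ?_, ?_⟩
    · simp only [lt_min_iff]
      exact ⟨⟨by linarith, by linarith⟩, ⟨hp1, hq1⟩, ⟨hBp, hBq⟩, hΔ0⟩
    · refine ⟨?_, ?_, ?_, ?_, ?_, ?_, ?_⟩
      · exact ((min_le_left _ _).trans (min_le_left _ _)).trans_lt (by linarith)
      · exact ((min_le_left _ _).trans (min_le_right _ _)).trans_lt (by linarith)
      · exact (min_le_right _ _).trans ((min_le_left _ _).trans (min_le_left _ _))
      · exact (min_le_right _ _).trans ((min_le_left _ _).trans (min_le_right _ _))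
      · exact (min_le_right _ _).trans ((min_le_right _ _).trans
          ((min_le_left _ _).trans (min_le_left _ _)))
      · exact (min_le_right _ _).trans ((min_le_right _ _).trans
          ((min_le_left _ _).trans (min_le_right _ _)))
      · exact (min_le_right _ _).trans ((min_le_right _ _).trans (min_le_right _ _))
  obtain ⟨hκ1, hκ2, hκ3, hκ4, hκ5, hκ6, hκ7⟩ := hκ
  refine ⟨X, Y, κ / W, hX0, hY0, div_pos hκ0 hW0, ?_⟩
  intro t ht0 ht
  have htW : t * W ≤ κ := by rwa [le_div_iff₀ hW0] at ht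
  have tX : t * X ≤ κ := (mul_le_mul_of_nonneg_left hW1 ht0.le).trans htW
  have tY : t * Y ≤ κ := (mul_le_mul_of_nonneg_left hW2 ht0.le).trans htW
  have tBX : t * (B * X) ≤ κ := (mul_le_mul_of_nonneg_left hW3 ht0.le).trans htW
  have tBY : t * (B * Y) ≤ κ := (mul_le_mul_of_nonneg_left hW4 ht0.le).trans htW
  have tXX : t * X ^ 2 ≤ Δ := ((mul_le_mul_of_nonneg_left hW5 ht0.le).trans htW).trans hκ7
  have tYY : t * Y ^ 2 ≤ Δ := ((mul_le_mul_of_nonneg_left hW6 ht0.le).trans htW).trans hκ7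
  have tXY : t * (B * X * Y) ≤ Δ :=
    ((mul_le_mul_of_nonneg_left hW7 ht0.le).trans htW).trans hκ7
  have htX0 : 0 < t * X := mul_pos ht0 hX0
  have htY0 : 0 < t * Y := mul_pos ht0 hY0
  have hpl : 0 < p - t * X := by linarith
  have hql : 0 < q - t * Y := by linarith
  have hBX0 : 0 ≤ B * (t * X) := by positivity
  have hBY0 : 0 ≤ B * (t * Y) := by positivity
  -- the linear parts
  have L1 : t * X * P1 - t * Y * P2 = t * Δ := by rw [hX, hY, hΔ]; ring
  have L2 : t * Y * Q1 - t * X * Q2 = t * Δ := by rw [hX, hY, hΔ]; ring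
  have q1 : t * (t * X ^ 2) ≤ t * Δ := mul_le_mul_of_nonneg_left tXX ht0.le
  have q2 : t * (t * Y ^ 2) ≤ t * Δ := mul_le_mul_of_nonneg_left tYY ht0.le
  have q3 : t * (t * (B * X * Y)) ≤ t * Δ := mul_le_mul_of_nonneg_left tXY ht0.le
  have q4 : 0 ≤ t * (t * (B * X * Y)) := by positivity
  have q5 : 0 ≤ t * (t * X ^ 2) := by positivity
  have q6 : 0 ≤ t * (t * Y ^ 2) := by positivity
  refine ⟨hpl, hql, ?_⟩
  intro u v hu1 hu2 hv1 hv2
  have hu0 : 0 < u := hpl.trans_le hu1
  have hv0 : 0 < v := hql.trans_le hv1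
  have hD : 0 < u + B * v + A := D_pos hA hB hu0 hv0.le
  have r1 : p - t * X ≤ F α β A B u v := by
    apply le_F_of_box hD hu1 hv2 (by linarith) (by linarith)
    have := G1 (-(t * X)) (t * Y)
    rw [show p + -(t * X) = p - t * X by ring] at this
    rw [this]
    linarith
  have r2 : F α β A B u v ≤ p + t * X := by
    apply F_le_of_box hD hu2 hv1 (by linarith) (by linarith)
    have := G1 (t * X) (-(t * Y))
    rw [show q + -(t * Y) = q - t * Y by ring] at this
    rw [this]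
    linarith
  have hF0 : 0 < F α β A B u v := hpl.trans_le r1
  have hD' : 0 < v + B * F α β A B u v + A := D_pos hA hB hv0 hF0.le
  refine ⟨⟨r1, r2⟩, ?_, ?_⟩
  · apply le_F_of_box hD' hv1 r2 (by linarith) (by linarith)
    have := G2 (t * X) (-(t * Y))
    rw [show q + -(t * Y) = q - t * Y by ring] at this
    rw [this]
    linarith
  · apply F_le_of_box hD' hv2 r1 (by linarith) (by linarith)
    have := G2 (-(t * X)) (t * Y)
    rw [show p + -(t * X) = p - t * X by ring] at this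
    rw [this]
    linarith

lemma T_iterate_two (z : ℝ × ℝ) : (T α β A B)^[2] z =
    (F α β A B z.1 z.2, F α β A B z.2 (F α β A B z.1 z.2)) := by
  rw [Function.iterate_succ_apply, Function.iterate_one, T_eq, T_eq]

/-- Existence of the positive equilibrium. -/
lemma exists_equilibrium (hα : 0 ≤ α) (hB : 0 < B) (h : 0 < α ∨ A < 1 + β) :
    ∃ e, 0 < e ∧ (B + 1) * e ^ 2 + (A - β - 1) * e - α = 0 := by
  set b := 1 + β - A with hb
  have hnn : 0 ≤ b ^ 2 + 4 * (B + 1) * α := by positivity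
  set d := √(b ^ 2 + 4 * (B + 1) * α) with hd
  have hd2 : d ^ 2 = b ^ 2 + 4 * (B + 1) * α := Real.sq_sqrt hnn
  have hd0 : 0 ≤ d := Real.sqrt_nonneg _
  have hpos : 0 < b + d := by
    rcases h with h | h
    · have h1 : b ^ 2 < d ^ 2 := by
        rw [hd2]
        have : 0 < 4 * (B + 1) * α := by positivity
        linarith
      have h2 := abs_lt_of_sq_lt_sq h1 hd0
      linarith [(abs_lt.1 h2).1]
    · have : 0 < b := by linarith
      linarith
  refine ⟨(b + d) / (2 * (B + 1)), by positivity, ?_⟩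
  have hA' : A - β - 1 = -b := by rw [hb]; ring
  rw [hA']
  field_simp
  linear_combination hd2

/-- Local asymptotic stability of a two-cycle. -/
lemma cycle_stable {p q : ℝ} (hα : 0 ≤ α) (hA : 0 ≤ A) (hβ : 0 < β) (hB : 0 < B) (hp : 0 < p)
    (hq : 0 < q) (hpq : p ≠ q) (h1 : F α β A B p q = p) (h2 : F α β A B q p = q) :
    LocAsymStable (T α β A B)^[2] (p, q) := by
  obtain ⟨hs, hP, hB1, hsum, -⟩ := cycle_facts hα hA hβ hB hp hq hpq h1 h2
  obtain ⟨X, Y, t₀, hX, hY, ht₀, hbox⟩ := cycle_box hα hA hβ hB hp hq hpq h1 h2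
  -- invariant box for a given `t`
  have hinv : ∀ t, 0 < t → t ≤ t₀ → ∀ z : ℝ × ℝ,
      (p - t * X ≤ z.1 ∧ z.1 ≤ p + t * X ∧ q - t * Y ≤ z.2 ∧ z.2 ≤ q + t * Y) →
      (p - t * X ≤ ((T α β A B)^[2] z).1 ∧ ((T α β A B)^[2] z).1 ≤ p + t * X ∧
        q - t * Y ≤ ((T α β A B)^[2] z).2 ∧ ((T α β A B)^[2] z).2 ≤ q + t * Y) := by
    rintro t ht ht2 z ⟨a1, a2, a3, a4⟩
    rw [T_iterate_two]
    obtain ⟨-, -, h3⟩ := hbox t ht ht2
    obtain ⟨⟨b1, b2⟩, b3, b4⟩ := h3 z.1 z.2 a1 a2 a3 a4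
    exact ⟨b1, b2, b3, b4⟩
  constructor
  · apply locStable_of_inv
    intro ε hε
    set t := min t₀ (min (ε / (2 * X)) (ε / (2 * Y))) with ht
    have ht0 : 0 < t := lt_min ht₀ (lt_min (by positivity) (by positivity))
    have ht1 : t ≤ t₀ := min_le_left _ _
    have htX : t * X < ε := by
      have : t ≤ ε / (2 * X) := (min_le_right _ _).trans (min_le_left _ _)
      rw [le_div_iff₀ (by positivity)] at this
      linarith
    have htY : t * Y < ε := by
      have : t ≤ ε / (2 * Y) := (min_le_right _ _).trans (min_le_right _ _)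
      rw [le_div_iff₀ (by positivity)] at this
      linarith
    refine ⟨fun z => p - t * X ≤ z.1 ∧ z.1 ≤ p + t * X ∧ q - t * Y ≤ z.2 ∧ z.2 ≤ q + t * Y,
      ⟨min (t * X) (t * Y), lt_min (by positivity) (by positivity), ?_⟩, hinv t ht0 ht1, ?_⟩
    · intro z _ _ hz
      have h3 := dist_lt_iff.1 hz
      have h4 := abs_lt.1 (h3.1.trans_le (min_le_left _ _))
      have h5 := abs_lt.1 (h3.2.trans_le (min_le_right _ _))
      exact ⟨by linarith, by linarith, by linarith, by linarith⟩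
    · rintro z ⟨a1, a2, a3, a4⟩
      rw [dist_lt_iff, abs_lt, abs_lt]
      exact ⟨⟨by linarith, by linarith⟩, ⟨by linarith, by linarith⟩⟩
  · -- attraction
    have hpq' : 0 < |p - q| := abs_pos.2 (sub_ne_zero.2 hpq)
    set t := min t₀ (|p - q| / (2 * (X + Y))) with ht
    have ht0 : 0 < t := lt_min ht₀ (by positivity)
    have ht1 : t ≤ t₀ := min_le_left _ _
    have htXY : t * (X + Y) < |p - q| := by
      have : t ≤ |p - q| / (2 * (X + Y)) := min_le_right _ _
      rw [le_div_iff₀ (by positivity)] at this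
      linarith
    have htX0 : 0 < t * X := by positivity
    have htY0 : 0 < t * Y := by positivity
    obtain ⟨hpl, hql, -⟩ := hbox t ht0 ht1
    refine ⟨min (t * X) (t * Y), lt_min (by positivity) (by positivity), ?_⟩
    intro z _ _ hz
    have h3 := dist_lt_iff.1 hz
    have h4 := abs_lt.1 (h3.1.trans_le (min_le_left _ _))
    have h5 := abs_lt.1 (h3.2.trans_le (min_le_right _ _))
    have hz1 : 0 < z.1 := by linarith
    have hz2 : 0 < z.2 := by linarith
    -- the orbit as a positive solution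
    set x : ℕ → ℝ := fun n => ((T α β A B)^[n] z).1 with hx
    have hx2 : ∀ n, ((T α β A B)^[n] z).2 = x (n + 1) := fun n => by
      simp only [hx]
      rw [Function.iterate_succ_apply', T_eq]
    have hrec : ∀ n, x (n + 2) = F α β A B (x n) (x (n + 1)) := fun n => by
      rw [← hx2 (n + 1), Function.iterate_succ_apply', T_eq]
      simp only [hx2 n]
      rfl
    have hpos2 : ∀ n, 0 < x n ∧ 0 < x (n + 1) := by
      intro n
      induction n with
      | zero =>
        refine ⟨hz1, ?_⟩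
        rw [← hx2 0]
        exact hz2
      | succ n ih =>
        refine ⟨ih.2, ?_⟩
        rw [show n + 1 + 1 = n + 2 by ring, hrec n]
        have h6 := ih.1
        have h7 := ih.2
        unfold F
        positivity
    have hsol : PosSol α β A B x := ⟨fun n => (hpos2 n).1, hrec⟩
    obtain ⟨e, he, hE⟩ := exists_equilibrium (A := A) (β := β) hα hB (Or.inr (by linarith))
    obtain ⟨p', q', hp', hq', hF1, hF2, hlim1, hlim2⟩ :=
      hsol.limits hα hA hβ hB he hE (Or.inl (by linarith))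
    have hit : ∀ n, (T α β A B)^[2 * n] z = ((T α β A B)^[2])^[n] z := fun n => by
      rw [Function.iterate_mul]
    have hbx : ∀ n, p - t * X ≤ x (2 * n) ∧ x (2 * n) ≤ p + t * X ∧
        q - t * Y ≤ x (2 * n + 1) ∧ x (2 * n + 1) ≤ q + t * Y := by
      intro n
      rw [← hx2 (2 * n)]
      simp only [hx]
      rw [hit n]
      induction n with
      | zero =>
        rw [Function.iterate_zero_apply]
        exact ⟨by linarith [h4.1], by linarith [h4.2], by linarith [h5.1], by linarith [h5.2]⟩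
      | succ n ih =>
        rw [Function.iterate_succ_apply']
        exact hinv t ht0 ht1 _ ih
    have b1 : p - t * X ≤ p' := ge_of_tendsto' hlim1 fun n => (hbx n).1
    have b2 : p' ≤ p + t * X := le_of_tendsto' hlim1 fun n => (hbx n).2.1
    have b3 : q - t * Y ≤ q' := ge_of_tendsto' hlim2 fun n => (hbx n).2.2.1
    have b4 : q' ≤ q + t * Y := le_of_tendsto' hlim2 fun n => (hbx n).2.2.2
    have hsplit : t * (X + Y) = t * X + t * Y := by ring
    have hpq2 : p' ≠ q' := by
      intro h6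
      rcases lt_abs.1 htXY with h7 | h7 <;> linarith
    obtain ⟨hs', hP', -, -, -⟩ := cycle_facts hα hA hβ hB hp' hq' hpq2 hF1 hF2
    have hprod : p' * q' = p * q := by
      have h6 : (B - 1) * (p' * q') = (B - 1) * (p * q) := by
        rw [hP', hP, hs', hs]
      exact mul_left_cancel₀ (by linarith) h6
    have hfac : (p' - p) * (p' - q) = 0 := by
      have h6 : q' = p + q - p' := by linarith
      rw [h6] at hprod
      linear_combination (-1) * hprod
    have hpp : p' = p := by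
      rcases mul_eq_zero.1 hfac with h6 | h6
      · linarith
      · exfalso
        have h7 : p' = q := by linarith
        rcases lt_abs.1 htXY with h8 | h8 <;> linarith
    have hqq : q' = q := by linarith
    rw [hpp] at hlim1
    rw [hqq] at hlim2
    have h6 : ∀ n, ((T α β A B)^[2])^[n] z = (x (2 * n), x (2 * n + 1)) := fun n => by
      rw [← hit n, ← hx2 (2 * n)]
    simp only [h6]
    exact hlim1.prodMk_nhds hlim2

/-- Existence and uniqueness of the two-cycle. -/
lemma cycle_exists (hα : 0 ≤ α) (hA : 0 ≤ A) (hβ : 0 < β) (hB : 0 < B) (h1 : β + A < 1)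
    (h2 : 4 * α < (1 - β - A) * (B * (1 - β - A) - 1 - 3 * β + A)) :
    ∃ p q, 0 < p ∧ p < q ∧ F α β A B p q = p ∧ F α β A B q p = q := by
  set s := 1 - β - A with hs
  have hs0 : 0 < s := by linarith
  have hA' : A = 1 - β - s := by rw [hs]; ring
  have hK : s * (B * s - 1 - 3 * β + A) = (B - 1) * s ^ 2 - 4 * β * s := by
    rw [hA']; ring
  rw [hK] at h2
  have hB1 : 0 < B - 1 := by
    have h3 : 0 < (B - 1) * s ^ 2 := by
      have := mul_pos hβ hs0
      linarith
    exact (pos_iff_pos_of_mul_pos h3).2 (by positivity)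
  set P := (α + β * s) / (B - 1) with hP
  have hP1 : (B - 1) * P = α + β * s := by
    rw [hP]
    field_simp
  have hP0 : 0 < P := by
    rw [hP]
    positivity
  have hdisc : 0 < s ^ 2 - 4 * P := by
    have h3 : 0 < (B - 1) * (s ^ 2 - 4 * P) := by
      have : (B - 1) * (s ^ 2 - 4 * P) = (B - 1) * s ^ 2 - 4 * ((B - 1) * P) := by ring
      rw [this, hP1]
      linarith
    exact (mul_pos_iff_of_pos_left hB1).1 h3
  set d := √(s ^ 2 - 4 * P) with hd
  have hd2 : d ^ 2 = s ^ 2 - 4 * P := Real.sq_sqrt hdisc.le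
  have hd0 : 0 < d := Real.sqrt_pos.2 hdisc
  have hds : d < s := by
    have : d ^ 2 < s ^ 2 := by rw [hd2]; linarith
    exact lt_of_pow_lt_pow_left₀ 2 hs0.le this
  have hp : 0 < (s - d) / 2 := by linarith
  have hq : 0 < (s + d) / 2 := by linarith
  refine ⟨(s - d) / 2, (s + d) / 2, hp, by linarith, ?_, ?_⟩
  · rw [F, div_eq_iff (D_pos hA hB hp hq.le).ne', hA']
    linear_combination (-1) * hP1 + (B - 1) / 4 * hd2
  · rw [F, div_eq_iff (D_pos hA hB hq hp.le).ne', hA']
    linear_combination (-1) * hP1 + (B - 1) / 4 * hd2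

end Pool.Agent.MP_7f1385_an
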