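import Pool.Agent.Lib.MP_7f1385_an.Cycle

/-!
# All solutions
-/

set_option autoImplicit false

namespace Pool.Agent.MP_7f1385_an

open Filter Topology

variable {α β A B : ℝ}

lemma IsSolution.nonneg {x : ℕ → ℝ} (hx : IsSolution α β A B x) (hα : 0 ≤ α) (hA : 0 ≤ A)
    (hβ : 0 < β) (hB : 0 < B) (n : ℕ) : 0 ≤ x n ∧ 0 ≤ x (n + 1) := by
  induction n with
  | zero => exact ⟨hx.1, hx.2.1⟩
  | succ n ih =>
    refine ⟨ih.2, ?_⟩
    rw [show n + 1 + 1 = n + 2 by ring, (hx.2.2 n).2]
    have h1 := ih.1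
    have h2 := ih.2
    positivity

lemma IsSolution.cases {x : ℕ → ℝ} (hx : IsSolution α β A B x) (hα : 0 ≤ α) (hA : 0 ≤ A)
    (hβ : 0 < β) (hB : 0 < B) :
    (α = 0 ∧ ∀ n, x n = 0) ∨ ∀ n, 0 < x (n + 2) := by
  have hnn := hx.nonneg hα hA hβ hB
  have hD : ∀ n, 0 < x n + B * x (n + 1) + A := fun n => by
    have h1 := (hnn n).1
    have h2 := (hnn n).2
    exact lt_of_le_of_ne (by positivity) (hx.2.2 n).1.symm
  rcases hα.eq_or_lt with h0 | h0
  · subst h0
    by_cases hz : x 0 = 0 ∧ x 1 = 0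
    · left
      refine ⟨rfl, ?_⟩
      have h1 : ∀ n, x n = 0 ∧ x (n + 1) = 0 := by
        intro n
        induction n with
        | zero => exact hz
        | succ n ih =>
          refine ⟨ih.2, ?_⟩
          rw [show n + 1 + 1 = n + 2 by ring, (hx.2.2 n).2, ih.1, ih.2]
          simp
      exact fun n => (h1 n).1
    · right
      have h2 : 0 < x 0 + β * x 1 := by
        have h3 := (hnn 0).1
        have h4 := (hnn 0).2
        rw [zero_add] at h4
        rcases h3.lt_or_eq with h5 | h5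
        · positivity
        · rcases h4.lt_or_eq with h6 | h6
          · positivity
          · exact absurd ⟨h5.symm, h6.symm⟩ hz
      intro n
      induction n with
      | zero =>
        rw [(hx.2.2 0).2]
        apply div_pos _ (hD 0)
        rw [zero_add, add_zero]
        exact h2
      | succ n ih =>
        rw [(hx.2.2 (n + 1)).2]
        apply div_pos _ (hD (n + 1))
        have h3 := (hnn (n + 1)).1
        rw [show n + 1 + 1 = n + 2 by ring]
        positivity
  · right
    intro n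
    rw [(hx.2.2 n).2]
    apply div_pos _ (hD n)
    have h1 := (hnn n).1
    have h2 := (hnn n).2
    positivity

lemma IsSolution.posSol {x : ℕ → ℝ} (hx : IsSolution α β A B x) (N : ℕ)
    (h : ∀ n, 0 < x (n + N)) : PosSol α β A B (fun n => x (n + N)) :=
  ⟨h, fun n => by
    have := (hx.2.2 (n + N)).2
    rw [show n + 2 + N = n + N + 2 by ring, show n + 1 + N = n + N + 1 by ring]
    exact this⟩

/-- A sequence whose even and odd parts converge to the same limit converges. -/
lemma tendsto_even_odd {x : ℕ → ℝ} {p : ℝ} (h1 : Tendsto (fun k => x (2 * k)) atTop (𝓝 p))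
    (h2 : Tendsto (fun k => x (2 * k + 1)) atTop (𝓝 p)) : Tendsto x atTop (𝓝 p) := by
  rw [Metric.tendsto_atTop] at h1 h2 ⊢
  intro ε hε
  obtain ⟨N1, hN1⟩ := h1 ε hε
  obtain ⟨N2, hN2⟩ := h2 ε hε
  refine ⟨2 * (N1 + N2) + 1, fun n hn => ?_⟩
  rcases Nat.even_or_odd' n with ⟨k, hk | hk⟩
  · rw [hk]
    exact hN1 k (by omega)
  · rw [hk]
    exact hN2 k (by omega)

/-- Convergence to zero in the case of the zero equilibrium. -/
lemma tendsto_zero {x : ℕ → ℝ} (hx : PosSol 0 β A B x) (hβ : 0 < β) (hB : 0 < B)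
    (hA : 1 + β ≤ A) : Tendsto x atTop (𝓝 0) := by
  set c := min 1 (B / β) with hc
  have hc0 : 0 < c := lt_min one_pos (by positivity)
  have hc1 : c ≤ 1 := min_le_left _ _
  have hcB : c * β ≤ B := by
    have : c ≤ B / β := min_le_right _ _
    rwa [le_div_iff₀ hβ] at this
  have hstep : ∀ (k : ℕ) (u v : ℝ), 0 < u → 0 < v → c * k * u ≤ 1 → c * k * v ≤ 1 →
      c * ((k + 1 : ℕ) : ℝ) * F 0 β A B u v ≤ 1 := by
    intro k u v hu hv h1 h2
    have hD : 0 < u + B * v + A := by
      have : 0 < A := by linarith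
      positivity
    rw [F, ← mul_div_assoc, div_le_one hD]
    push_cast
    have h3 : c * (u + β * v) ≤ u + B * v := by
      nlinarith [mul_le_mul_of_nonneg_right hc1 hu.le, mul_le_mul_of_nonneg_right hcB hv.le]
    have h4 : c * k * (u + β * v) ≤ 1 + β := by
      have := mul_le_mul_of_nonneg_left h2 hβ.le
      linarith
    linarith
  have h : ∀ k : ℕ, c * k * x (2 * k) ≤ 1 ∧ c * k * x (2 * k + 1) ≤ 1 := by
    intro k
    induction k with
    | zero => simp
    | succ k ih =>
      have h1 : c * ((k + 1 : ℕ) : ℝ) * x (2 * (k + 1)) ≤ 1 := by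
        rw [show 2 * (k + 1) = 2 * k + 2 by ring, hx.rec']
        exact hstep k _ _ (hx.pos _) (hx.pos _) ih.1 ih.2
      refine ⟨h1, ?_⟩
      rw [show 2 * (k + 1) + 1 = (2 * k + 1) + 2 by ring, hx.rec']
      refine hstep k _ _ (hx.pos _) (hx.pos _) ih.2 ?_
      rw [show 2 * k + 1 + 1 = 2 * (k + 1) by ring]
      refine le_trans ?_ h1
      have h2 := hx.pos (2 * (k + 1))
      push_cast
      nlinarith [mul_pos hc0 h2]
  have hlim : ∀ a : ℕ → ℝ, (∀ k, 0 < a k) → (∀ k : ℕ, c * k * a k ≤ 1) →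
      Tendsto a atTop (𝓝 0) := by
    intro a ha1 ha2
    have h1 : Tendsto (fun k : ℕ => 1 / c * (1 / (k : ℝ))) atTop (𝓝 (1 / c * 0)) :=
      tendsto_one_div_atTop_nhds_zero_nat.const_mul _
    rw [mul_zero] at h1
    refine tendsto_of_tendsto_of_tendsto_of_le_of_le' tendsto_const_nhds h1
      (Eventually.of_forall fun k => (ha1 k).le) ?_
    filter_upwards [eventually_gt_atTop 0] with k hk
    have hk' : (0 : ℝ) < k := by exact_mod_cast hk
    rw [show 1 / c * (1 / (k : ℝ)) = 1 / (c * k) by field_simp,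
      le_div_iff₀ (by positivity)]
    linarith [ha2 k]
  exact tendsto_even_odd (hlim _ (fun k => hx.pos _) fun k => (h k).1)
    (hlim _ (fun k => hx.pos _) fun k => (h k).2)

/-- The alternating sequence of a pair with `F p q = p`, `F q p = q`. -/
lemma isSolution_alt {p q : ℝ} (hA : 0 ≤ A) (hB : 0 < B) (hp : 0 < p) (hq : 0 < q)
    (h1 : F α β A B p q = p) (h2 : F α β A B q p = q) :
    IsSolution α β A B (fun n => if Even n then p else q) := by
  refine ⟨by simp [hp.le], by simp [hq.le], fun n => ?_⟩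
  rcases Nat.even_or_odd n with hn | hn
  · have h3 : ¬ Even (n + 1) := by
      rw [Nat.not_even_iff_odd]
      exact hn.add_one
    have h4 : Even (n + 2) := hn.add (by decide)
    simp only [hn, h3, h4, if_true, if_false]
    exact ⟨(D_pos hA hB hp hq.le).ne', h1.symm⟩
  · have h3 : Even (n + 1) := hn.add_one
    have h4 : ¬ Even (n + 2) := by
      rw [Nat.not_even_iff_odd]
      exact hn.add_even (by decide)
    have h5 : ¬ Even n := Nat.not_even_iff_odd.2 hn
    simp only [h5, h3, h4, if_true, if_false]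
    exact ⟨(D_pos hA hB hq hp.le).ne', h2.symm⟩

lemma tendsto_sub_alt {x : ℕ → ℝ} {p q : ℝ}
    (h1 : Tendsto (fun k => x (2 * k)) atTop (𝓝 p))
    (h2 : Tendsto (fun k => x (2 * k + 1)) atTop (𝓝 q)) :
    Tendsto (fun n => x n - if Even n then p else q) atTop (𝓝 0) := by
  apply tendsto_even_odd
  · have h3 : Tendsto (fun k => x (2 * k) - p) atTop (𝓝 (p - p)) := h1.sub_const p
    rw [sub_self] at h3
    refine h3.congr fun k => ?_
    simp
  · have h3 : Tendsto (fun k => x (2 * k + 1) - q) atTop (𝓝 (q - q)) := h2.sub_const q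
    rw [sub_self] at h3
    refine h3.congr fun k => ?_
    have : ¬ Even (2 * k + 1) := by
      rw [Nat.not_even_iff_odd]
      exact ⟨k, rfl⟩
    simp [this]

/-- Part (c): every solution converges to a period-two solution. -/
theorem part_c {x : ℕ → ℝ} (hα : 0 ≤ α) (hA : 0 ≤ A) (hαA : 0 < α + A) (hβ : 0 < β)
    (hB : 0 < B) (h : β ≤ B ∨ α ≤ A) (hx : IsSolution α β A B x) :
    ∃ y : ℕ → ℝ, IsSolution α β A B y ∧ (∀ n, y (n + 2) = y n) ∧
      Tendsto (fun n => x n - y n) atTop (𝓝 0) := by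
  rcases hx.cases hα hA hβ hB with ⟨h0, hz⟩ | hpos
  · refine ⟨x, hx, fun n => by rw [hz, hz], ?_⟩
    simp
  · have hsol := hx.posSol 2 hpos
    by_cases hc : 0 < α ∨ A < 1 + β
    · obtain ⟨e, he, hE⟩ := exists_equilibrium (A := A) (β := β) hα hB hc
      obtain ⟨p, q, hp, hq, h1, h2, h3, h4⟩ := hsol.limits hα hA hβ hB he hE h
      have h3' : Tendsto (fun k => x (2 * k)) atTop (𝓝 p) := by
        rw [← tendsto_add_atTop_iff_nat 1]
        exact h3.congr fun k => by rw [show 2 * (k + 1) = 2 * k + 2 by ring]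
      have h4' : Tendsto (fun k => x (2 * k + 1)) atTop (𝓝 q) := by
        rw [← tendsto_add_atTop_iff_nat 1]
        exact h4.congr fun k => by rw [show 2 * (k + 1) + 1 = 2 * k + 1 + 2 by ring]
      refine ⟨fun n => if Even n then p else q, isSolution_alt hA hB hp hq h1 h2, ?_,
        tendsto_sub_alt h3' h4'⟩
      intro n
      have : Even (n + 2) ↔ Even n := by
        rw [Nat.even_add]
        simp
      simp only [this]
    · push Not at hc
      have hα0 : α = 0 := le_antisymm hc.1 hα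
      subst hα0
      have hA0 : 0 < A := by linarith
      have h1 := tendsto_zero hsol hβ hB hc.2
      have h2 : Tendsto x atTop (𝓝 0) := (tendsto_add_atTop_iff_nat 2).1 h1
      refine ⟨fun _ => 0, ⟨le_rfl, le_rfl, fun n => ⟨by simpa using hA0.ne', by simp⟩⟩,
        fun n => rfl, ?_⟩
      simpa using h2

/-- Part (b): the equilibrium is locally stable and attracts all positive solutions. -/
theorem part_b (hα : 0 ≤ α) (hA : 0 ≤ A) (hαA : 0 < α + A) (hβ : 0 < β) (hB : 0 < B)
    (h : β ≤ B ∨ α ≤ A)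
    (hK : 1 ≤ β + A ∨ (1 - β - A) * (B * (1 - β - A) - 1 - 3 * β + A) ≤ 4 * α) {e : ℝ}
    (he : IsGreatest {t : ℝ | 0 ≤ t ∧ (B + 1) * t ^ 2 + (A - β - 1) * t - α = 0} e) :
    LocStable (T α β A B) (e, e) ∧
      ∀ x : ℕ → ℝ, IsSolution α β A B x → (∀ n, 0 < x n) → Tendsto x atTop (𝓝 e) := by
  obtain ⟨⟨he0, hE⟩, hmax⟩ := he
  rcases he0.lt_or_eq with he0 | he0
  · refine ⟨stable_pos hα hA hβ hB he0 hE h hK, fun x hx hpos => ?_⟩
    have hsol : PosSol α β A B x := ⟨hpos, fun n => (hx.2.2 n).2⟩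
    obtain ⟨p, q, hp, hq, h1, h2, h3, h4⟩ := hsol.limits hα hA hβ hB he0 hE h
    have hpq : p = q := by
      by_contra hne
      obtain ⟨-, -, -, h5, h6⟩ := cycle_facts hα hA hβ hB hp hq hne h1 h2
      rcases hK with hK | hK <;> linarith
    subst hpq
    have h7 : p = e := by
      refine eq_of_E_zero hα hB hp he0 hE ?_
      rw [F, div_eq_iff (D_pos hA hB hp hp.le).ne'] at h1
      linarith
    subst h7
    exact tendsto_even_odd h3 h4
  · subst he0
    have hα0 : α = 0 := by
      have : (B + 1) * (0 : ℝ) ^ 2 + (A - β - 1) * 0 - α = 0 := hE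
      linarith
    subst hα0
    have hA1 : 1 + β ≤ A := by
      by_contra hneg
      push Not at hneg
      obtain ⟨e, he, hE'⟩ := exists_equilibrium (α := 0) (A := A) (β := β) le_rfl hB
        (Or.inr hneg)
      have := hmax ⟨he.le, hE'⟩
      linarith
    exact ⟨stable_zero hβ hB hA1, fun x hx hpos =>
      tendsto_zero ⟨hpos, fun n => (hx.2.2 n).2⟩ hβ hB hA1⟩

/-- Part (a): existence, uniqueness and asymptotic stability of the two-cycle. -/
theorem part_a (hα : 0 ≤ α) (hA : 0 ≤ A) (hβ : 0 < β) (hB : 0 < B) (h1 : β + A < 1)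
    (h2 : 4 * α < (1 - β - A) * (B * (1 - β - A) - 1 - 3 * β + A)) :
    ∃ p q : ℝ, 0 < p ∧ p < q ∧ IsSolution α β A B (fun n => if Even n then p else q) ∧
      LocAsymStable (T α β A B)^[2] (p, q) ∧ LocAsymStable (T α β A B)^[2] (q, p) ∧
      ∀ p' q' : ℝ, p' ≠ q' → IsSolution α β A B (fun n => if Even n then p' else q') →
        (p' = p ∧ q' = q) ∨ (p' = q ∧ q' = p) := by
  obtain ⟨p, q, hp, hpq, hF1, hF2⟩ := cycle_exists hα hA hβ hB h1 h2
  have hq : 0 < q := hp.trans hpq
  refine ⟨p, q, hp, hpq, isSolution_alt hA hB hp hq hF1 hF2,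
    cycle_stable hα hA hβ hB hp hq hpq.ne hF1 hF2,
    cycle_stable hα hA hβ hB hq hp hpq.ne' hF2 hF1, ?_⟩
  intro p' q' hne hsol
  have hpos : 0 < p' ∧ 0 < q' := by
    rcases hsol.cases hα hA hβ hB with ⟨-, h3⟩ | h3
    · have h4 := h3 0
      have h5 := h3 1
      simp only [Even.zero, if_true, Nat.not_even_one, if_false] at h4 h5
      exact absurd (h4.trans h5.symm) hne
    · have h4 := h3 0
      have h5 := h3 1
      have h6 : Even (0 + 2) := by decide
      have h7 : ¬ Even (1 + 2) := by decide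
      simp only [h6, h7, if_true, if_false] at h4 h5
      exact ⟨h4, h5⟩
  have hF1' : F α β A B p' q' = p' := by
    have h3 := (hsol.2.2 0).2
    have h6 : Even (0 + 2) := by decide
    have h7 : ¬ Even (0 + 1) := by decide
    simp only [h6, h7, Even.zero, if_true, if_false] at h3
    exact h3.symm
  have hF2' : F α β A B q' p' = q' := by
    have h3 := (hsol.2.2 1).2
    have h6 : ¬ Even (1 + 2) := by decide
    have h7 : Even (1 + 1) := by decide
    simp only [h6, h7, Nat.not_even_one, if_true, if_false] at h3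
    exact h3.symm
  obtain ⟨s1, P1, hB1, -, -⟩ := cycle_facts hα hA hβ hB hp hq hpq.ne hF1 hF2
  obtain ⟨s2, P2, -, -, -⟩ := cycle_facts hα hA hβ hB hpos.1 hpos.2 hne hF1' hF2'
  have hprod : p' * q' = p * q := by
    have h6 : (B - 1) * (p' * q') = (B - 1) * (p * q) := by
      rw [P1, P2, s1, s2]
    exact mul_left_cancel₀ (by linarith) h6
  have hfac : (p' - p) * (p' - q) = 0 := by
    have h6 : q' = p + q - p' := by linarith
    rw [h6] at hprod
    linear_combination (-1) * hprod
  rcases mul_eq_zero.1 hfac with h6 | h6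
  · left
    constructor <;> linarith
  · right
    constructor <;> linarith

end Pool.Agent.MP_7f1385_an
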