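import Pool.Agent.Lib.MP_7f1385_an.Orbit

/-!
# Positive solutions: convergence to the equilibrium, or an eventually competitive regime
-/

set_option autoImplicit false

namespace Pool.Agent.MP_7f1385_an

open Filter Topology

variable {α β A B : ℝ}

/-- The extreme limit points of a positive solution. -/
lemma PosSol.extremes {x : ℕ → ℝ} (hx : PosSol α β A B x) (hA : 0 ≤ A) (hB : 0 < B) {m M : ℝ}
    (hm : 0 < m) (hb : ∀ n, m ≤ x n ∧ x n ≤ M) :
    ∃ I S : ℝ, m ≤ I ∧ I ≤ S ∧
      (∀ ε > 0, ∀ᶠ n in atTop, I - ε < x n) ∧ (∀ ε > 0, ∀ᶠ n in atTop, x n < S + ε) ∧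
      (∀ k : ℕ, ∃ y : ℕ → ℝ, (∀ j, I ≤ y j ∧ y j ≤ S) ∧
        (∀ j, y (j + 2) = F α β A B (y j) (y (j + 1))) ∧ y k = S) ∧
      (∀ k : ℕ, ∃ y : ℕ → ℝ, (∀ j, I ≤ y j ∧ y j ≤ S) ∧
        (∀ j, y (j + 2) = F α β A B (y j) (y (j + 1))) ∧ y k = I) := by
  have hbu : IsBoundedUnder (· ≤ ·) atTop x := isBoundedUnder_of ⟨M, fun n => (hb n).2⟩
  have hbl : IsBoundedUnder (· ≥ ·) atTop x := isBoundedUnder_of ⟨m, fun n => (hb n).1⟩
  have hcu : IsCoboundedUnder (· ≤ ·) atTop x := hbl.isCoboundedUnder_le
  have hcl : IsCoboundedUnder (· ≥ ·) atTop x := hbu.isCoboundedUnder_ge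
  have hS : ∀ ε > 0, ∀ᶠ n in atTop, x n < limsup x atTop + ε := fun ε hε =>
    eventually_lt_of_limsup_lt (by linarith) hbu
  have hI : ∀ ε > 0, ∀ᶠ n in atTop, liminf x atTop - ε < x n := fun ε hε =>
    eventually_lt_of_lt_liminf (by linarith) hbl
  have hcS : ∀ ε > 0, ∃ᶠ n in atTop, |x n - limsup x atTop| < ε := fun ε hε => by
    have h1 : ∃ᶠ n in atTop, limsup x atTop - ε < x n :=
      frequently_lt_of_lt_limsup hcu (by linarith)
    refine (h1.and_eventually (hS ε hε)).mono fun n hn => ?_
    rw [abs_lt]
    constructor <;> linarith [hn.1, hn.2]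
  have hcI : ∀ ε > 0, ∃ᶠ n in atTop, |x n - liminf x atTop| < ε := fun ε hε => by
    have h1 : ∃ᶠ n in atTop, x n < liminf x atTop + ε :=
      frequently_lt_of_liminf_lt hcl (by linarith)
    refine (h1.and_eventually (hI ε hε)).mono fun n hn => ?_
    rw [abs_lt]
    constructor <;> linarith [hn.1, hn.2]
  refine ⟨liminf x atTop, limsup x atTop, ?_, liminf_le_limsup hbu hbl, hI, hS, ?_, ?_⟩
  · exact le_liminf_of_le hcl (Eventually.of_forall fun n => (hb n).1)
  · intro k
    obtain ⟨y, h1, -, h3, h4⟩ := hx.orbit hA hB hm hb hcS hI hS k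
    exact ⟨y, h1, h3, h4⟩
  · intro k
    obtain ⟨y, h1, -, h3, h4⟩ := hx.orbit hA hB hm hb hcI hI hS k
    exact ⟨y, h1, h3, h4⟩

lemma corner1 {I S : ℝ} (hA : 0 ≤ A) (hβ : 0 < β) (hB : 0 < B) (hI : 0 < I) (hIS : I ≤ S)
    (h1 : S ≤ F α β A B I I) (h2 : F α β A B S S ≤ I) : S ≤ I := by
  have hS : 0 < S := hI.trans_le hIS
  rw [le_F_iff (D_pos hA hB hI hI.le)] at h1
  rw [F_le_iff (D_pos hA hB hS hS.le)] at h2
  by_contra h
  push Not at h
  nlinarith

lemma corner2 {I S : ℝ} (hA : 0 ≤ A) (hβ : 0 < β) (hB : 0 < B) (hI : 0 < I) (hIS : I ≤ S)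
    (h1 : S ≤ F α β A B I I) (h2 : F α β A B I S ≤ I) : S ≤ I := by
  have hS : 0 < S := hI.trans_le hIS
  rw [le_F_iff (D_pos hA hB hI hI.le)] at h1
  rw [F_le_iff (D_pos hA hB hI hS.le)] at h2
  by_contra h
  push Not at h
  have : S * (I + A + β) ≤ I * (I + A + β) := by nlinarith
  have h3 : 0 < I + A + β := by positivity
  nlinarith

lemma PosSol.tri {x : ℕ → ℝ} (hx : PosSol α β A B x) (hα : 0 ≤ α) (hA : 0 ≤ A)
    (hβ : 0 < β) (hB : 0 < B) {e : ℝ} (he : 0 < e)
    (hE : (B + 1) * e ^ 2 + (A - β - 1) * e - α = 0) (h : β ≤ B ∨ α ≤ A) :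
    Tendsto x atTop (𝓝 e) ∨ (β < B ∧ ∀ᶠ n in atTop, 0 ≤ (B - β) * x n + (A - α) ∧
      (β - B) * x n + (β * A - B * α) ≤ 0) := by
  obtain ⟨m, M, hm, hb⟩ := hx.bounds hα hA hβ hB he hE
  obtain ⟨I, S, hmI, hIS, hevI, hevS, horS, horI⟩ := hx.extremes hA hB hm hb
  have hI0 : 0 < I := hm.trans_le hmI
  have hS0 : 0 < S := hI0.trans_le hIS
  -- it is enough to show `S ≤ I`
  have key : S ≤ I → Tendsto x atTop (𝓝 e) := by
    intro hSI
    have hEq : I = S := le_antisymm hIS hSI
    obtain ⟨y, hy1, hy2, hy3⟩ := horS 2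
    have h0 : y 0 = S := le_antisymm (hy1 0).2 (hEq ▸ (hy1 0).1)
    have h1 : y 1 = S := le_antisymm (hy1 1).2 (hEq ▸ (hy1 1).1)
    have h2 := hy2 0
    rw [zero_add, zero_add, hy3, h0, h1] at h2
    have hD : 0 < S + B * S + A := D_pos hA hB hS0 hS0.le
    have h3 : S * (S + B * S + A) = S + β * S + α := by
      have : F α β A B S S * (S + B * S + A) = S + β * S + α := by
        rw [F, div_mul_cancel₀ _ hD.ne']
      rwa [← h2] at this
    have h4 : S = e := eq_of_E_zero hα hB hS0 he hE (by linarith)
    rw [← h4, Metric.tendsto_atTop']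
    intro ε hε
    obtain ⟨N, hN⟩ := eventually_atTop.1 ((hevI ε hε).and (hevS ε hε))
    refine ⟨N, fun n hn => ?_⟩
    have := hN n hn.le
    rw [Real.dist_eq, abs_lt]
    constructor <;> linarith [this.1, this.2]
  obtain ⟨y, hy1, hy2, hy3⟩ := horS 2
  obtain ⟨z, hz1, hz2, hz3⟩ := horI 2
  have hyS : S = F α β A B (y 0) (y 1) := by rw [← hy3]; exact hy2 0
  have hzI : I = F α β A B (z 0) (z 1) := by rw [← hz3]; exact hz2 0
  have hy0 : 0 < y 0 := hI0.trans_le (hy1 0).1
  have hy1' : 0 < y 1 := hI0.trans_le (hy1 1).1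
  have hz0 : 0 < z 0 := hI0.trans_le (hz1 0).1
  have hz1' : 0 < z 1 := hI0.trans_le (hz1 1).1
  have hDI : ∀ {u v : ℝ}, 0 < u → 0 < v → 0 < u + B * v + A := fun hu hv => D_pos hA hB hu hv.le
  -- the regime in which `F` is increasing in both variables on `[I, S]`
  have incr : (∀ v, I ≤ v → v ≤ S → 0 ≤ (B - β) * v + (A - α)) →
      (∀ u, I ≤ u → u ≤ S → 0 ≤ (β - B) * u + (β * A - B * α)) → S ≤ I := by
    intro h1 h2
    have h3 : S ≤ F α β A B S S := by
      calc S = F α β A B (y 0) (y 1) := hyS
        _ ≤ F α β A B (y 0) S := mono_v hB (hDI hy0 hy1') (hy1 1).2 (h2 _ (hy1 0).1 (hy1 0).2)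
        _ ≤ F α β A B S S := mono_u (hDI hy0 hS0) (hy1 0).2 (h1 _ hIS le_rfl)
    have h4 : F α β A B I I ≤ I := by
      calc F α β A B I I ≤ F α β A B I (z 1) :=
            mono_v hB (hDI hI0 hI0) (hz1 1).1 (h2 _ le_rfl hIS)
        _ ≤ F α β A B (z 0) (z 1) := mono_u (hDI hI0 hz1') (hz1 0).1
            (h1 _ (hz1 1).1 (hz1 1).2)
        _ = I := hzI.symm
    rw [le_F_iff (hDI hS0 hS0)] at h3
    rw [F_le_iff (hDI hI0 hI0)] at h4
    exact (le_of_E_nonpos hα hB hS0 he hE (by linarith)).trans
      (ge_of_E_nonneg hα hB hI0 he hE (by linarith))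
  -- the regime in which `F` is decreasing in both variables on `[I, S]`
  have decr : (∀ v, I ≤ v → v ≤ S → (B - β) * v + (A - α) ≤ 0) →
      (∀ u, I ≤ u → u ≤ S → (β - B) * u + (β * A - B * α) ≤ 0) → S ≤ I := by
    intro h1 h2
    refine corner1 (α := α) hA hβ hB hI0 hIS ?_ ?_
    · calc S = F α β A B (y 0) (y 1) := hyS
        _ ≤ F α β A B (y 0) I := anti_v hB (hDI hy0 hI0) (hy1 1).1 (h2 _ (hy1 0).1 (hy1 0).2)
        _ ≤ F α β A B I I := anti_u (hDI hI0 hI0) (hy1 0).1 (h1 _ le_rfl hIS)
    · calc F α β A B S S ≤ F α β A B S (z 1) :=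
            anti_v hB (hDI hS0 hz1') (hz1 1).2 (h2 _ hIS le_rfl)
        _ ≤ F α β A B (z 0) (z 1) := anti_u (hDI hz0 hz1') (hz1 0).2
            (h1 _ (hz1 1).1 (hz1 1).2)
        _ = I := hzI.symm
  rcases lt_trichotomy β B with hlt | heq | hgt
  · -- `β < B`
    have hBβ : 0 < B - β := by linarith
    rcases lt_or_ge A α with hAα | hAα
    · have hs2 : ∀ u, 0 < u → (β - B) * u + (β * A - B * α) ≤ 0 := by
        intro u hu
        nlinarith [mul_pos hBβ hu, mul_nonneg hBβ.le hA]
      rcases le_or_gt ((B - β) * I + (A - α)) 0 with hs | hs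
      · left
        apply key
        have h1 : S ≤ F α β A B I I := by
          calc S = F α β A B (y 0) (y 1) := hyS
            _ ≤ F α β A B (y 0) I := anti_v hB (hDI hy0 hI0) (hy1 1).1 (hs2 _ hy0)
            _ ≤ F α β A B I I := anti_u (hDI hI0 hI0) (hy1 0).1 hs
        have h2 : F α β A B (z 0) S ≤ I := by
          rw [hzI.trans rfl]
          exact hzI ▸ anti_v hB (hDI hz0 hz1') (hz1 1).2 (hs2 _ hz0)
        rcases le_total 0 ((B - β) * S + (A - α)) with h3 | h3
        · exact corner2 hA hβ hB hI0 hIS h1 ((mono_u (hDI hI0 hS0) (hz1 0).1 h3).trans h2)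
        · exact corner1 hA hβ hB hI0 hIS h1 ((anti_u (hDI hz0 hS0) (hz1 0).2 h3).trans h2)
      · right
        refine ⟨hlt, ?_⟩
        have hε : 0 < ((B - β) * I + (A - α)) / (B - β) := by positivity
        filter_upwards [hevI _ hε] with n hn
        refine ⟨?_, hs2 _ (hx.pos n)⟩
        have h1 : (B - β) * (((B - β) * I + (A - α)) / (B - β)) = (B - β) * I + (A - α) := by
          field_simp
        nlinarith [mul_pos hBβ (sub_pos.2 hn)]
    · rcases le_or_gt (β * A) (B * α) with hκ | hκ
      · right
        refine ⟨hlt, Eventually.of_forall fun n => ?_⟩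
        have hn := hx.pos n
        constructor <;> nlinarith [mul_pos hBβ hn]
      · rcases lt_or_ge ((β - B) * I + (β * A - B * α)) 0 with hs | hs
        · right
          refine ⟨hlt, ?_⟩
          have hε : 0 < -((β - B) * I + (β * A - B * α)) / (B - β) :=
            div_pos (by linarith) hBβ
          filter_upwards [hevI _ hε] with n hn
          have h1 : (B - β) * (-((β - B) * I + (β * A - B * α)) / (B - β)) =
              -((β - B) * I + (β * A - B * α)) := by
            field_simp
          constructor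
          · nlinarith [mul_pos hBβ (hx.pos n)]
          · nlinarith [mul_pos hBβ (sub_pos.2 hn)]
        · left
          apply key
          rcases le_or_gt 0 ((β - B) * S + (β * A - B * α)) with h3 | h3
          · refine incr (fun v hv _ => ?_) (fun u _ hu => ?_)
            · nlinarith [mul_pos hBβ (hI0.trans_le hv)]
            · nlinarith [mul_nonneg hBβ.le (sub_nonneg.2 hu)]
          · exfalso
            obtain ⟨b, hb1⟩ : ∃ b, B * b = β := ⟨β / B, by field_simp⟩
            have hb0 : 0 < b := (mul_pos_iff_of_pos_left hB).1 (hb1 ▸ hβ)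
            have hb2 : b < 1 := by
              have : B * b < B * 1 := by linarith
              exact lt_of_mul_lt_mul_left this hB.le
            have hi : S * (S + B * y 1 + A) ≤ S + β * y 1 + α := by
              rw [← le_F_iff (hDI hS0 hy1')]
              calc S = F α β A B (y 0) (y 1) := hyS
                _ ≤ F α β A B S (y 1) := mono_u (hDI hy0 hy1') (hy1 0).2
                    (by nlinarith [mul_pos hBβ hy1'])
            have hii : I + β * z 1 + α ≤ I * (I + B * z 1 + A) := by
              rw [← F_le_iff (hDI hI0 hz1')]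
              calc F α β A B I (z 1) ≤ F α β A B (z 0) (z 1) := mono_u (hDI hI0 hz1') (hz1 0).1
                    (by nlinarith [mul_pos hBβ hz1'])
                _ = I := hzI.symm
            have hS1 : b * A - α < (1 - b) * S := by
              have h41 : B * ((1 - b) * S - (b * A - α)) =
                  -((β - B) * S + (β * A - B * α)) := by
                rw [← hb1]
                ring
              have h42 : 0 < B * ((1 - b) * S - (b * A - α)) := by
                rw [h41]
                linarith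
              have := (mul_pos_iff_of_pos_left hB).1 h42
              linarith
            have hI1 : (1 - b) * I ≤ b * A - α := by
              have h41 : B * ((b * A - α) - (1 - b) * I) =
                  (β - B) * I + (β * A - B * α) := by
                rw [← hb1]
                ring
              have h42 : 0 ≤ B * ((b * A - α) - (1 - b) * I) := by
                rw [h41]
                exact hs
              have := nonneg_of_mul_nonneg_right h42 hB
              linarith
            have hγS : b * (S ^ 2 + (A - 1) * S - α) =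
                S * (b * A - α - b * (1 - b)) + (S - b) * (b * S + α) := by ring
            have hγI : b * (I ^ 2 + (A - 1) * I - α) =
                I * (b * A - α - b * (1 - b)) + (I - b) * (b * I + α) := by ring
            rcases le_or_gt 0 (b * A - α - b * (1 - b)) with h4 | h4
            · have h5 : b < S := by
                by_contra hneg
                push Not at hneg
                nlinarith [mul_nonneg (sub_nonneg.2 hb2.le) (sub_nonneg.2 hneg)]
              have h6 : 0 < b * (S ^ 2 + (A - 1) * S - α) := by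
                rw [hγS]
                have : 0 < (S - b) * (b * S + α) := mul_pos (by linarith) (by positivity)
                have := mul_nonneg hS0.le h4
                linarith
              have h7 := (mul_pos_iff_of_pos_left hb0).1 h6
              have h8 : 0 < y 1 * (B * (S - b)) := mul_pos hy1' (mul_pos hB (by linarith))
              rw [← hb1] at hi
              linarith
            · have h5 : I < b := by
                by_contra hneg
                push Not at hneg
                nlinarith [mul_nonneg (sub_nonneg.2 hb2.le) (sub_nonneg.2 hneg)]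
              have h6 : b * (I ^ 2 + (A - 1) * I - α) < 0 := by
                rw [hγI]
                have h61 : (I - b) * (b * I + α) < 0 :=
                  mul_neg_of_neg_of_pos (by linarith) (by positivity)
                have h62 := mul_neg_of_pos_of_neg hI0 h4
                linarith
              have h7 : I ^ 2 + (A - 1) * I - α < 0 := by
                by_contra hneg
                push Not at hneg
                linarith [mul_nonneg hb0.le hneg]
              have h8 : 0 < z 1 * (B * (b - I)) := mul_pos hz1' (mul_pos hB (by linarith))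
              rw [← hb1] at hii
              linarith
  · -- `β = B`
    left
    apply key
    subst heq
    rcases le_total α A with hαA | hαA
    · refine incr (fun v _ _ => by linarith) (fun u _ _ => by nlinarith)
    · refine decr (fun v _ _ => by linarith) (fun u _ _ => by nlinarith)
  · -- `β > B`
    left
    apply key
    have hαA : α ≤ A := h.resolve_left (by linarith)
    have hβB : 0 < β - B := by linarith
    have hs2 : ∀ u, 0 < u → 0 ≤ (β - B) * u + (β * A - B * α) := by
      intro u hu
      nlinarith [mul_pos hβB hu, mul_nonneg hβB.le hA]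
    have hρ : ∀ t, α + (β - A) * t - B * t ^ 2 =
        t * ((β - B) - (A - α)) + (1 - t) * (α + B * t) := fun t => by ring
    rcases le_or_gt 0 ((B - β) * S + (A - α)) with h1 | h1
    · refine incr (fun v _ hv => ?_) (fun u hu _ => hs2 u (hI0.trans_le hu))
      nlinarith [mul_nonneg hβB.le (sub_nonneg.2 hv)]
    have hi : S * (y 0 + B * S + A) ≤ y 0 + β * S + α := by
      rw [← le_F_iff (hDI hy0 hS0)]
      calc S = F α β A B (y 0) (y 1) := hyS
        _ ≤ F α β A B (y 0) S := mono_v hB (hDI hy0 hy1') (hy1 1).2 (hs2 _ hy0)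
    rcases le_or_gt (β - B) (A - α) with hM | hM
    · exfalso
      have hS1 : 1 < S := by
        by_contra hneg
        push Not at hneg
        nlinarith [mul_nonneg hβB.le (sub_nonneg.2 hneg)]
      have h2 : α + (β - A) * S - B * S ^ 2 < 0 := by
        rw [hρ]
        have h21 : (1 - S) * (α + B * S) < 0 :=
          mul_neg_of_neg_of_pos (by linarith) (by positivity)
        have h22 : S * ((β - B) - (A - α)) ≤ 0 :=
          mul_nonpos_of_nonneg_of_nonpos hS0.le (by linarith)
        linarith
      nlinarith [mul_pos hy0 (sub_pos.2 hS1)]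
    rcases le_or_gt 0 ((B - β) * I + (A - α)) with h2 | h2
    · exfalso
      have hI1 : I < 1 := by
        by_contra hneg
        push Not at hneg
        nlinarith [mul_nonneg hβB.le (sub_nonneg.2 hneg)]
      have hii : z 0 + β * I + α ≤ I * (z 0 + B * I + A) := by
        rw [← F_le_iff (hDI hz0 hI0)]
        calc F α β A B (z 0) I ≤ F α β A B (z 0) (z 1) :=
              mono_v hB (hDI hz0 hI0) (hz1 1).1 (hs2 _ hz0)
          _ = I := hzI.symm
      have h3 : 0 < α + (β - A) * I - B * I ^ 2 := by
        rw [hρ]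
        have h31 : 0 < (1 - I) * (α + B * I) := mul_pos (by linarith) (by positivity)
        have h32 : 0 < I * ((β - B) - (A - α)) := mul_pos hI0 (by linarith)
        linarith
      nlinarith [mul_pos hz0 (sub_pos.2 hI1)]
    -- the non-monotone regime
    have hs1 : ∀ v, I ≤ v → (B - β) * v + (A - α) ≤ 0 := fun v hv => by
      nlinarith [mul_nonneg hβB.le (sub_nonneg.2 hv)]
    have hI1 : 1 ≤ I := by
      rw [hzI, le_F_iff (hDI hz0 hz1')]
      have := hs1 _ (hz1 1).1
      linarith
    have he1 : 1 ≤ e := le_of_E_nonpos hα hB one_pos he hE (by linarith)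
    have hh : ∀ v, e * (e * (v - 1) + B * v ^ 2 + (A - β) * v - α) =
        (v - e) * (e + B * e * v + α) := fun v => by
      linear_combination v * hE
    have hup : ∀ u v, e < u → e < v → F α β A B u v < v := by
      intro u v hu hv
      rw [F_lt_iff (hDI (he.trans hu) (he.trans hv))]
      have h3 : 0 < e * (e * (v - 1) + B * v ^ 2 + (A - β) * v - α) := by
        rw [hh]
        have : 0 < v := he.trans hv
        exact mul_pos (by linarith) (by positivity)
      have h4 := (mul_pos_iff_of_pos_left he).1 h3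
      nlinarith [mul_nonneg (sub_nonneg.2 hu.le) (show 0 ≤ v - 1 by linarith)]
    have hdn : ∀ u v, 0 < u → 1 ≤ v → u < e → v < e → v < F α β A B u v := by
      intro u v hu0 hv1 hu hv
      rw [lt_F_iff (hDI hu0 (by linarith))]
      have h3 : 0 < e * -(e * (v - 1) + B * v ^ 2 + (A - β) * v - α) := by
        have : 0 < (e - v) * (e + B * e * v + α) :=
          mul_pos (by linarith) (by positivity)
        linarith [hh v]
      have h4 := (mul_pos_iff_of_pos_left he).1 h3
      nlinarith [mul_nonneg (sub_nonneg.2 hu.le) (show 0 ≤ v - 1 by linarith)]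
    obtain ⟨y, hy1, hy2, hy3⟩ := horS 3
    obtain ⟨z, hz1, hz2, hz3⟩ := horI 3
    have hyp : ∀ j, 0 < y j := fun j => hI0.trans_le (hy1 j).1
    have hzp : ∀ j, 0 < z j := fun j => hI0.trans_le (hz1 j).1
    have hyS : S = F α β A B (y 1) (y 2) := by rw [← hy3]; exact hy2 1
    have hzI : I = F α β A B (z 1) (z 2) := by rw [← hz3]; exact hz2 1
    have hIe : I ≤ e := by
      by_contra hneg
      push Not at hneg
      have := hup _ _ (hneg.trans_le (hy1 1).1) (hneg.trans_le (hy1 2).1)
      linarith [(hy1 2).2]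
    have heS : e ≤ S := by
      by_contra hneg
      push Not at hneg
      have := hdn _ _ (hzp 1) (hI1.trans (hz1 2).1) ((hz1 1).2.trans_lt hneg)
        ((hz1 2).2.trans_lt hneg)
      linarith [(hz1 2).1]
    have hSle : S ≤ F α β A B I e := by
      rcases le_or_gt (y 2) e with h3 | h3
      · calc S = F α β A B (y 1) (y 2) := hyS
          _ ≤ F α β A B I (y 2) := anti_u (hDI hI0 (hyp 2)) (hy1 1).1 (hs1 _ (hy1 2).1)
          _ ≤ F α β A B I e := mono_v hB (hDI hI0 (hyp 2)) h3 (hs2 _ hI0)
      · rcases le_or_gt (y 1) e with h4 | h4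
        · have h5 : y 2 ≤ F α β A B I (y 1) := by
            rw [hy2 0]
            exact anti_u (hDI hI0 (hyp 1)) (hy1 0).1 (hs1 _ (hy1 1).1)
          calc S = F α β A B (y 1) (y 2) := hyS
            _ ≤ F α β A B (y 1) (F α β A B I (y 1)) :=
                mono_v hB (hDI (hyp 1) (hyp 2)) h5 (hs2 _ (hyp 1))
            _ ≤ F α β A B I e := claim_low hα hαA hβ hB hI1 (hy1 1).1 h4 hE
        · exfalso
          have := hup _ _ h4 h3
          linarith [(hy1 2).2]
    have hIge : F α β A B S e ≤ I := by
      rcases le_or_gt e (z 2) with h3 | h3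
      · calc F α β A B S e ≤ F α β A B S (z 2) := mono_v hB (hDI hS0 he) h3 (hs2 _ hS0)
          _ ≤ F α β A B (z 1) (z 2) := anti_u (hDI (hzp 1) (hzp 2)) (hz1 1).2
              (hs1 _ (hz1 2).1)
          _ = I := hzI.symm
      · rcases le_or_gt e (z 1) with h4 | h4
        · have h5 : F α β A B S (z 1) ≤ z 2 := by
            rw [hz2 0]
            exact anti_u (hDI (hzp 0) (hzp 1)) (hz1 0).2 (hs1 _ (hz1 1).1)
          have h6 : 0 < F α β A B S (z 1) := by
            have := F_nonneg (α := α) (β := β) hα hA hβ hB hS0.le (hzp 1).le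
            unfold F
            have := hzp 1
            positivity
          calc F α β A B S e ≤ F α β A B (z 1) (F α β A B S (z 1)) :=
                claim_up hα hαA hβ hB he1 h4 (hz1 1).2 hE
            _ ≤ F α β A B (z 1) (z 2) := mono_v hB (hDI (hzp 1) h6) h5 (hs2 _ (hzp 1))
            _ = I := hzI.symm
        · exfalso
          have := hdn _ _ (hzp 1) (hI1.trans (hz1 2).1) h4 h3
          linarith [(hz1 2).1]
    rw [le_F_iff (hDI hI0 he)] at hSle
    rw [F_le_iff (hDI hS0 he)] at hIge
    by_contra hneg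
    push Not at hneg
    nlinarith [mul_pos (sub_pos.2 hneg) (show 0 < B * e + A + 1 by positivity)]

end Pool.Agent.MP_7f1385_an
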