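import Pool.Agent.Lib.MP_7f1385_an.LyapConv
import Pool.Agent.Lib.MP_7f1385_an.Tri

/-!
# Convergence for `B < β`, `A < α`
-/

set_option autoImplicit false

namespace Pool.Agent.MP_7f1385_an

open Filter Topology

variable {α β A B : ℝ}

lemma one_lt_F {u v : ℝ} (hA : 0 ≤ A) (hB : 0 < B) (hβB : B < β) (hαA : A < α) (hu : 0 < u)
    (hv : 0 < v) : 1 < F α β A B u v := by
  rw [lt_F_iff (D_pos hA hB hu hv.le)]
  nlinarith

/-- If `B < β` and `A < α`, every positive solution converges to the equilibrium. -/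
theorem PosSol.conv_nonmono {x : ℕ → ℝ} (hx : PosSol α β A B x) (hA : 0 ≤ A) (hB : 0 < B)
    {e : ℝ} (he : 0 < e) (hE : (B + 1) * e ^ 2 + (A - β - 1) * e - α = 0) (hβB : B < β)
    (hαA : A < α) : Tendsto x atTop (𝓝 e) := by
  have hα : 0 ≤ α := by linarith
  have hβ : 0 < β := by linarith
  obtain ⟨m, M, hm, hb⟩ := hx.bounds hα hA hβ hB he hE
  obtain ⟨I, S, hmI, hIS, hevI, hevS, horS, horI⟩ := hx.extremes hA hB hm hb
  have hI0 : 0 < I := hm.trans_le hmI
  have hS0 : 0 < S := hI0.trans_le hIS
  -- it is enough to show `S ≤ I`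
  have key : S ≤ I → Tendsto x atTop (𝓝 e) := by
    intro hSI
    have hEq : I = S := le_antisymm hIS hSI
    obtain ⟨y, hy1, hy2, hy3⟩ := horS 2
    have h0 : y 0 = S := le_antisymm (hy1 0).2 (hEq ▸ (hy1 0).1)
    have h1 : y 1 = S := le_antisymm (hy1 1).2 (hEq ▸ (hy1 1).1)
    have h2 := hy2 0
    rw [zero_add, zero_add, hy3, h0, h1] at h2
    have hD : 0 < S + B * S + A := D_pos hA hB hS0 hS0.le
    have h3 : S * (S + B * S + A) = S + β * S + α := by
      have : F α β A B S S * (S + B * S + A) = S + β * S + α := by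
        rw [F, div_mul_cancel₀ _ hD.ne']
      rwa [← h2] at this
    have h4 : S = e := eq_of_E_zero hα hB hS0 he hE (by linarith)
    rw [← h4, Metric.tendsto_atTop']
    intro ε hε
    obtain ⟨N, hN⟩ := eventually_atTop.1 ((hevI ε hε).and (hevS ε hε))
    refine ⟨N, fun n hn => ?_⟩
    have := hN n hn.le
    rw [Real.dist_eq, abs_lt]
    constructor <;> linarith [this.1, this.2]
  obtain ⟨y, hy1, hy2, hy3⟩ := horS 2
  obtain ⟨w, hw1, hw2, hw3⟩ := horI 2
  have hyS : S = F α β A B (y 0) (y 1) := by rw [← hy3]; exact hy2 0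
  have hwI : I = F α β A B (w 0) (w 1) := by rw [← hw3]; exact hw2 0
  have hy0 : 0 < y 0 := hI0.trans_le (hy1 0).1
  have hy1' : 0 < y 1 := hI0.trans_le (hy1 1).1
  have hw0 : 0 < w 0 := hI0.trans_le (hw1 0).1
  have hw1' : 0 < w 1 := hI0.trans_le (hw1 1).1
  have hDI : ∀ {u v : ℝ}, 0 < u → 0 < v → 0 < u + B * v + A := fun hu hv => D_pos hA hB hu hv.le
  have hsu : ∀ v, 0 < v → (B - β) * v + (A - α) ≤ 0 := by
    intro v hv
    nlinarith
  have hI1 : 1 < I := by rw [hwI]; exact one_lt_F hA hB hβB hαA hw0 hw1'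
  rcases le_or_gt ((β - B) * I + (β * A - B * α)) 0 with hreg | hreg
  · apply key
    have hSF : S ≤ F α β A B I I := by
      calc S = F α β A B (y 0) (y 1) := hyS
        _ ≤ F α β A B I (y 1) := anti_u (hDI hI0 hy1') (hy1 0).1 (hsu _ hy1')
        _ ≤ F α β A B I I := anti_v hB (hDI hI0 hI0) (hy1 1).1 hreg
    rcases le_or_gt 0 ((β - B) * S + (β * A - B * α)) with h2 | h2
    · have hIF : F α β A B S I ≤ I := by
        calc F α β A B S I ≤ F α β A B S (w 1) := mono_v hB (hDI hS0 hI0) (hw1 1).1 h2
          _ ≤ F α β A B (w 0) (w 1) := anti_u (hDI hw0 hw1') (hw1 0).2 (hsu _ hw1')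
          _ = I := hwI.symm
      rw [le_F_iff (hDI hI0 hI0)] at hSF
      rw [F_le_iff (hDI hS0 hI0)] at hIF
      by_contra hcon
      push Not at hcon
      nlinarith [mul_pos hB hI0]
    · refine corner1 (α := α) hA hβ hB hI0 hIS hSF ?_
      calc F α β A B S S ≤ F α β A B S (w 1) :=
            anti_v hB (hDI hS0 hw1') (hw1 1).2 h2.le
        _ ≤ F α β A B (w 0) (w 1) := anti_u (hDI hw0 hw1') (hw1 0).2 (hsu _ hw1')
        _ = I := hwI.symm
  · -- the regime of the Lyapunov function
    have hb0 : 0 < β - B := by linarith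
    have hSB : B * S < β := by
      have h1 : 0 < (β - B) * y 0 + (β * A - B * α) := by
        have := mul_le_mul_of_nonneg_left (hy1 0).1 hb0.le
        linarith
      have h2 : F α β A B (y 0) (y 1) < β / B := by
        rw [F_lt_iff (hDI hy0 hy1'), div_mul_eq_mul_div, lt_div_iff₀ hB]
        linarith
      rw [← hyS, lt_div_iff₀ hB] at h2
      linarith
    set l := ((β - B) + (α - A)) * B / (β - B) - (1 + A + B) with hl
    have hl1 : (β - B) * (l + (1 + A + B)) = ((β - B) + (α - A)) * B := by
      rw [hl]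
      field_simp
      ring
    have hlI : l < I - 1 := by
      by_contra hcon
      push Not at hcon
      have : (β - B) * (I - 1 + (1 + A + B)) ≤ (β - B) * (l + (1 + A + B)) :=
        mul_le_mul_of_nonneg_left (by linarith) hb0.le
      rw [hl1] at this
      linarith
    set δ := min (min ((I - 1) / 2) ((I - 1 - l) / 2)) ((β - B * S) / (2 * B)) with hδ
    have hδ0 : 0 < δ := lt_min (lt_min (by linarith) (by linarith))
      (div_pos (by linarith) (by linarith))
    have hδ1 : δ ≤ (I - 1) / 2 := (min_le_left _ _).trans (min_le_left _ _)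
    have hδ2 : δ ≤ (I - 1 - l) / 2 := (min_le_left _ _).trans (min_le_right _ _)
    have hδ3 : B * δ ≤ (β - B * S) / 2 := by
      have : δ ≤ (β - B * S) / (2 * B) := min_le_right _ _
      rw [le_div_iff₀ (by linarith)] at this
      linarith
    obtain ⟨N, hN⟩ := eventually_atTop.1 ((hevI δ hδ0).and (hevS δ hδ0))
    set c := 1 + A + B with hc
    have hc0 : 0 < c := by positivity
    have ha0 : 0 < (β - B) + (α - A) := by linarith
    set z := (-c + √(c ^ 2 + 4 * ((β - B) + (α - A)))) / 2 with hz
    have hsq : √(c ^ 2 + 4 * ((β - B) + (α - A))) ^ 2 = c ^ 2 + 4 * ((β - B) + (α - A)) :=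
      Real.sq_sqrt (by positivity)
    have hcs : c < √(c ^ 2 + 4 * ((β - B) + (α - A))) :=
      Real.lt_sqrt_of_sq_lt (by linarith)
    have hBI : B * (I - 1) ≤ B * (S - 1) := mul_le_mul_of_nonneg_left (by linarith) hB.le
    have P : Par ((β - B) + (α - A)) (β - B) c B l z := by
      refine ⟨ha0, hb0, hc0, hB, hl1, ?_, by linarith, ?_⟩
      · have : B * l < B * (I - 1) := mul_lt_mul_of_pos_left hlI hB
        linarith
      · rw [hz]
        linear_combination hsq / 4
    have he1 : 1 < e := by
      have h1 : F α β A B e e = e := by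
        rw [F, div_eq_iff (hDI he he).ne']
        linarith
      rw [← h1]
      exact one_lt_F hA hB hβB hαA he he
    have hconv := lyap_conv P (y := fun n => x (n + N) - 1) (m := I - δ - 1) (M := S + δ - 1)
      (by linarith) (by linarith) (by linarith)
      (fun n => by
        have := hN (n + N) (by omega)
        constructor <;> linarith [this.1, this.2])
      (fun n => by
        have h1 := hx.rec' (n + N)
        have h2 := hx.pos (n + N)
        have h3 := hx.pos (n + N + 1)
        rw [F, eq_div_iff (hDI h2 h3).ne'] at h1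
        rw [show n + 2 + N = n + N + 2 by ring, show n + 1 + N = n + N + 1 by ring, hc]
        linear_combination h1) (e := e - 1) (by linarith) (by
        rw [hc]
        linear_combination hE)
    have h1 := hconv.add_const 1
    simp only [sub_add_cancel] at h1
    exact (tendsto_add_atTop_iff_nat N).1 h1

end Pool.Agent.MP_7f1385_an
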