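import Pool.Agent.Lib.MP_7f1385_an.Stable

/-!
# Local stability of the equilibrium by a quadratic form
-/

set_option autoImplicit false

namespace Pool.Agent.MP_7f1385_an

open Filter Topology

variable {α β A B : ℝ}

/-- A quadratic form that decreases along `(U, V) ↦ (V, t V - s U)`. -/
lemma exists_quad {s t : ℝ} (hs0 : 0 ≤ s) (hs1 : s < 1) (ht : |t| < 1 + s) :
    ∃ P R η κ : ℝ, 0 < η ∧ 0 < κ ∧ |R| ≤ 1 ∧
      (∀ U V, κ * (U ^ 2 + V ^ 2) ≤ P * U ^ 2 - 2 * R * (U * V) + V ^ 2) ∧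
      (∀ U V, P * V ^ 2 - 2 * R * (V * (t * V - s * U)) + (t * V - s * U) ^ 2 =
        P * U ^ 2 - 2 * R * (U * V) + V ^ 2 - η * (U ^ 2 + V ^ 2)) := by
  have hs2 : 0 < 1 + s := by linarith
  set R := t * s / (1 + s) with hR
  have hRs : R * (1 + s) = t * s := by
    rw [hR]
    field_simp
  set η := (1 - s ^ 2 + 2 * t * R - t ^ 2) / 2 with hη
  have htt : t ^ 2 < (1 + s) ^ 2 := by
    rw [sq_lt_sq, abs_of_pos hs2]
    exact ht
  have hη0 : 0 < η := by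
    have h1 : (1 + s) * (1 - s ^ 2 + 2 * t * R - t ^ 2) = (1 - s) * ((1 + s) ^ 2 - t ^ 2) := by
      linear_combination (2 * t) * hRs
    have h2 : 0 < (1 - s) * ((1 + s) ^ 2 - t ^ 2) := mul_pos (by linarith) (by linarith)
    rw [← h1] at h2
    have := (pos_iff_pos_of_mul_pos h2).1 hs2
    rw [hη]
    linarith
  have hRR : R ^ 2 ≤ s ^ 2 := by
    have h1 : (R * (1 + s)) ^ 2 ≤ (s * (1 + s)) ^ 2 := by
      rw [hRs]
      have : s ^ 2 * t ^ 2 ≤ s ^ 2 * (1 + s) ^ 2 :=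
        mul_le_mul_of_nonneg_left htt.le (sq_nonneg _)
      nlinarith
    rw [mul_pow, mul_pow] at h1
    exact le_of_mul_le_mul_right h1 (by positivity)
  have hR1 : |R| ≤ 1 := by
    rw [← abs_one, ← sq_le_sq]
    nlinarith
  refine ⟨s ^ 2 + η, R, η, min (1 / 2) (η / 3), hη0, lt_min (by norm_num) (by positivity), hR1,
    fun U V => ?_, fun U V => ?_⟩
  · have h1 : (s ^ 2 + η) * U ^ 2 - 2 * R * (U * V) + V ^ 2 =
        (V - R * U) ^ 2 + (s ^ 2 - R ^ 2) * U ^ 2 + η * U ^ 2 := by ring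
    have h2 : U ^ 2 + V ^ 2 ≤ 2 * (V - R * U) ^ 2 + 3 * U ^ 2 := by
      have h3 : R ^ 2 * U ^ 2 ≤ 1 * U ^ 2 :=
        mul_le_mul_of_nonneg_right (by nlinarith) (sq_nonneg _)
      nlinarith [sq_nonneg (V - 2 * R * U)]
    have h4 : 0 ≤ (s ^ 2 - R ^ 2) * U ^ 2 := mul_nonneg (by linarith) (sq_nonneg _)
    have h5 : min (1 / 2) (η / 3) * (U ^ 2 + V ^ 2) ≤
        min (1 / 2) (η / 3) * (2 * (V - R * U) ^ 2 + 3 * U ^ 2) :=
      mul_le_mul_of_nonneg_left h2 (le_min (by norm_num) (by positivity))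
    have h6 : min (1 / 2) (η / 3) * (V - R * U) ^ 2 ≤ 1 / 2 * (V - R * U) ^ 2 :=
      mul_le_mul_of_nonneg_right (min_le_left _ _) (sq_nonneg _)
    have h7 : min (1 / 2) (η / 3) * U ^ 2 ≤ η / 3 * U ^ 2 :=
      mul_le_mul_of_nonneg_right (min_le_right _ _) (sq_nonneg _)
    rw [h1]
    linarith
  · have h1 : 2 * η = 1 - s ^ 2 + 2 * t * R - t ^ 2 := by
      rw [hη]
      ring
    linear_combination (2 * U * V) * hRs + (V ^ 2) * h1

lemma pert {R s t η ε₁ U V L θ : ℝ} (hR1 : |R| ≤ 1) (ht2 : t ^ 2 ≤ 4) (hs2 : s ^ 2 ≤ 1)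
    (hL : L = t * V - s * U) (hε₁0 : 0 < ε₁) (hθ1 : |θ| ≤ ε₁) (hε₁1 : ε₁ ≤ 1)
    (hε₁η : 33 * ε₁ ≤ η) :
    θ * ((2 + θ) * L ^ 2 - 2 * R * (V * L)) ≤ η * (U ^ 2 + V ^ 2) := by
  have hL2 : L ^ 2 ≤ 8 * V ^ 2 + 2 * U ^ 2 := by
    have h1 : L ^ 2 = 2 * (t ^ 2 * V ^ 2) + 2 * (s ^ 2 * U ^ 2) - (t * V + s * U) ^ 2 := by
      rw [hL]
      ring
    have h2 : t ^ 2 * V ^ 2 ≤ 4 * V ^ 2 := mul_le_mul_of_nonneg_right ht2 (sq_nonneg _)
    have h3 : s ^ 2 * U ^ 2 ≤ 1 * U ^ 2 := mul_le_mul_of_nonneg_right hs2 (sq_nonneg _)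
    have h4 := sq_nonneg (t * V + s * U)
    rw [h1]
    linarith
  have hbr : |(2 + θ) * L ^ 2 - 2 * R * (V * L)| ≤ 33 * (U ^ 2 + V ^ 2) := by
    have h1 : |2 * R * (V * L)| ≤ V ^ 2 + L ^ 2 := by
      have h2 : |R * (V * L)| ≤ |V * L| := by
        rw [abs_mul]
        exact mul_le_of_le_one_left (abs_nonneg _) hR1
      have h3 : 2 * |V * L| ≤ V ^ 2 + L ^ 2 := by
        have h5 := sq_nonneg (|V| - |L|)
        have h6 : (|V| - |L|) ^ 2 = V ^ 2 + L ^ 2 - 2 * |V * L| := by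
          rw [abs_mul, sub_sq, sq_abs, sq_abs]
          ring
        linarith
      rw [mul_assoc, abs_mul, abs_two]
      linarith
    have h4 : |(2 + θ) * L ^ 2| ≤ 3 * L ^ 2 := by
      rw [abs_mul, abs_of_nonneg (sq_nonneg L)]
      apply mul_le_mul_of_nonneg_right _ (sq_nonneg L)
      have := abs_le.1 (hθ1.trans hε₁1)
      rw [abs_le]
      constructor <;> linarith
    have h5 := abs_sub ((2 + θ) * L ^ 2) (2 * R * (V * L))
    have h6 := sq_nonneg U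
    have h7 := sq_nonneg V
    linarith
  have h1 : |θ * ((2 + θ) * L ^ 2 - 2 * R * (V * L))| ≤ ε₁ * (33 * (U ^ 2 + V ^ 2)) := by
    rw [abs_mul]
    exact mul_le_mul hθ1 hbr (abs_nonneg _) hε₁0.le
  have h2 : 33 * ε₁ * (U ^ 2 + V ^ 2) ≤ η * (U ^ 2 + V ^ 2) :=
    mul_le_mul_of_nonneg_right hε₁η (by positivity)
  have h3 := le_abs_self (θ * ((2 + θ) * L ^ 2 - 2 * R * (V * L)))
  linarith

lemma quad_step {P R s t η ε₁ U V X D D₀ r : ℝ} (hR1 : |R| ≤ 1) (ht2 : t ^ 2 ≤ 4)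
    (hs2 : s ^ 2 ≤ 1) (hε₁0 : 0 < ε₁) (hε₁1 : ε₁ ≤ 1) (hε₁η : 33 * ε₁ ≤ η)
    (hdec : P * V ^ 2 - 2 * R * (V * (t * V - s * U)) + (t * V - s * U) ^ 2 =
        P * U ^ 2 - 2 * R * (U * V) + V ^ 2 - η * (U ^ 2 + V ^ 2))
    (hB : 0 < B) (hD0 : 0 < D₀) (hU : |U| < r) (hV : |V| < r)
    (hrB : 2 * ((1 + B) * r) ≤ ε₁ * D₀) (hDD : D = D₀ + U + B * V)
    (hXD : X * D = (t * V - s * U) * D₀) :
    P * V ^ 2 - 2 * R * (V * X) + X ^ 2 ≤ P * U ^ 2 - 2 * R * (U * V) + V ^ 2 := by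
  have hU' := abs_lt.1 hU
  have hV' := abs_lt.1 hV
  have hBV : |U + B * V| ≤ (1 + B) * r := by
    have h1 : B * V ≤ B * r := mul_le_mul_of_nonneg_left hV'.2.le hB.le
    have h2 : B * (-r) ≤ B * V := mul_le_mul_of_nonneg_left hV'.1.le hB.le
    rw [abs_le]
    constructor <;> linarith
  have hBV' := abs_le.1 hBV
  have hDge : D₀ / 2 ≤ D := by
    have : ε₁ * D₀ ≤ 1 * D₀ := mul_le_mul_of_nonneg_right hε₁1 hD0.le
    rw [hDD]
    linarith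
  have hDpos : 0 < D := by linarith
  obtain ⟨L, hL⟩ : ∃ L, L = t * V - s * U := ⟨_, rfl⟩
  obtain ⟨θ, hθ⟩ : ∃ θ, θ = -(U + B * V) / D := ⟨_, rfl⟩
  rw [← hL] at hXD hdec
  have hθD : θ * D = -(U + B * V) := by
    rw [hθ]
    field_simp
  have hXL : X = L + θ * L := by
    have : (X - (L + θ * L)) * D = 0 := by
      have h1 : (X - (L + θ * L)) * D = X * D - L * D - L * (θ * D) := by ring
      rw [h1, hXD, hθD, hDD]
      ring
    rcases mul_eq_zero.1 this with h | h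
    · linarith
    · exact absurd h hDpos.ne'
  have hθ1 : |θ| ≤ ε₁ := by
    rw [hθ, abs_div, abs_neg, abs_of_pos hDpos, div_le_iff₀ hDpos]
    have : ε₁ * (D₀ / 2) ≤ ε₁ * D := mul_le_mul_of_nonneg_left hDge hε₁0.le
    linarith
  have hdiff : P * V ^ 2 - 2 * R * (V * X) + X ^ 2 =
      P * V ^ 2 - 2 * R * (V * L) + L ^ 2 + θ * ((2 + θ) * L ^ 2 - 2 * R * (V * L)) := by
    rw [hXL]
    ring
  have hprod := pert (U := U) (V := V) hR1 ht2 hs2 hL hε₁0 hθ1 hε₁1 hε₁η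
  rw [hdiff, hdec]
  linarith

lemma stable_quad {e : ℝ} (hα : 0 ≤ α) (hA : 0 ≤ A) (hβ : 0 < β) (hB : 0 < B)
    (hE : (B + 1) * e ^ 2 + (A - β - 1) * e - α = 0) (he1 : 1 ≤ e)
    (ht : |β - B * e| < (1 + B) * e + A + (e - 1)) : LocStable (T α β A B) (e, e) := by
  have he0 : 0 < e := by linarith
  obtain ⟨D₀, hD₀⟩ : ∃ D₀, D₀ = (1 + B) * e + A := ⟨_, rfl⟩
  have hD0 : 0 < D₀ := by rw [hD₀]; positivity
  obtain ⟨s, hs⟩ : ∃ s, s = (e - 1) / D₀ := ⟨_, rfl⟩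
  obtain ⟨t, htdef⟩ : ∃ t, t = (β - B * e) / D₀ := ⟨_, rfl⟩
  have hsD : s * D₀ = e - 1 := by
    rw [hs]
    field_simp
  have htD : t * D₀ = β - B * e := by
    rw [htdef]
    field_simp
  have hs0 : 0 ≤ s := by
    rw [hs]
    exact div_nonneg (by linarith) hD0.le
  have hs1 : s < 1 := by
    rw [hs, div_lt_one hD0, hD₀]
    have : 0 < B * e := by positivity
    linarith
  have ht1 : |t| < 1 + s := by
    rw [htdef, abs_div, abs_of_pos hD0, div_lt_iff₀ hD0, add_mul, hsD, hD₀]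
    linarith
  have ht2 : t ^ 2 ≤ 4 := by
    have : |t| ≤ |(2 : ℝ)| := by
      rw [abs_two]
      linarith
    have := sq_le_sq.2 this
    linarith
  have hs22 : s ^ 2 ≤ 1 := by nlinarith
  obtain ⟨P, R, η, κ, hη, hκ, hR1, hlow, hdec⟩ := exists_quad hs0 hs1 ht1
  apply locStable_of_inv
  intro ε hε
  obtain ⟨ε₁, hε₁0, hε₁1, hε₁η⟩ : ∃ ε₁ : ℝ, 0 < ε₁ ∧ ε₁ ≤ 1 ∧ 33 * ε₁ ≤ η := by
    refine ⟨min 1 (η / 33), lt_min one_pos (by positivity), min_le_left _ _, ?_⟩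
    have : min 1 (η / 33) ≤ η / 33 := min_le_right _ _
    linarith
  obtain ⟨r, hr0, hrB, hrε⟩ : ∃ r : ℝ, 0 < r ∧ 2 * ((1 + B) * r) ≤ ε₁ * D₀ ∧ r ≤ ε := by
    refine ⟨min (ε₁ * D₀ / (2 * (1 + B))) ε, lt_min (by positivity) hε, ?_, min_le_right _ _⟩
    have h1 : min (ε₁ * D₀ / (2 * (1 + B))) ε ≤ ε₁ * D₀ / (2 * (1 + B)) := min_le_left _ _
    rw [le_div_iff₀ (by positivity)] at h1
    linarith
  have hsmall : ∀ U V : ℝ, P * U ^ 2 - 2 * R * (U * V) + V ^ 2 < κ * r ^ 2 →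
      |U| < r ∧ |V| < r := by
    intro U V h
    have h1 := hlow U V
    have h2 : U ^ 2 + V ^ 2 < r ^ 2 := lt_of_mul_lt_mul_left (by linarith) hκ.le
    constructor
    · rw [← abs_of_pos hr0, ← sq_lt_sq]
      linarith [sq_nonneg V]
    · rw [← abs_of_pos hr0, ← sq_lt_sq]
      linarith [sq_nonneg U]
  refine ⟨fun z => 0 ≤ z.1 ∧ 0 ≤ z.2 ∧
    P * (z.1 - e) ^ 2 - 2 * R * ((z.1 - e) * (z.2 - e)) + (z.2 - e) ^ 2 < κ * r ^ 2, ?_, ?_, ?_⟩
  · have hcont : Continuous fun z : ℝ × ℝ =>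
        P * (z.1 - e) ^ 2 - 2 * R * ((z.1 - e) * (z.2 - e)) + (z.2 - e) ^ 2 := by fun_prop
    have h1 : ∀ᶠ z : ℝ × ℝ in 𝓝 (e, e),
        P * (z.1 - e) ^ 2 - 2 * R * ((z.1 - e) * (z.2 - e)) + (z.2 - e) ^ 2 < κ * r ^ 2 := by
      apply (hcont.tendsto (e, e)).eventually_lt_const
      have : P * (e - e) ^ 2 - 2 * R * ((e - e) * (e - e)) + (e - e) ^ 2 = 0 := by ring
      rw [this]
      positivity
    obtain ⟨δ, hδ, h2⟩ := Metric.eventually_nhds_iff.1 h1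
    exact ⟨δ, hδ, fun z hz1 hz2 hz => ⟨hz1, hz2, h2 hz⟩⟩
  · rintro z ⟨hz1, hz2, hz3⟩
    rw [T_eq]
    refine ⟨hz2, F_nonneg hα hA hβ hB hz1 hz2, ?_⟩
    obtain ⟨hUr, hVr⟩ := hsmall _ _ hz3
    have hDD : z.1 + B * z.2 + A = D₀ + (z.1 - e) + B * (z.2 - e) := by
      rw [hD₀]
      ring
    have hDne : z.1 + B * z.2 + A ≠ 0 := by
      intro h0
      have h1 := abs_lt.1 hUr
      have h2 := abs_lt.1 hVr
      have h3 : ε₁ * D₀ ≤ 1 * D₀ := mul_le_mul_of_nonneg_right hε₁1 hD0.le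
      have h4 : B * (-r) ≤ B * (z.2 - e) := mul_le_mul_of_nonneg_left h2.1.le hB.le
      linarith
    have hXD : (F α β A B z.1 z.2 - e) * (z.1 + B * z.2 + A) =
        (t * (z.2 - e) - s * (z.1 - e)) * D₀ := by
      have h1 := num_eq (u := z.1) (v := z.2) hE
      have h2 : F α β A B z.1 z.2 * (z.1 + B * z.2 + A) = z.1 + β * z.2 + α := by
        rw [F, div_mul_cancel₀ _ hDne]
      linear_combination h1 + h2 + (z.1 - e) * hsD - (z.2 - e) * htD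
    have := quad_step (P := P) hR1 ht2 hs22 hε₁0 hε₁1 hε₁η (hdec _ _) hB hD0 hUr hVr hrB hDD hXD
    exact this.trans_lt hz3
  · rintro z ⟨-, -, hz3⟩
    obtain ⟨h1, h2⟩ := hsmall _ _ hz3
    rw [dist_lt_iff]
    exact ⟨h1.trans_le hrε, h2.trans_le hrε⟩

/-- Local stability of the equilibrium if `B < β` and `A < α`. -/
lemma stable_nonmono' {e : ℝ} (hA : 0 ≤ A) (hαA : A < α) (hβB : B < β) (hB : 0 < B)
    (he : 0 < e) (hE : (B + 1) * e ^ 2 + (A - β - 1) * e - α = 0) :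
    LocStable (T α β A B) (e, e) := by
  have hα : 0 < α := by linarith
  have he1 : 1 < e := by
    by_contra hcon
    push Not at hcon
    nlinarith [mul_pos he he, mul_nonneg he.le (sub_nonneg.2 hcon)]
  have h1 : 0 < (B + 1) * e + (A - β - 1) := by
    have : 0 < e * ((B + 1) * e + (A - β - 1)) := by
      have h2 : e * ((B + 1) * e + (A - β - 1)) = α := by linarith
      rw [h2]
      exact hα
    exact (pos_iff_pos_of_mul_pos this).1 he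
  apply stable_quad hα.le hA (by linarith) hB hE he1.le
  have h3 : 0 < B * e := by positivity
  rw [abs_lt]
  constructor <;> linarith

end Pool.Agent.MP_7f1385_an
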