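import Pool.Agent.Lib.MP_7f1385_an.Final
import Pool.Agent.Lib.MP_7f1385_an.Nonmono
import Pool.Agent.Lib.MP_7f1385_an.StableQuad

/-!
# Parts (b) and (c) for all parameters
-/

set_option autoImplicit false

namespace Pool.Agent.MP_7f1385_an

open Filter Topology

variable {α β A B : ℝ}

/-- Part (b) for all parameters. -/
theorem part_b_full (hα : 0 ≤ α) (hA : 0 ≤ A) (hαA : 0 < α + A) (hβ : 0 < β) (hB : 0 < B)
    (hK : 1 ≤ β + A ∨ (1 - β - A) * (B * (1 - β - A) - 1 - 3 * β + A) ≤ 4 * α) {e : ℝ}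
    (he : IsGreatest {t : ℝ | 0 ≤ t ∧ (B + 1) * t ^ 2 + (A - β - 1) * t - α = 0} e) :
    LocStable (T α β A B) (e, e) ∧
      ∀ x : ℕ → ℝ, IsSolution α β A B x → (∀ n, 0 < x n) → Tendsto x atTop (𝓝 e) := by
  by_cases h : β ≤ B ∨ α ≤ A
  · exact part_b hα hA hαA hβ hB h hK he
  · push Not at h
    obtain ⟨hβB, hAα⟩ := h
    obtain ⟨⟨he0, hE⟩, -⟩ := he
    have he0' : 0 < e := by
      rcases he0.lt_or_eq with h1 | h1
      · exact h1
      · subst h1
        have : (B + 1) * (0 : ℝ) ^ 2 + (A - β - 1) * 0 - α = 0 := hE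
        linarith
    exact ⟨stable_nonmono' hA hAα hβB hB he0' hE, fun x hx hpos =>
      PosSol.conv_nonmono ⟨hpos, fun n => (hx.2.2 n).2⟩ hA hB he0' hE hβB hAα⟩

/-- Part (c) for all parameters. -/
theorem part_c_full {x : ℕ → ℝ} (hα : 0 ≤ α) (hA : 0 ≤ A) (hαA : 0 < α + A) (hβ : 0 < β)
    (hB : 0 < B) (hx : IsSolution α β A B x) :
    ∃ y : ℕ → ℝ, IsSolution α β A B y ∧ (∀ n, y (n + 2) = y n) ∧
      Tendsto (fun n => x n - y n) atTop (𝓝 0) := by
  by_cases h : β ≤ B ∨ α ≤ A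
  · exact part_c hα hA hαA hβ hB h hx
  · push Not at h
    obtain ⟨hβB, hAα⟩ := h
    have hα0 : 0 < α := by linarith
    rcases hx.cases hα hA hβ hB with ⟨h0, -⟩ | hpos
    · linarith
    · have hsol := hx.posSol 2 hpos
      obtain ⟨e, he, hE⟩ := exists_equilibrium (A := A) (β := β) hα hB (Or.inl hα0)
      have h1 := hsol.conv_nonmono hA hB he hE hβB hAα
      have h2 : Tendsto x atTop (𝓝 e) := (tendsto_add_atTop_iff_nat 2).1 h1
      have hD : 0 < e + B * e + A := D_pos hA hB he he.le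
      refine ⟨fun _ => e, ⟨he.le, he.le, fun n => ⟨hD.ne', ?_⟩⟩, fun n => rfl, ?_⟩
      · rw [eq_div_iff hD.ne']
        linarith
      · have h3 := h2.sub_const e
        rwa [sub_self] at h3

end Pool.Agent.MP_7f1385_an
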