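import Mathlib

/-!
# A Lyapunov function for `y (n+2) = (a + b y (n+1)) / (c + y n + B y (n+1))`

With `l = a B / b - c < b / B`, `k = a / b - l` and `z` the positive root of `z ^ 2 + c z = a`,
the function `W x y = log (x + y + k) - log (x + k) - log (y + k) + h x + h y`, where
`h x = H x + H (a / (c + x))` and `H' t = (t ^ 2 + c t - a) / ((t + k) (t - l) (b + (1 - B) t))`
for `z ≤ t ≤ b / B`, `H = 0` on `(-∞, z]`, decreases strictly along the orbits in
`{x, y > max (l, 0)}` outside the set of period-two points.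
-/

set_option autoImplicit false

namespace Pool.Agent.MP_7f1385_an

open Filter Topology Set

/-- The parameters: `l = a B / b - c < b / B`, and `z` is the positive root of
`z ^ 2 + c z = a`. -/
structure Par (a b c B l z : ℝ) : Prop where
  ha : 0 < a
  hb : 0 < b
  hc : 0 < c
  hB : 0 < B
  hl : b * (l + c) = a * B
  hM : B * l < b
  hz0 : 0 < z
  hz : z ^ 2 + c * z = a

variable {a b c B l z : ℝ}

lemma Par.Bz (P : Par a b c B l z) : B * z < b := by
  obtain ⟨ha, hb, hc, hB, hl, hM, hz0, hz⟩ := P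
  by_contra h
  push Not at h
  have h1 : b * (z + c) ≤ b * (l + c) := by
    rw [hl, ← hz]
    nlinarith [mul_le_mul_of_nonneg_right h (by positivity : 0 ≤ z + c)]
  have h2 : z ≤ l := by
    have := le_of_mul_le_mul_left h1 hb
    linarith
  nlinarith

lemma Par.Bzz (P : Par a b c B l z) : b * l < B * z ^ 2 := by
  have h := P.Bz
  obtain ⟨ha, hb, hc, hB, hl, hM, hz0, hz⟩ := P
  have h1 : B * z ^ 2 = b * l + c * (b - B * z) := by
    have : z ^ 2 = a - c * z := by linarith
    rw [this]
    linarith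
  rw [h1]
  nlinarith

lemma Par.lz (P : Par a b c B l z) : l < z := by
  have h1 := P.Bz
  have h2 := P.Bzz
  obtain ⟨ha, hb, hc, hB, hl, hM, hz0, hz⟩ := P
  by_contra h
  push Not at h
  have h3 : B * z ^ 2 ≤ B * z * l := by nlinarith [mul_nonneg (mul_pos hB hz0).le (sub_nonneg.2 h)]
  have h4 : B * z * l < b * l := by nlinarith
  linarith

lemma mid_pos {t : ℝ} (ht0 : 0 < t) (ht : B * t < b) : 0 < b + (1 - B) * t := by nlinarith

/-- The derivative of `H` on `[z, b / B]`. -/
noncomputable def nat' (a b c B l t : ℝ) : ℝ :=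
  (t ^ 2 + c * t - a) / ((t + (a / b - l)) * (t - l) * (b + (1 - B) * t))

lemma nat'_eq {t : ℝ} (hb : 0 < b) (hl : b * (l + c) = a * B) (h1 : 0 < t + (a / b - l))
    (h2 : 0 < t - l) (h3 : 0 < b + (1 - B) * t) :
    nat' a b c B l t = 1 / (t + (a / b - l)) - (b - B * t) / ((t - l) * (b + (1 - B) * t)) := by
  unfold nat'
  have hkey : t ^ 2 + c * t - a = (t - l) * (b + (1 - B) * t) -
      (b - B * t) * (t + (a / b - l)) := by
    have h4 : (b - B * t) * (a / b) = a - t * (l + c) := by
      have : a / b * B = l + c := by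
        rw [div_mul_eq_mul_div, ← hl]
        field_simp
      have h5 : b * (a / b) = a := by field_simp
      linear_combination h5 - t * this
    linear_combination h4
  rw [hkey]
  generalize t + (a / b - l) = q at h1 ⊢
  generalize b + (1 - B) * t = m at h3 ⊢
  generalize t - l = r at h2 ⊢
  field_simp

/-- The truncation to `[z, b / B]`. -/
noncomputable def cl (b B z t : ℝ) : ℝ := max z (min t (b / B))

lemma cl_cont (b B z : ℝ) : Continuous (cl b B z) := by
  unfold cl
  fun_prop

lemma Par.cl_mem (P : Par a b c B l z) (t : ℝ) : z ≤ cl b B z t ∧ B * cl b B z t ≤ b := by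
  have h := P.Bz
  refine ⟨le_max_left _ _, ?_⟩
  unfold cl
  rcases max_choice z (min t (b / B)) with h1 | h1
  · rw [h1]
    exact h.le
  · rw [h1]
    have h2 : min t (b / B) ≤ b / B := min_le_right _ _
    rw [le_div_iff₀ P.hB] at h2
    linarith

lemma Par.pos_cl (P : Par a b c B l z) {t : ℝ} (h1 : z ≤ t) (h2 : B * t ≤ b) :
    0 < t + (a / b - l) ∧ 0 < t - l ∧ 0 < b + (1 - B) * t ∧ 0 ≤ t ^ 2 + c * t - a := by
  have h3 := P.lz
  obtain ⟨ha, hb, hc, hB, hl, hM, hz0, hz⟩ := P
  have h4 : 0 < a / b := by positivity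
  refine ⟨by linarith, by linarith, by nlinarith, ?_⟩
  rw [← hz]
  nlinarith

lemma Par.exists_H (P : Par a b c B l z) : ∃ H : ℝ → ℝ, Monotone H ∧
    (∀ t, HasDerivAt H (nat' a b c B l (cl b B z t)) t) ∧ ∀ t, t ≤ z → H t = 0 := by
  have hcont : Continuous fun t => nat' a b c B l (cl b B z t) := by
    unfold nat'
    have h := cl_cont b B z
    refine Continuous.div (by fun_prop) (by fun_prop) fun t => ?_
    obtain ⟨h1, h2⟩ := P.cl_mem t
    obtain ⟨h3, h4, h5, -⟩ := P.pos_cl h1 h2
    positivity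
  have hder : ∀ t, HasDerivAt (fun x => ∫ s in z..x, nat' a b c B l (cl b B z s))
      (nat' a b c B l (cl b B z t)) t := fun t =>
    (hcont.integral_hasStrictDerivAt z t).hasDerivAt
  refine ⟨_, ?_, hder, ?_⟩
  · refine monotone_of_deriv_nonneg (fun t => (hder t).differentiableAt) fun t => ?_
    rw [(hder t).deriv]
    obtain ⟨h1, h2⟩ := P.cl_mem t
    obtain ⟨h3, h4, h5, h6⟩ := P.pos_cl h1 h2
    unfold nat'
    positivity
  · intro t ht
    have : ∫ s in z..t, nat' a b c B l (cl b B z s) = ∫ s in z..t, (0 : ℝ) := by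
      apply intervalIntegral.integral_congr
      intro s hs
      rw [uIcc_of_ge ht] at hs
      have h1 : cl b B z s = z := by
        unfold cl
        exact max_eq_left ((min_le_left _ _).trans hs.2)
      simp only [h1]
      unfold nat'
      rw [show z ^ 2 + c * z - a = 0 by linarith [P.hz], zero_div]
    rw [this]
    simp

lemma cl_eq (hB : 0 < B) {t : ℝ} (h1 : z ≤ t) (h2 : B * t ≤ b) : cl b B z t = t := by
  unfold cl
  have h3 : t ≤ b / B := by
    rw [le_div_iff₀ hB]
    linarith
  rw [min_eq_left h3, max_eq_right h1]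

lemma lt_of_deriv_neg {f f' : ℝ → ℝ} {s t : ℝ} (h : s < t)
    (hd : ∀ x ∈ Icc s t, HasDerivAt f (f' x) x) (hn : ∀ x ∈ Ioo s t, f' x < 0) : f t < f s := by
  obtain ⟨x, hx, h1⟩ := exists_hasDerivAt_eq_slope f f' h
    (fun x hx => (hd x hx).continuousAt.continuousWithinAt)
    fun x hx => hd x (Ioo_subset_Icc_self hx)
  have h2 := hn x hx
  rw [h1, div_neg_iff] at h2
  rcases h2 with h2 | h2
  · linarith [h2.2]
  · linarith [h2.1]

end Pool.Agent.MP_7f1385_an
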