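import Pool.Agent.Lib.MP_7f1385_an.LyapW

/-!
# Convergence from the Lyapunov function
-/

set_option autoImplicit false

namespace Pool.Agent.MP_7f1385_an

open Filter Topology Set Real

variable {a b c B l z : ℝ}

lemma Par.w_lt (P : Par a b c B l z) {x y w : ℝ} (hx : l < x) (hx0 : 0 < x) (hy0 : 0 < y)
    (h : w * (c + x + B * y) = a + b * y) : B * w < b ∧ a < w * (c + x) := by
  obtain ⟨ha, hb, hc, hB, hl, hM, hz0, hz⟩ := P
  have hD : 0 < c + x + B * y := by positivity
  have h2 : 0 < b - B * w := by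
    have : 0 < (b - B * w) * (c + x + B * y) := by
      have h3 : (b - B * w) * (c + x + B * y) = b * (x - l) := by
        linear_combination (-B) * h + hl
      rw [h3]
      exact mul_pos hb (by linarith)
    exact (pos_iff_pos_of_mul_pos this).2 hD
  refine ⟨by linarith, ?_⟩
  nlinarith

lemma WW_anti {H : ℝ → ℝ} (hH : IsH a b c B l z H) {x y w : ℝ} (P : Par a b c B l z)
    (hx : l < x) (hx0 : 0 < x) (hBx : B * x < b) (hy : l < y) (hy0 : 0 < y) (hw : l < w)
    (h : w * (c + x + B * y) = a + b * y) :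
    WW a b c l H y w ≤ WW a b c l H x y ∧ (WW a b c l H y w = WW a b c l H x y → w = x) := by
  have h1 := WW_sub (H := H) P hx hx0 hy hy0 hw h
  obtain ⟨h2, h3⟩ := P.w_lt hx hx0 hy0 h
  have ha := P.ha
  have hb := P.hb
  have hc := P.hc
  have hw0 : 0 < w := by
    by_contra hcon
    push Not at hcon
    have : w * (c + x) ≤ 0 := mul_nonpos_of_nonpos_of_nonneg hcon (by linarith)
    linarith
  by_cases hne : w = x
  · subst hne
    rw [Phi_diag (by linarith) (mid_pos hw0 h2)] at h1
    exact ⟨by linarith, fun _ => rfl⟩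
  · have h4 := Phi_neg hH P hx hx0 hBx hw hw0 h2 h3 hne
    exact ⟨by linarith, fun h5 => by linarith⟩

lemma WW_tendsto {H : ℝ → ℝ} (hH : IsH a b c B l z H) (P : Par a b c B l z) {ι : Type*}
    {f : Filter ι} {u v : ι → ℝ} {p q : ℝ} (hp : l < p) (hp0 : 0 < p) (hq : l < q) (hq0 : 0 < q)
    (hu : Tendsto u f (𝓝 p)) (hv : Tendsto v f (𝓝 q)) :
    Tendsto (fun i => WW a b c l H (u i) (v i)) f (𝓝 (WW a b c l H p q)) := by
  have hab : 0 < a / b := div_pos P.ha P.hb
  have hc := P.hc
  have hh1 : ∀ {w : ι → ℝ} {r : ℝ}, 0 < r → Tendsto w f (𝓝 r) →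
      Tendsto (fun i => hh a c H (w i)) f (𝓝 (hh a c H r)) := by
    intro w r hr hw
    unfold hh
    exact ((hH.cont.tendsto r).comp hw).add ((hH.cont.tendsto _).comp
      (tendsto_const_nhds.div (tendsto_const_nhds.add hw) (by linarith)))
  unfold WW
  refine Tendsto.add (Tendsto.add (Tendsto.sub (Tendsto.sub ?_ ?_) ?_) (hh1 hp0 hu)) (hh1 hq0 hv)
  · exact ((hu.add hv).add_const _).log (by linarith)
  · exact (hu.add_const _).log (by linarith)
  · exact (hv.add_const _).log (by linarith)

/-- Convergence of the orbits that stay in a compact part of the domain. -/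
lemma lyap_conv (P : Par a b c B l z) {y : ℕ → ℝ} {m M : ℝ} (hm : 0 < m) (hlm : l < m)
    (hM : B * M < b) (hb : ∀ n, m ≤ y n ∧ y n ≤ M)
    (hrec : ∀ n, y (n + 2) * (c + y n + B * y (n + 1)) = a + b * y (n + 1)) {e : ℝ} (he : 0 < e)
    (hE : (1 + B) * e ^ 2 + (c - b) * e = a) : Tendsto y atTop (𝓝 e) := by
  obtain ⟨H, hH⟩ := P.exists_isH
  have hB := P.hB
  have hc := P.hc
  have ha := P.ha
  have hbb := P.hb
  have hanti : Antitone fun n => WW a b c l H (y n) (y (n + 1)) := by
    apply antitone_nat_of_succ_le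
    intro n
    have h1 := hb n
    have h2 := hb (n + 1)
    have h3 := hb (n + 2)
    have h4 : B * y n ≤ B * M := mul_le_mul_of_nonneg_left h1.2 hB.le
    exact (WW_anti hH P (by linarith) (by linarith) (by linarith) (by linarith) (by linarith)
      (by linarith) (hrec n)).1
  by_contra hcon
  rw [Metric.tendsto_atTop] at hcon
  push Not at hcon
  obtain ⟨ε, hε, hfr⟩ := hcon
  have hfreq : ∃ᶠ n in atTop, ε ≤ dist (y n) e := by
    rw [frequently_atTop]
    exact hfr
  have : NeBot (atTop ⊓ 𝓟 {n | ε ≤ dist (y n) e}) := frequently_mem_iff_neBot.1 hfreq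
  set U := Ultrafilter.of (atTop ⊓ 𝓟 {n | ε ≤ dist (y n) e}) with hU
  have hUle : (U : Filter ℕ) ≤ atTop ⊓ 𝓟 {n | ε ≤ dist (y n) e} := Ultrafilter.of_le _
  have hUat : (U : Filter ℕ) ≤ atTop := hUle.trans inf_le_left
  have hUS : ∀ᶠ n in (U : Filter ℕ), ε ≤ dist (y n) e := by
    have := hUle.trans inf_le_right
    exact le_principal_iff.1 this
  have h3 : ∀ j, ∃ p, m ≤ p ∧ p ≤ M ∧ Tendsto (fun n => y (n + j)) U (𝓝 p) := by
    intro j
    obtain ⟨p, hp, hp2⟩ := (isCompact_Icc (a := m) (b := M)).ultrafilter_le_nhds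
      (U.map (fun n => y (n + j))) (by
        rw [le_principal_iff, Ultrafilter.coe_map, mem_map]
        exact Filter.univ_mem' fun n => hb (n + j))
    exact ⟨p, hp.1, hp.2, hp2⟩
  choose p hp1 hp2 hp using h3
  have hreclim : ∀ j, p (j + 2) * (c + p j + B * p (j + 1)) = a + b * p (j + 1) := by
    intro j
    have h4 := (hp (j + 2)).mul (((hp j).const_add c).add ((hp (j + 1)).const_mul B))
    have h5 := ((hp (j + 1)).const_mul b).const_add a
    refine tendsto_nhds_unique h4 (h5.congr fun n => ?_)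
    have := hrec (n + j)
    rw [show n + j + 2 = n + (j + 2) by ring, show n + j + 1 = n + (j + 1) by ring] at this
    exact this.symm
  have hWlim : ∀ j, Tendsto (fun n => WW a b c l H (y (n + j)) (y (n + j + 1))) U
      (𝓝 (WW a b c l H (p j) (p (j + 1)))) := by
    intro j
    have h1 := hp1 j
    have h2 := hp1 (j + 1)
    exact WW_tendsto hH P (by linarith) (by linarith) (by linarith) (by linarith) (hp j)
      (hp (j + 1))
  have hconst : ∀ j, WW a b c l H (p j) (p (j + 1)) = WW a b c l H (p 0) (p 1) := by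
    rcases tendsto_atTop_of_antitone hanti with h | ⟨L, hL⟩
    · exact absurd (hWlim 0) (not_tendsto_nhds_of_tendsto_atBot
        (h.comp ((tendsto_add_atTop_nat 0).mono_left hUat)) _)
    · have h4 : ∀ j, WW a b c l H (p j) (p (j + 1)) = L := by
        intro j
        refine tendsto_nhds_unique (hWlim j) ?_
        exact hL.comp ((tendsto_add_atTop_nat j).mono_left hUat)
      intro j
      rw [h4 j, h4 0]
  have hper : ∀ j, p (j + 2) = p j := by
    intro j
    have h1 := hp1 j
    have h2 := hp1 (j + 1)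
    have h3 := hp1 (j + 2)
    have h4 : B * p j ≤ B * M := mul_le_mul_of_nonneg_left (hp2 j) hB.le
    refine (WW_anti hH P (by linarith) (by linarith) (by linarith) (by linarith) (by linarith)
      (by linarith) (hreclim j)).2 ?_
    rw [hconst (j + 1), hconst j]
  have e1 := hreclim 0
  have e2 := hreclim 1
  rw [hper] at e1 e2
  rw [show (1 : ℕ) + 1 = 0 + 2 by ring, hper] at e2
  simp only [zero_add] at e1 e2
  have hp00 : 0 < p 0 := hm.trans_le (hp1 0)
  have hp10 : 0 < p 1 := hm.trans_le (hp1 1)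
  have e3 : p 0 = p 1 := by
    have h4 : (p 0 - p 1) * (c + b + p 0 + p 1) = 0 := by linear_combination e1 - e2
    rcases mul_eq_zero.1 h4 with h5 | h5
    · linarith
    · exfalso
      linarith
  rw [← e3] at e1
  have e4 : p 0 = e := by
    have h4 : (p 0 - e) * ((1 + B) * (p 0 * e) + a) = 0 := by
      linear_combination e * e1 - p 0 * hE
    rcases mul_eq_zero.1 h4 with h5 | h5
    · linarith
    · exfalso
      have : 0 < (1 + B) * (p 0 * e) + a := by positivity
      linarith
  have h6 : Tendsto (fun n => dist (y (n + 0)) e) U (𝓝 (dist (p 0) e)) :=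
    (hp 0).dist tendsto_const_nhds
  rw [e4, dist_self] at h6
  have h7 := ge_of_tendsto h6 (hUS.mono fun n hn => by simpa using hn)
  linarith

end Pool.Agent.MP_7f1385_an
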