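import Pool.Agent.Lib.MP_7f1385_an.Lyap

/-!
# Monotonicity along the two paths
-/

set_option autoImplicit false

namespace Pool.Agent.MP_7f1385_an

open Filter Topology Set Real

variable {a b c B l z : ℝ}

/-- The properties of the auxiliary function `H`. -/
structure IsH (a b c B l z : ℝ) (H : ℝ → ℝ) : Prop where
  mono : Monotone H
  der : ∀ t, z ≤ t → B * t ≤ b → HasDerivAt H (nat' a b c B l t) t
  zero : ∀ t, t ≤ z → H t = 0
  cont : Continuous H

lemma Par.exists_isH (P : Par a b c B l z) : ∃ H : ℝ → ℝ, IsH a b c B l z H := by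
  obtain ⟨H, h1, h2, h3⟩ := P.exists_H
  refine ⟨H, h1, fun t ht1 ht2 => ?_, h3,
    continuous_iff_continuousAt.2 fun t => (h2 t).continuousAt⟩
  have := h2 t
  rwa [cl_eq P.hB ht1 ht2] at this

lemma frac1 {N m v D1 D2 q r : ℝ} (h1 : 0 < D1) (h2 : 0 < D2) (h3 : 0 < q) (h4 : 0 < r) :
    N / D1 - m / D2 - 1 / q + (1 / q - v / (r * D2)) =
      (N * (r * D2) - m * D1 * r - v * D1) / (D1 * r * D2) := by
  field_simp
  ring

lemma frac2 {N v D1 D2 q r : ℝ} (h1 : 0 < D1) (h2 : 0 < D2) (h3 : 0 < q) (h4 : 0 < r) :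
    N / D1 - 1 / r + 1 / q - (1 / q - v / (r * D2)) =
      (N * (r * D2) - D1 * D2 + v * D1) / (D1 * r * D2) := by
  field_simp
  ring

/-- The path in the new term. -/
lemma path1 (P : Par a b c B l z) {H : ℝ → ℝ} (hH : IsH a b c B l z H) {x s w : ℝ}
    (hx : l < x) (hsz : z ≤ s) (hsx : x ≤ s) (hsw : s < w) (hw : B * w < b) :
    log (w * (x - l) + (b - B * w) * (w - l)) - log (b + (1 - B) * w) -
        log (w + (a / b - l)) + H w <
      log (s * (x - l) + (b - B * s) * (s - l)) - log (b + (1 - B) * s) -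
        log (s + (a / b - l)) + H s := by
  have hlz := P.lz
  have hBzz := P.Bzz
  have hz0 := P.hz0
  have hB := P.hB
  have hb := P.hb
  have hab : 0 < a / b := div_pos P.ha P.hb
  have hpos : ∀ t ∈ Icc s w, 0 < t * (x - l) + (b - B * t) * (t - l) ∧
      0 < b + (1 - B) * t ∧ 0 < t + (a / b - l) ∧ 0 < t - l ∧ 0 < t ∧ B * t < b := by
    intro t ht
    have h1 : B * t ≤ B * w := mul_le_mul_of_nonneg_left ht.2 hB.le
    have h2 : 0 < t := by linarith [ht.1]
    have h3 : 0 < t - l := by linarith [ht.1]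
    have h4 : 0 < b - B * t := by linarith
    have h5 : 0 < x - l := by linarith
    exact ⟨by positivity, mid_pos h2 (by linarith), by linarith, h3, h2, by linarith⟩
  refine lt_of_deriv_neg (f := fun t => log (t * (x - l) + (b - B * t) * (t - l)) -
      log (b + (1 - B) * t) - log (t + (a / b - l)) + H t)
    (f' := fun t => -((t - x) * (B * t ^ 2 - b * l)) /
      ((t * (x - l) + (b - B * t) * (t - l)) * (t - l) * (b + (1 - B) * t))) hsw ?_ ?_
  · intro t ht
    obtain ⟨h1, h2, h3, h4, h5, h6⟩ := hpos t ht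
    have d1 : HasDerivAt (fun t => t * (x - l) + (b - B * t) * (t - l))
        (1 * (x - l) + ((-(B * 1)) * (t - l) + (b - B * t) * 1)) t :=
      ((hasDerivAt_id t).mul_const (x - l)).add
        ((((hasDerivAt_id t).const_mul B).const_sub b).mul ((hasDerivAt_id t).sub_const l))
    have d2 : HasDerivAt (fun t => b + (1 - B) * t) ((1 - B) * 1) t :=
      ((hasDerivAt_id t).const_mul (1 - B)).const_add b
    have d3 : HasDerivAt (fun t => t + (a / b - l)) 1 t := (hasDerivAt_id t).add_const _
    have d4 := hH.der t (hsz.trans ht.1) h6.le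
    have d5 := (((d1.log h1.ne').sub (d2.log h2.ne')).sub (d3.log h3.ne')).add d4
    refine d5.congr_deriv ?_
    rw [nat'_eq hb P.hl h3 h4 h2, frac1 h1 h2 h3 h4]
    congr 1
    ring
  · intro t ht
    obtain ⟨h1, h2, h3, h4, h5, h6⟩ := hpos t (Ioo_subset_Icc_self ht)
    apply div_neg_of_neg_of_pos _ (by positivity)
    have h7 : 0 < t - x := by linarith [ht.1]
    have h8 : z ^ 2 ≤ t ^ 2 := by
      have : z ≤ t := by linarith [ht.1]
      nlinarith
    have h9 : 0 < B * t ^ 2 - b * l := by
      have := mul_le_mul_of_nonneg_left h8 hB.le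
      linarith
    have := mul_pos h7 h9
    linarith

/-- The path in the old term. -/
lemma path2 (P : Par a b c B l z) {H : ℝ → ℝ} (hH : IsH a b c B l z H) {x s w : ℝ}
    (hw : l < w) (hw0 : 0 < w) (hsz : z ≤ s) (hsw : w ≤ s) (has : a ≤ w * (c + s)) (hsx : s < x)
    (hx : B * x < b) :
    log (w * (x - l) + (b - B * w) * (w - l)) - log (x - l) +
        log (x + (a / b - l)) - H x <
      log (w * (s - l) + (b - B * w) * (w - l)) - log (s - l) +
        log (s + (a / b - l)) - H s := by
  have hlz := P.lz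
  have hz0 := P.hz0
  have hB := P.hB
  have hb := P.hb
  have hc := P.hc
  have hl := P.hl
  have hab : 0 < a / b := div_pos P.ha P.hb
  have hBw : B * w < b := by nlinarith
  have hpos : ∀ t ∈ Icc s x, 0 < w * (t - l) + (b - B * w) * (w - l) ∧
      0 < b + (1 - B) * t ∧ 0 < t + (a / b - l) ∧ 0 < t - l ∧ 0 < t ∧ B * t < b := by
    intro t ht
    have h1 : B * t ≤ B * x := mul_le_mul_of_nonneg_left ht.2 hB.le
    have h2 : 0 < t := by linarith [ht.1]
    have h3 : 0 < t - l := by linarith [ht.1]
    have h4 : 0 < b - B * w := by linarith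
    have h5 : 0 < w - l := by linarith
    exact ⟨by positivity, mid_pos h2 (by linarith), by linarith, h3, h2, by linarith⟩
  refine lt_of_deriv_neg (f := fun t => log (w * (t - l) + (b - B * w) * (w - l)) -
      log (t - l) + log (t + (a / b - l)) - H t)
    (f' := fun t => -((t - w) * (B * t * w - b * l)) /
      ((w * (t - l) + (b - B * w) * (w - l)) * (t - l) * (b + (1 - B) * t))) hsx ?_ ?_
  · intro t ht
    obtain ⟨h1, h2, h3, h4, h5, h6⟩ := hpos t ht
    have d1 : HasDerivAt (fun t => w * (t - l) + (b - B * w) * (w - l))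
        (w * 1) t := (((hasDerivAt_id t).sub_const l).const_mul w).add_const _
    have d2 : HasDerivAt (fun t => t - l) 1 t := (hasDerivAt_id t).sub_const l
    have d3 : HasDerivAt (fun t => t + (a / b - l)) 1 t := (hasDerivAt_id t).add_const _
    have d4 := hH.der t (hsz.trans ht.1) h6.le
    have d5 := (((d1.log h1.ne').sub (d2.log h4.ne')).add (d3.log h3.ne')).sub d4
    refine d5.congr_deriv ?_
    rw [nat'_eq hb P.hl h3 h4 h2, frac2 h1 h2 h3 h4]
    congr 1
    ring
  · intro t ht
    obtain ⟨h1, h2, h3, h4, h5, h6⟩ := hpos t (Ioo_subset_Icc_self ht)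
    apply div_neg_of_neg_of_pos _ (by positivity)
    have h7 : 0 < t - w := by linarith [ht.1]
    have h8 : a ≤ w * (c + t) := by
      have : w * (c + s) ≤ w * (c + t) := mul_le_mul_of_nonneg_left (by linarith [ht.1]) hw0.le
      linarith
    have h9 : 0 < B * t * w - b * l := by
      have h10 := mul_le_mul_of_nonneg_left h8 hB.le
      have h11 : 0 < c * (b - B * w) := mul_pos hc (by linarith)
      nlinarith
    have := mul_pos h7 h9
    linarith

end Pool.Agent.MP_7f1385_an
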