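import Pool.Agent.Lib.MP_7f1385_an.LyapPath

/-!
# The Lyapunov function
-/

set_option autoImplicit false

namespace Pool.Agent.MP_7f1385_an

open Filter Topology Set Real

variable {a b c B l z : ℝ}

/-- `h x = H x + H (a / (c + x))`. -/
noncomputable def hh (a c : ℝ) (H : ℝ → ℝ) (x : ℝ) : ℝ := H x + H (a / (c + x))

/-- The Lyapunov function. -/
noncomputable def WW (a b c l : ℝ) (H : ℝ → ℝ) (x y : ℝ) : ℝ :=
  log (x + y + (a / b - l)) - log (x + (a / b - l)) - log (y + (a / b - l)) +
    hh a c H x + hh a c H y

/-- The difference of the Lyapunov function along an orbit in terms of the old term `x` and the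
new term `w`. -/
noncomputable def Phi (a b c B l : ℝ) (H : ℝ → ℝ) (x w : ℝ) : ℝ :=
  log (w * (x - l) + (b - B * w) * (w - l)) - log (x - l) - log (b + (1 - B) * w) +
    log (x + (a / b - l)) - log (w + (a / b - l)) + hh a c H w - hh a c H x

lemma Phi_diag {H : ℝ → ℝ} {x : ℝ} (h1 : 0 < x - l) (h2 : 0 < b + (1 - B) * x) :
    Phi a b c B l H x x = 0 := by
  unfold Phi
  rw [show x * (x - l) + (b - B * x) * (x - l) = (x - l) * (b + (1 - B) * x) by ring,
    log_mul h1.ne' h2.ne']
  ring

lemma Phi_bdry {H : ℝ → ℝ} {x w : ℝ} (P : Par a b c B l z) (hx : l < x) (hw : l < w)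
    (hw0 : 0 < w) (hBw : B * w < b) (h : w * (c + x) = a) :
    Phi a b c B l H x w = hh a c H w - hh a c H x := by
  obtain ⟨ha, hb, hc, hB, hl, hM, hz0, hz⟩ := P
  have hab : 0 < a / b := by positivity
  have h1 : 0 < x - l := by linarith
  have h2 : 0 < b - B * w := by linarith
  have h3 : 0 < x + (a / b - l) := by linarith
  have h4 : 0 < w + (a / b - l) := by linarith
  have h5 := mid_pos hw0 hBw
  have hkey : (b - B * w) * (a / b) = w * (x - l) := by
    have h6 : a / b * B = l + c := by
      rw [div_mul_eq_mul_div, ← hl]
      field_simp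
    have h7 : b * (a / b) = a := by field_simp
    linear_combination h7 - w * h6 - h
  have e1 : w * (x - l) + (b - B * w) * (w - l) = (b - B * w) * (w + (a / b - l)) := by
    linear_combination -hkey
  have e2 : (x - l) * (b + (1 - B) * w) = (b - B * w) * (x + (a / b - l)) := by
    linear_combination -hkey
  have e3 := congrArg log e2
  rw [log_mul h1.ne' h5.ne', log_mul h2.ne' h3.ne'] at e3
  unfold Phi
  rw [e1, log_mul h2.ne' h4.ne']
  linarith

lemma Phi_neg {H : ℝ → ℝ} (hH : IsH a b c B l z H) {x w : ℝ} (P : Par a b c B l z)
    (hx : l < x) (hx0 : 0 < x) (hBx : B * x < b) (hw : l < w) (hw0 : 0 < w) (hBw : B * w < b)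
    (h : a < w * (c + x)) (hne : w ≠ x) : Phi a b c B l H x w < 0 := by
  have ha := P.ha
  have hc := P.hc
  have hz0 := P.hz0
  have hlz := P.lz
  have hB := P.hB
  have hza : z * (c + z) = a := by linarith [P.hz]
  have hcx : 0 < c + x := by linarith
  have hcw : 0 < c + w := by linarith
  rcases lt_or_gt_of_ne hne with hlt | hlt
  · -- `w < x`: the path in the old term
    rcases le_or_gt z w with hzw | hzw
    · have h1 := path2 P hH hw hw0 hzw le_rfl (by nlinarith) hlt hBx
      have h2 := Phi_diag (a := a) (c := c) (H := H) (by linarith : 0 < w - l)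
        (mid_pos (b := b) (B := B) hw0 hBw)
      have h3 : H (a / (c + x)) = 0 := hH.zero _ (by
        rw [div_le_iff₀ hcx]
        nlinarith)
      have h4 : H (a / (c + w)) = 0 := hH.zero _ (by
        rw [div_le_iff₀ hcw]
        nlinarith)
      unfold Phi hh at h2 ⊢
      rw [h3, h4]
      rw [h4] at h2
      linarith
    · set s := a / w - c with hs
      have hws : w * (c + s) = a := by
        rw [hs]
        field_simp
        ring
      have hzs : z < s := by
        by_contra hcon
        push Not at hcon
        have : w * (c + s) < z * (c + z) := by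
          have h5 : w * (c + s) ≤ w * (c + z) :=
            mul_le_mul_of_nonneg_left (by linarith) hw0.le
          have h6 : w * (c + z) < z * (c + z) := mul_lt_mul_of_pos_right hzw (by linarith)
          linarith
        linarith
      have hsx : s < x := by
        by_contra hcon
        push Not at hcon
        have : w * (c + x) ≤ w * (c + s) := mul_le_mul_of_nonneg_left (by linarith) hw0.le
        linarith
      have hBs : B * s < b := by nlinarith
      have h1 := path2 P hH hw hw0 hzs.le (by linarith) (by linarith) hsx hBx
      have h2 := Phi_bdry (H := H) P (by linarith : l < s) hw hw0 hBw hws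
      have h3 : H (a / (c + x)) = 0 := hH.zero _ (by
        rw [div_le_iff₀ hcx]
        nlinarith)
      have h4 : H w = 0 := hH.zero _ hzw.le
      have h5 : a / (c + s) = w := by
        rw [div_eq_iff (by linarith)]
        linarith
      have h6 : H (a / (c + w)) ≤ H s := hH.mono (by
        rw [div_le_iff₀ hcw]
        have h7 : 0 ≤ c * (a - c * w - w ^ 2) := by
          apply mul_nonneg hc.le
          nlinarith
        have h8 : 0 ≤ (s * (c + w) - a) * w := by
          have : (s * (c + w) - a) * w = c * (a - c * w - w ^ 2) := by
            linear_combination (c + w) * hws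
          rw [this]
          exact h7
        have := nonneg_of_mul_nonneg_left h8 hw0
        linarith)
      unfold Phi hh at h2 ⊢
      rw [h3, h4]
      rw [h4, h5, h4] at h2
      linarith
  · -- `x < w`: the path in the new term
    rcases le_or_gt z x with hzx | hzx
    · have h1 := path1 P hH hx hzx le_rfl hlt hBw
      have h2 := Phi_diag (a := a) (c := c) (H := H) (by linarith : 0 < x - l)
        (mid_pos (b := b) (B := B) hx0 hBx)
      have h3 : H (a / (c + x)) = 0 := hH.zero _ (by
        rw [div_le_iff₀ hcx]
        nlinarith)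
      have h4 : H (a / (c + w)) = 0 := hH.zero _ (by
        rw [div_le_iff₀ hcw]
        nlinarith)
      unfold Phi hh at h2 ⊢
      rw [h3, h4]
      rw [h3] at h2
      linarith
    · set s := a / (c + x) with hs
      have hsx : s * (c + x) = a := by
        rw [hs]
        field_simp
      have hzs : z < s := by
        rw [hs, lt_div_iff₀ hcx]
        nlinarith
      have hsw : s < w := by
        rw [hs, div_lt_iff₀ hcx]
        exact h
      have hBs : B * s < b := by nlinarith
      have h1 := path1 P hH hx hzs.le (by linarith) hsw hBw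
      have h2 := Phi_bdry (H := H) P hx (by linarith : l < s) (by linarith) hBs hsx
      have h3 : H x = 0 := hH.zero _ hzx.le
      have h4 : H (a / (c + w)) = 0 := hH.zero _ (by
        rw [div_le_iff₀ hcw]
        nlinarith)
      have h5 : H (a / (c + s)) = 0 := hH.zero _ (by
        rw [div_le_iff₀ (by linarith)]
        nlinarith)
      unfold Phi hh at h2 ⊢
      rw [h3, h4, ← hs]
      rw [h3, h5, ← hs] at h2
      linarith

/-- The difference of `WW` along an orbit. -/
lemma WW_sub {H : ℝ → ℝ} {x y w : ℝ} (P : Par a b c B l z)
    (hx : l < x) (hx0 : 0 < x) (hy : l < y) (hy0 : 0 < y) (hw : l < w)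
    (h : w * (c + x + B * y) = a + b * y) :
    WW a b c l H y w - WW a b c l H x y = Phi a b c B l H x w := by
  obtain ⟨ha, hb, hc, hB, hl, hM, hz0, hz⟩ := P
  have hab : 0 < a / b := by positivity
  have h1 : 0 < x - l := by linarith
  have hD : 0 < c + x + B * y := by positivity
  have hw0 : 0 < w := by
    have : 0 < w * (c + x + B * y) := by rw [h]; positivity
    exact (pos_iff_pos_of_mul_pos this).2 hD
  have h2 : 0 < b - B * w := by
    have : 0 < (b - B * w) * (c + x + B * y) := by
      have h3 : (b - B * w) * (c + x + B * y) = b * (x - l) := by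
        linear_combination (-B) * h + hl
      rw [h3]
      positivity
    exact (pos_iff_pos_of_mul_pos this).2 hD
  have hkey : (b - B * w) * (y + a / b) = w * (x - l) := by
    have h6 : a / b * B = l + c := by
      rw [div_mul_eq_mul_div, ← hl]
      field_simp
    have h7 : b * (a / b) = a := by field_simp
    linear_combination h7 - w * h6 - h
  have e1 : w * (x - l) + (b - B * w) * (w - l) = (b - B * w) * (y + w + (a / b - l)) := by
    linear_combination -hkey
  have e2 : (x - l) * (b + (1 - B) * w) = (b - B * w) * (x + y + (a / b - l)) := by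
    linear_combination -hkey
  have h5 : 0 < b + (1 - B) * w := mid_pos hw0 (by linarith)
  have e3 := congrArg log e2
  rw [log_mul h1.ne' h5.ne', log_mul h2.ne' (by linarith)] at e3
  unfold Phi WW
  rw [e1, log_mul h2.ne' (by linarith)]
  linarith

end Pool.Agent.MP_7f1385_an
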