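import Pool.Agent.Lib.MP_7f1385_an.Basic

/-!
# Bounds and limiting orbits for positive solutions
-/

set_option autoImplicit false

namespace Pool.Agent.MP_7f1385_an

open Filter Topology

variable {α β A B : ℝ}

/-- A positive solution. -/
structure PosSol (α β A B : ℝ) (x : ℕ → ℝ) : Prop where
  pos : ∀ n, 0 < x n
  rec' : ∀ n, x (n + 2) = F α β A B (x n) (x (n + 1))

lemma E_mul {x m : ℝ} (hE : (B + 1) * x ^ 2 + (A - β - 1) * x - α = 0) :
    x * ((B + 1) * m ^ 2 + (A - β - 1) * m - α) = (m - x) * ((B + 1) * m * x + α) := by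
  linear_combination m * hE

lemma E_nonpos {x m : ℝ} (hα : 0 ≤ α) (hB : 0 < B) (hm : 0 < m) (hx : 0 < x) (hmx : m ≤ x)
    (hE : (B + 1) * x ^ 2 + (A - β - 1) * x - α = 0) :
    (B + 1) * m ^ 2 + (A - β - 1) * m - α ≤ 0 := by
  have h := E_mul (m := m) hE
  have h1 : 0 ≤ (x - m) * ((B + 1) * m * x + α) :=
    mul_nonneg (by linarith) (by positivity)
  have h2 : 0 ≤ x * -((B + 1) * m ^ 2 + (A - β - 1) * m - α) := by linarith
  have := nonneg_of_mul_nonneg_right h2 hx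
  linarith

lemma le_of_E_nonpos {x m : ℝ} (hα : 0 ≤ α) (hB : 0 < B) (hm : 0 < m) (hx : 0 < x)
    (hE : (B + 1) * x ^ 2 + (A - β - 1) * x - α = 0)
    (h : (B + 1) * m ^ 2 + (A - β - 1) * m - α ≤ 0) : m ≤ x := by
  by_contra hlt
  push Not at hlt
  have h0 := E_mul (m := m) hE
  have h1 : 0 < (m - x) * ((B + 1) * m * x + α) :=
    mul_pos (by linarith) (by positivity)
  have h2 : x * ((B + 1) * m ^ 2 + (A - β - 1) * m - α) ≤ 0 :=
    mul_nonpos_of_nonneg_of_nonpos hx.le h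
  linarith

lemma ge_of_E_nonneg {x m : ℝ} (hα : 0 ≤ α) (hB : 0 < B) (hm : 0 < m) (hx : 0 < x)
    (hE : (B + 1) * x ^ 2 + (A - β - 1) * x - α = 0)
    (h : 0 ≤ (B + 1) * m ^ 2 + (A - β - 1) * m - α) : x ≤ m := by
  by_contra hlt
  push Not at hlt
  have h0 := E_mul (m := m) hE
  have h1 : 0 < (x - m) * ((B + 1) * m * x + α) :=
    mul_pos (by linarith) (by positivity)
  have h2 : 0 ≤ x * ((B + 1) * m ^ 2 + (A - β - 1) * m - α) := mul_nonneg hx.le h
  linarith

lemma eq_of_E_zero {x m : ℝ} (hα : 0 ≤ α) (hB : 0 < B) (hm : 0 < m) (hx : 0 < x)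
    (hE : (B + 1) * x ^ 2 + (A - β - 1) * x - α = 0)
    (h : (B + 1) * m ^ 2 + (A - β - 1) * m - α = 0) : m = x :=
  le_antisymm (le_of_E_nonpos hα hB hm hx hE h.le) (ge_of_E_nonneg hα hB hm hx hE h.ge)

lemma low_step {m u v : ℝ} (hA : 0 ≤ A) (hB : 0 < B) (hm : 0 < m) (hm1 : m ≤ 1)
    (hmB : B * m ≤ β) (hE : (B + 1) * m ^ 2 + (A - β - 1) * m - α ≤ 0) (hu : m ≤ u)
    (hv : m ≤ v) : m ≤ F α β A B u v := by
  rw [le_F_iff (D_pos hA hB (by linarith) (by linarith))]
  nlinarith [mul_nonneg (sub_nonneg.2 hu) (sub_nonneg.2 hm1),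
    mul_nonneg (sub_nonneg.2 hv) (sub_nonneg.2 hmB)]

lemma up_step {m M u v : ℝ} (hA : 0 ≤ A) (hB : 0 < B) (hm : 0 < m) (hM1 : 1 ≤ M)
    (hMB : β ≤ B * M) (hE : m + β * m + α ≤ M * (m + B * m + A)) (hu : m ≤ u)
    (hv : m ≤ v) : F α β A B u v ≤ M := by
  rw [F_le_iff (D_pos hA hB (by linarith) (by linarith))]
  nlinarith [mul_nonneg (sub_nonneg.2 hu) (sub_nonneg.2 hM1),
    mul_nonneg (sub_nonneg.2 hv) (sub_nonneg.2 hMB)]

/-- Positive solutions are bounded and bounded away from zero if there is a positive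
equilibrium. -/
lemma PosSol.bounds {x : ℕ → ℝ} (hx : PosSol α β A B x) (hα : 0 ≤ α) (hA : 0 ≤ A)
    (hβ : 0 < β) (hB : 0 < B) {e : ℝ} (he : 0 < e)
    (hE : (B + 1) * e ^ 2 + (A - β - 1) * e - α = 0) :
    ∃ m M : ℝ, 0 < m ∧ ∀ n, m ≤ x n ∧ x n ≤ M := by
  set m := min (min (x 0) (x 1)) (min (min 1 (β / B)) e) with hm
  have hm0 : 0 < m := by
    have h0 := hx.pos 0
    have h1 := hx.pos 1
    have : 0 < β / B := by positivity
    simp only [hm, lt_min_iff]
    exact ⟨⟨h0, h1⟩, ⟨one_pos, this⟩, he⟩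
  have hmx0 : m ≤ x 0 := (min_le_left _ _).trans (min_le_left _ _)
  have hmx1 : m ≤ x 1 := (min_le_left _ _).trans (min_le_right _ _)
  have hm1 : m ≤ 1 := (min_le_right _ _).trans ((min_le_left _ _).trans (min_le_left _ _))
  have hmB : B * m ≤ β := by
    have : m ≤ β / B := (min_le_right _ _).trans ((min_le_left _ _).trans (min_le_right _ _))
    rw [le_div_iff₀ hB] at this
    linarith
  have hme : m ≤ e := (min_le_right _ _).trans (min_le_right _ _)
  have hEm := E_nonpos hα hB hm0 he hme hE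
  have hlow : ∀ n, m ≤ x n ∧ m ≤ x (n + 1) := by
    intro n
    induction n with
    | zero => exact ⟨hmx0, hmx1⟩
    | succ n ih =>
      refine ⟨ih.2, ?_⟩
      rw [show n + 1 + 1 = n + 2 by ring, hx.rec' n]
      exact low_step hA hB hm0 hm1 hmB hEm ih.1 ih.2
  have hDm : 0 < m + B * m + A := by positivity
  set M := max (max (x 0) (x 1)) (max (max 1 (β / B)) ((m + β * m + α) / (m + B * m + A)))
    with hM
  have hMx0 : x 0 ≤ M := (le_max_left _ _).trans (le_max_left _ _)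
  have hMx1 : x 1 ≤ M := (le_max_right _ _).trans (le_max_left _ _)
  have hM1 : 1 ≤ M := (le_max_left _ _).trans ((le_max_left _ _).trans (le_max_right _ _))
  have hMB : β ≤ B * M := by
    have : β / B ≤ M := (le_max_right _ _).trans ((le_max_left _ _).trans (le_max_right _ _))
    rw [div_le_iff₀ hB] at this
    linarith
  have hME : m + β * m + α ≤ M * (m + B * m + A) := by
    have : (m + β * m + α) / (m + B * m + A) ≤ M := (le_max_right _ _).trans (le_max_right _ _)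
    rwa [div_le_iff₀ hDm] at this
  refine ⟨m, M, hm0, fun n => ⟨(hlow n).1, ?_⟩⟩
  match n with
  | 0 => exact hMx0
  | 1 => exact hMx1
  | n + 2 =>
    rw [hx.rec' n]
    exact up_step hA hB hm0 hM1 hMB hME (hlow n).1 (hlow n).2

lemma F_tendsto {ι : Type*} {l : Filter ι} {u v : ι → ℝ} {p q : ℝ} (hD : p + B * q + A ≠ 0)
    (hu : Tendsto u l (𝓝 p)) (hv : Tendsto v l (𝓝 q)) :
    Tendsto (fun i => F α β A B (u i) (v i)) l (𝓝 (F α β A B p q)) := by
  unfold F
  exact ((hu.add (hv.const_mul β)).add_const α).div ((hu.add (hv.const_mul B)).add_const A) hD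

/-- Every cluster value of a bounded solution lies on a full limiting orbit. -/
lemma PosSol.orbit {x : ℕ → ℝ} (hx : PosSol α β A B x) (hA : 0 ≤ A) (hB : 0 < B) {m M : ℝ}
    (hm : 0 < m) (hb : ∀ n, m ≤ x n ∧ x n ≤ M) {c I S : ℝ}
    (hc : ∀ ε > 0, ∃ᶠ n in atTop, |x n - c| < ε)
    (hI : ∀ ε > 0, ∀ᶠ n in atTop, I - ε < x n) (hS : ∀ ε > 0, ∀ᶠ n in atTop, x n < S + ε)
    (k : ℕ) :
    ∃ y : ℕ → ℝ, (∀ j, I ≤ y j ∧ y j ≤ S) ∧ (∀ j, m ≤ y j) ∧
      (∀ j, y (j + 2) = F α β A B (y j) (y (j + 1))) ∧ y k = c := by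
  have h1 : MapClusterPt c atTop (fun n => x (n + k)) := by
    rw [mapClusterPt_iff_frequently]
    intro s hs
    obtain ⟨ε, hε, hεs⟩ := Metric.mem_nhds_iff.1 hs
    have h2 := hc ε hε
    rw [← map_add_atTop_eq_nat k] at h2
    rw [frequently_map] at h2
    refine h2.mono fun n hn => hεs ?_
    rw [Metric.mem_ball, Real.dist_eq]
    exact hn
  obtain ⟨U, hU, hUc⟩ := mapClusterPt_iff_ultrafilter.1 h1
  have h3 : ∀ j, ∃ y, m ≤ y ∧ Tendsto (fun n => x (n + j)) U (𝓝 y) := by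
    intro j
    obtain ⟨y, hy, hy2⟩ := (isCompact_Icc (a := m) (b := M)).ultrafilter_le_nhds
      (U.map (fun n => x (n + j))) (by
        rw [le_principal_iff, Ultrafilter.coe_map, mem_map]
        exact Filter.univ_mem' fun n => hb (n + j))
    exact ⟨y, hy.1, hy2⟩
  choose y hy0 hy using h3
  have hat : ∀ j, Tendsto (fun n => n + j) U atTop := fun j =>
    (tendsto_add_atTop_nat j).mono_left hU
  refine ⟨y, fun j => ⟨?_, ?_⟩, hy0, fun j => ?_, ?_⟩
  · refine le_of_forall_pos_le_add fun ε hε => ?_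
    have h4 := (hat j).eventually (hI ε hε)
    have h5 := ge_of_tendsto (hy j) (h4.mono fun n hn => hn.le)
    linarith
  · refine le_of_forall_pos_le_add fun ε hε => ?_
    have h4 := (hat j).eventually (hS ε hε)
    exact le_of_tendsto (hy j) (h4.mono fun n hn => hn.le)
  · have h4 : Tendsto (fun n => x (n + (j + 2))) U (𝓝 (F α β A B (y j) (y (j + 1)))) := by
      have h5 := F_tendsto (α := α) (β := β) (A := A) (B := B)
        (D_pos hA hB (hm.trans_le (hy0 j)) (hm.le.trans (hy0 (j + 1)))).ne' (hy j) (hy (j + 1))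
      refine h5.congr fun n => ?_
      rw [← add_assoc, ← add_assoc, hx.rec' (n + j)]
    exact tendsto_nhds_unique (hy (j + 2)) h4
  · exact tendsto_nhds_unique (hy k) hUc

end Pool.Agent.MP_7f1385_an
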