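import Pool.Agent.Lib.MP_7f1385_an.Tri

/-!
# Convergence to period-two solutions
-/

set_option autoImplicit false

namespace Pool.Agent.MP_7f1385_an

open Filter Topology

variable {α β A B : ℝ}

lemma cmp {u v u' v' : ℝ} (hB : 0 < B) (hD : 0 < u + B * v' + A) (hu : u ≤ u') (hv : v' ≤ v)
    (h1 : 0 ≤ (B - β) * v' + (A - α)) (h2 : (β - B) * u + (β * A - B * α) ≤ 0) :
    F α β A B u v ≤ F α β A B u' v' :=
  (anti_v hB hD hv h2).trans (mono_u hD hu h1)

lemma parity_shift {x : ℕ → ℝ} {N : ℕ} {p q : ℝ}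
    (hp : Tendsto (fun k => x (2 * k + N)) atTop (𝓝 p))
    (hq : Tendsto (fun k => x (2 * k + 1 + N)) atTop (𝓝 q)) :
    ∃ p q, Tendsto (fun k => x (2 * k)) atTop (𝓝 p) ∧
      Tendsto (fun k => x (2 * k + 1)) atTop (𝓝 q) := by
  rcases Nat.even_or_odd' N with ⟨j, hj | hj⟩
  · refine ⟨p, q, ?_, ?_⟩
    · rw [← tendsto_add_atTop_iff_nat j]
      refine hp.congr fun k => ?_
      congr 1
      omega
    · rw [← tendsto_add_atTop_iff_nat j]
      refine hq.congr fun k => ?_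
      congr 1
      omega
  · refine ⟨q, p, ?_, ?_⟩
    · rw [← tendsto_add_atTop_iff_nat (j + 1)]
      refine hq.congr fun k => ?_
      congr 1
      omega
    · rw [← tendsto_add_atTop_iff_nat j]
      refine hp.congr fun k => ?_
      congr 1
      omega

lemma tendsto_of_mono {a : ℕ → ℝ} {M : ℝ} (h : ∀ k, a k ≤ a (k + 1)) (hM : ∀ k, a k ≤ M) :
    ∃ p, Tendsto a atTop (𝓝 p) :=
  ⟨_, tendsto_atTop_ciSup (monotone_nat_of_le_succ h) ⟨M, by rintro _ ⟨k, rfl⟩; exact hM k⟩⟩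

lemma tendsto_of_anti {a : ℕ → ℝ} {m : ℝ} (h : ∀ k, a (k + 1) ≤ a k) (hm : ∀ k, m ≤ a k) :
    ∃ p, Tendsto a atTop (𝓝 p) :=
  ⟨_, tendsto_atTop_ciInf (antitone_nat_of_succ_le h) ⟨m, by rintro _ ⟨k, rfl⟩; exact hm k⟩⟩

lemma PosSol.parity {x : ℕ → ℝ} (hx : PosSol α β A B x) (hA : 0 ≤ A) (hB : 0 < B) {m M : ℝ}
    (hb : ∀ n, m ≤ x n ∧ x n ≤ M)
    (hs : ∀ n, 0 ≤ (B - β) * x n + (A - α) ∧ (β - B) * x n + (β * A - B * α) ≤ 0) :
    ∃ p q, Tendsto (fun k => x (2 * k)) atTop (𝓝 p) ∧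
      Tendsto (fun k => x (2 * k + 1)) atTop (𝓝 q) := by
  have hD : ∀ i j, 0 < x i + B * x j + A := fun i j => D_pos hA hB (hx.pos i) (hx.pos j).le
  -- one comparison step
  have step : ∀ i j, x i ≤ x (i + 2) → x (j + 2) ≤ x j → j = i + 1 → x (i + 2) ≤ x (i + 4) := by
    intro i j h1 h2 hij
    subst hij
    rw [hx.rec' i, show i + 4 = (i + 2) + 2 by ring, hx.rec' (i + 2)]
    exact cmp hB (hD i (i + 3)) h1 h2 (hs _).1 (hs _).2
  have step' : ∀ i j, x (i + 2) ≤ x i → x j ≤ x (j + 2) → j = i + 1 → x (i + 4) ≤ x (i + 2) := by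
    intro i j h1 h2 hij
    subst hij
    rw [hx.rec' i, show i + 4 = (i + 2) + 2 by ring, hx.rec' (i + 2)]
    exact cmp hB (hD (i + 2) (i + 1)) h1 h2 (hs _).1 (hs _).2
  by_cases hc1 : ∃ n, x n ≤ x (n + 2) ∧ x (n + 3) ≤ x (n + 1)
  · obtain ⟨n, hn1, hn2⟩ := hc1
    have h : ∀ k, x (2 * k + n) ≤ x (2 * k + n + 2) ∧ x (2 * k + n + 3) ≤ x (2 * k + n + 1) := by
      intro k
      induction k with
      | zero => simpa using ⟨hn1, hn2⟩
      | succ k ih =>
        have h1 := step _ (2 * k + n + 1) ih.1 ih.2 rfl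
        have h2 := step' (2 * k + n + 1) (2 * k + n + 2) ih.2 h1 rfl
        rw [show 2 * (k + 1) + n = 2 * k + n + 2 by ring]
        exact ⟨h1, h2⟩
    obtain ⟨p, hp⟩ := tendsto_of_mono (a := fun k => x (2 * k + n)) (M := M)
      (fun k => by
        rw [show 2 * (k + 1) + n = 2 * k + n + 2 by ring]
        exact (h k).1) (fun k => (hb _).2)
    obtain ⟨q, hq⟩ := tendsto_of_anti (a := fun k => x (2 * k + 1 + n)) (m := m)
      (fun k => by
        rw [show 2 * (k + 1) + 1 + n = 2 * k + n + 3 by ring,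
          show 2 * k + 1 + n = 2 * k + n + 1 by ring]
        exact (h k).2) (fun k => (hb _).1)
    exact parity_shift hp hq
  by_cases hc2 : ∃ n, x (n + 2) ≤ x n ∧ x (n + 1) ≤ x (n + 3)
  · obtain ⟨n, hn1, hn2⟩ := hc2
    have h : ∀ k, x (2 * k + n + 2) ≤ x (2 * k + n) ∧ x (2 * k + n + 1) ≤ x (2 * k + n + 3) := by
      intro k
      induction k with
      | zero => simpa using ⟨hn1, hn2⟩
      | succ k ih =>
        have h1 := step' _ (2 * k + n + 1) ih.1 ih.2 rfl
        have h2 := step (2 * k + n + 1) (2 * k + n + 2) ih.2 h1 rfl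
        rw [show 2 * (k + 1) + n = 2 * k + n + 2 by ring]
        exact ⟨h1, h2⟩
    obtain ⟨p, hp⟩ := tendsto_of_anti (a := fun k => x (2 * k + n)) (m := m)
      (fun k => by
        rw [show 2 * (k + 1) + n = 2 * k + n + 2 by ring]
        exact (h k).1) (fun k => (hb _).1)
    obtain ⟨q, hq⟩ := tendsto_of_mono (a := fun k => x (2 * k + 1 + n)) (M := M)
      (fun k => by
        rw [show 2 * (k + 1) + 1 + n = 2 * k + n + 3 by ring,
          show 2 * k + 1 + n = 2 * k + n + 1 by ring]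
        exact (h k).2) (fun k => (hb _).2)
    exact parity_shift hp hq
  push Not at hc1 hc2
  rcases le_total (x 0) (x 2) with h0 | h0
  · have h : ∀ n, x n ≤ x (n + 2) := by
      intro n
      induction n with
      | zero => exact h0
      | succ n ih =>
        exact (hc1 n ih).le
    obtain ⟨p, hp⟩ := tendsto_of_mono (a := fun k => x (2 * k)) (M := M)
      (fun k => h (2 * k)) (fun k => (hb _).2)
    obtain ⟨q, hq⟩ := tendsto_of_mono (a := fun k => x (2 * k + 1)) (M := M)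
      (fun k => h (2 * k + 1)) (fun k => (hb _).2)
    exact ⟨p, q, hp, hq⟩
  · have h : ∀ n, x (n + 2) ≤ x n := by
      intro n
      induction n with
      | zero => exact h0
      | succ n ih =>
        exact (hc2 n ih).le
    obtain ⟨p, hp⟩ := tendsto_of_anti (a := fun k => x (2 * k)) (m := m)
      (fun k => h (2 * k)) (fun k => (hb _).1)
    obtain ⟨q, hq⟩ := tendsto_of_anti (a := fun k => x (2 * k + 1)) (m := m)
      (fun k => h (2 * k + 1)) (fun k => (hb _).1)
    exact ⟨p, q, hp, hq⟩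

lemma PosSol.shift {x : ℕ → ℝ} (hx : PosSol α β A B x) (N : ℕ) :
    PosSol α β A B (fun n => x (n + N)) :=
  ⟨fun n => hx.pos _, fun n => by
    have := hx.rec' (n + N)
    rw [show n + 2 + N = n + N + 2 by ring, show n + 1 + N = n + N + 1 by ring]
    exact this⟩

/-- Every positive solution converges to a period-two solution. -/
lemma PosSol.limits {x : ℕ → ℝ} (hx : PosSol α β A B x) (hα : 0 ≤ α) (hA : 0 ≤ A)
    (hβ : 0 < β) (hB : 0 < B) {e : ℝ} (he : 0 < e)
    (hE : (B + 1) * e ^ 2 + (A - β - 1) * e - α = 0) (h : β ≤ B ∨ α ≤ A) :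
    ∃ p q, 0 < p ∧ 0 < q ∧ F α β A B p q = p ∧ F α β A B q p = q ∧
      Tendsto (fun k => x (2 * k)) atTop (𝓝 p) ∧
      Tendsto (fun k => x (2 * k + 1)) atTop (𝓝 q) := by
  obtain ⟨m, M, hm, hb⟩ := hx.bounds hα hA hβ hB he hE
  have h1 : ∃ p q, Tendsto (fun k => x (2 * k)) atTop (𝓝 p) ∧
      Tendsto (fun k => x (2 * k + 1)) atTop (𝓝 q) := by
    rcases hx.tri hα hA hβ hB he hE h with h1 | ⟨-, h1⟩
    · refine ⟨e, e, h1.comp ?_, h1.comp ?_⟩
      · exact tendsto_atTop_mono (fun n => by simp only [id]; omega) tendsto_id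
      · exact tendsto_atTop_mono (fun n => by simp only [id]; omega) tendsto_id
    · obtain ⟨N, hN⟩ := eventually_atTop.1 h1
      obtain ⟨p, q, hp, hq⟩ := (hx.shift N).parity hA hB (fun n => hb (n + N))
        (fun n => hN (n + N) (by omega))
      exact parity_shift hp hq
  obtain ⟨p, q, hp, hq⟩ := h1
  have hmp : m ≤ p := ge_of_tendsto' hp fun k => (hb _).1
  have hmq : m ≤ q := ge_of_tendsto' hq fun k => (hb _).1
  have hp0 : 0 < p := hm.trans_le hmp
  have hq0 : 0 < q := hm.trans_le hmq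
  refine ⟨p, q, hp0, hq0, ?_, ?_, hp, hq⟩
  · have h2 := F_tendsto (α := α) (β := β) (D_pos hA hB hp0 hq0.le).ne' hp hq
    have h3 : Tendsto (fun k => x (2 * (k + 1))) atTop (𝓝 p) :=
      hp.comp (tendsto_add_atTop_nat 1)
    refine tendsto_nhds_unique (h2.congr fun k => ?_) h3
    rw [show 2 * (k + 1) = 2 * k + 2 by ring, hx.rec']
  · have h3 : Tendsto (fun k => x (2 * (k + 1))) atTop (𝓝 p) :=
      hp.comp (tendsto_add_atTop_nat 1)
    have h2 := F_tendsto (α := α) (β := β) (D_pos hA hB hq0 hp0.le).ne' hq h3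
    have h4 : Tendsto (fun k => x (2 * (k + 1) + 1)) atTop (𝓝 q) :=
      hq.comp (tendsto_add_atTop_nat 1)
    refine tendsto_nhds_unique (h2.congr fun k => ?_) h4
    rw [show 2 * (k + 1) + 1 = (2 * k + 1) + 2 by ring, hx.rec',
      show 2 * (k + 1) = 2 * k + 1 + 1 by ring]

/-- A non-constant period-two solution forces the stated inequalities. -/
lemma cycle_facts {p q : ℝ} (hα : 0 ≤ α) (hA : 0 ≤ A) (hβ : 0 < β) (hB : 0 < B) (hp : 0 < p)
    (hq : 0 < q) (hpq : p ≠ q) (h1 : F α β A B p q = p) (h2 : F α β A B q p = q) :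
    p + q = 1 - β - A ∧ (B - 1) * (p * q) = α + β * (p + q) ∧ 1 < B ∧ β + A < 1 ∧
      4 * α < (1 - β - A) * (B * (1 - β - A) - 1 - 3 * β + A) := by
  have hD1 : 0 < p + B * q + A := D_pos hA hB hp hq.le
  have hD2 : 0 < q + B * p + A := D_pos hA hB hq hp.le
  rw [F, div_eq_iff hD1.ne'] at h1
  rw [F, div_eq_iff hD2.ne'] at h2
  have hs : p + q = 1 - β - A := by
    have h3 : (p - q) * (p + q - (1 - β - A)) = 0 := by linear_combination h2 - h1
    rcases mul_eq_zero.1 h3 with h4 | h4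
    · exact absurd (sub_eq_zero.1 h4) hpq
    · linarith
  have hP : (B - 1) * (p * q) = α + β * (p + q) := by
    have h4 : A = 1 - β - (p + q) := by linarith
    rw [h4] at h1
    linear_combination -h1
  have hpos : 0 < p * q := mul_pos hp hq
  have hB1 : 1 < B := by
    have h5 : 0 < (B - 1) * (p * q) := by rw [hP]; positivity
    have := (pos_iff_pos_of_mul_pos h5).2 hpos
    linarith
  refine ⟨hs, hP, hB1, by linarith, ?_⟩
  have h6 : 0 < (p - q) ^ 2 := by
    have := sub_ne_zero.2 hpq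
    positivity
  have h7 : 0 < (B - 1) * (p - q) ^ 2 := mul_pos (by linarith) h6
  rw [← hs]
  have h8 : A = 1 - β - (p + q) := by linarith
  rw [h8]
  nlinarith

end Pool.Agent.MP_7f1385_an
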