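import Mathlib

/-!
# Two polynomial inequalities (all coefficients are nonnegative after a substitution)
-/

set_option autoImplicit false
set_option linter.unusedVariables false

namespace Pool.Agent.MP_7f1385_an

/-- The polynomial behind the comparison of `F w (F I w)` and `F I x`. -/
def pol (a A B I w x : ℝ) : ℝ :=
    (x * I + ((1 + B) * x ^ 2 + (A - 1) * x - a) * x + a * x) * (x * (I + B * w + A) * (w + A) + B * (x * I + ((1 + B) * x ^ 2 + (A - 1) * x - a) * w + a * x)) -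
      (x * x * (I + B * w + A) * (w + a) + ((1 + B) * x ^ 2 + (A - 1) * x - a) * (x * I + ((1 + B) * x ^ 2 + (A - 1) * x - a) * w + a * x)) * (I + B * x + A)

/-- Auxiliary coefficient. -/
def lo0 (i j k : ℝ) : ℝ :=
    i * j + 5 * i * j * k + 5 * i * j * k ^ 2 + i * j * k ^ 3 + 5 * i * j ^ 2 +
    10 * i * j ^ 2 * k + 3 * i * j ^ 2 * k ^ 2 + 5 * i * j ^ 3 + 3 * i * j ^ 3 * k +
    i * j ^ 4 + 3 * i ^ 2 * j + 7 * i ^ 2 * j * k + 3 * i ^ 2 * j * k ^ 2 +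
    7 * i ^ 2 * j ^ 2 + 6 * i ^ 2 * j ^ 2 * k + 3 * i ^ 2 * j ^ 3 + 3 * i ^ 3 * j +
    3 * i ^ 3 * j * k + 3 * i ^ 3 * j ^ 2 + i ^ 4 * j + j * k + 2 * j * k ^ 2 + j * k ^ 3 +
    j ^ 2 + 4 * j ^ 2 * k + 3 * j ^ 2 * k ^ 2 + 2 * j ^ 3 + 3 * j ^ 3 * k + j ^ 4

lemma lo0_nonneg (i j k : ℝ) (hi : 0 ≤ i) (hj : 0 ≤ j) (hk : 0 ≤ k) : 0 ≤ lo0 i j k := by
  unfold lo0
  positivity

/-- Auxiliary coefficient. -/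
def lo1 (i j k : ℝ) : ℝ :=
    2 * i * j + 12 * i * j * k + 17 * i * j * k ^ 2 + 8 * i * j * k ^ 3 + i * j * k ^ 4 +
    13 * i * j ^ 2 + 40 * i * j ^ 2 * k + 33 * i * j ^ 2 * k ^ 2 + 8 * i * j ^ 2 * k ^ 3 +
    23 * i * j ^ 3 + 42 * i * j ^ 3 * k + 18 * i * j ^ 3 * k ^ 2 + 17 * i * j ^ 4 +
    16 * i * j ^ 4 * k + 5 * i * j ^ 5 + 7 * i ^ 2 * j + 22 * i ^ 2 * j * k +
    18 * i ^ 2 * j * k ^ 2 + 4 * i ^ 2 * j * k ^ 3 + 25 * i ^ 2 * j ^ 2 +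
    45 * i ^ 2 * j ^ 2 * k + 18 * i ^ 2 * j ^ 2 * k ^ 2 + 27 * i ^ 2 * j ^ 3 +
    24 * i ^ 2 * j ^ 3 * k + 10 * i ^ 2 * j ^ 4 + 9 * i ^ 3 * j + 16 * i ^ 3 * j * k +
    6 * i ^ 3 * j * k ^ 2 + 19 * i ^ 3 * j ^ 2 + 16 * i ^ 3 * j ^ 2 * k + 10 * i ^ 3 * j ^ 3 +
    5 * i ^ 4 * j + 4 * i ^ 4 * j * k + 5 * i ^ 4 * j ^ 2 + i ^ 5 * j + 2 * j * k +
    5 * j * k ^ 2 + 4 * j * k ^ 3 + j * k ^ 4 + 2 * j ^ 2 + 11 * j ^ 2 * k +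
    15 * j ^ 2 * k ^ 2 + 7 * j ^ 2 * k ^ 3 + j ^ 2 * k ^ 4 + 6 * j ^ 3 + 18 * j ^ 3 * k +
    15 * j ^ 3 * k ^ 2 + 4 * j ^ 3 * k ^ 3 + 7 * j ^ 4 + 13 * j ^ 4 * k + 6 * j ^ 4 * k ^ 2 +
    4 * j ^ 5 + 4 * j ^ 5 * k + j ^ 6

lemma lo1_nonneg (i j k : ℝ) (hi : 0 ≤ i) (hj : 0 ≤ j) (hk : 0 ≤ k) : 0 ≤ lo1 i j k := by
  unfold lo1
  positivity

/-- Auxiliary coefficient. -/
def lo2 (i j k : ℝ) : ℝ :=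
    2 * i * j + 11 * i * j * k + 16 * i * j * k ^ 2 + 4 * i * j * k ^ 3 + 10 * i * j ^ 2 +
    24 * i * j ^ 2 * k + 9 * i * j ^ 2 * k ^ 2 + 12 * i * j ^ 3 + 10 * i * j ^ 3 * k +
    4 * i * j ^ 4 + 2 * i * k ^ 2 + 4 * i * k ^ 3 + i * k ^ 4 + 5 * i ^ 2 * j +
    15 * i ^ 2 * j * k + 9 * i ^ 2 * j * k ^ 2 + 12 * i ^ 2 * j ^ 2 + 12 * i ^ 2 * j ^ 2 * k +
    6 * i ^ 2 * j ^ 3 + i ^ 2 * k + 5 * i ^ 2 * k ^ 2 + 3 * i ^ 2 * k ^ 3 + 4 * i ^ 3 * j +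
    6 * i ^ 3 * j * k + 4 * i ^ 3 * j ^ 2 + 2 * i ^ 3 * k + 3 * i ^ 3 * k ^ 2 + i ^ 4 * j +
    i ^ 4 * k + 2 * j * k + 6 * j * k ^ 2 + 5 * j * k ^ 3 + 2 * j ^ 2 + 10 * j ^ 2 * k +
    11 * j ^ 2 * k ^ 2 + j ^ 2 * k ^ 3 + 5 * j ^ 3 + 11 * j ^ 3 * k + 3 * j ^ 3 * k ^ 2 +
    4 * j ^ 4 + 3 * j ^ 4 * k + j ^ 5 + k ^ 3 + k ^ 4

lemma lo2_nonneg (i j k : ℝ) (hi : 0 ≤ i) (hj : 0 ≤ j) (hk : 0 ≤ k) : 0 ≤ lo2 i j k := by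
  unfold lo2
  positivity

/-- Auxiliary coefficient. -/
def lo3 (i j k : ℝ) : ℝ :=
    8 * i * j * k + 12 * i * j * k ^ 2 + 6 * i * j ^ 2 * k + 2 * i * k + 8 * i * k ^ 2 +
    6 * i * k ^ 3 + 6 * i ^ 2 * j * k + 4 * i ^ 2 * k + 6 * i ^ 2 * k ^ 2 + 2 * i ^ 3 * k +
    2 * j * k + 8 * j * k ^ 2 + 6 * j * k ^ 3 + 4 * j ^ 2 * k + 6 * j ^ 2 * k ^ 2 +
    2 * j ^ 3 * k + 2 * k ^ 2 + 4 * k ^ 3 + 2 * k ^ 4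

lemma lo3_nonneg (i j k : ℝ) (hi : 0 ≤ i) (hj : 0 ≤ j) (hk : 0 ≤ k) : 0 ≤ lo3 i j k := by
  unfold lo3
  positivity

/-- Auxiliary coefficient. -/
def lo4 (i j k : ℝ) : ℝ :=
    2 * i * j * k + 6 * i * j * k ^ 2 + 3 * i * j ^ 2 * k + 2 * i * k ^ 2 + 3 * i * k ^ 3 +
    3 * i ^ 2 * j * k + i ^ 2 * k + 3 * i ^ 2 * k ^ 2 + i ^ 3 * k + 2 * j * k ^ 2 +
    3 * j * k ^ 3 + j ^ 2 * k + 3 * j ^ 2 * k ^ 2 + j ^ 3 * k + k ^ 3 + k ^ 4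

lemma lo4_nonneg (i j k : ℝ) (hi : 0 ≤ i) (hj : 0 ≤ j) (hk : 0 ≤ k) : 0 ≤ lo4 i j k := by
  unfold lo4
  positivity

/-- Auxiliary coefficient. -/
def lo5 (i j k : ℝ) : ℝ :=
    i * j + 10 * i * j * k + 15 * i * j * k ^ 2 + 4 * i * j * k ^ 3 + 6 * i * j ^ 2 +
    19 * i * j ^ 2 * k + 9 * i * j ^ 2 * k ^ 2 + 9 * i * j ^ 3 + 10 * i * j ^ 3 * k +
    4 * i * j ^ 4 + i * k + 5 * i * k ^ 2 + 5 * i * k ^ 3 + i * k ^ 4 + 3 * i ^ 2 * j +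
    14 * i ^ 2 * j * k + 9 * i ^ 2 * j * k ^ 2 + 9 * i ^ 2 * j ^ 2 + 12 * i ^ 2 * j ^ 2 * k +
    6 * i ^ 2 * j ^ 3 + 3 * i ^ 2 * k + 7 * i ^ 2 * k ^ 2 + 3 * i ^ 2 * k ^ 3 +
    3 * i ^ 3 * j + 6 * i ^ 3 * j * k + 4 * i ^ 3 * j ^ 2 + 3 * i ^ 3 * k +
    3 * i ^ 3 * k ^ 2 + i ^ 4 * j + i ^ 4 * k + 2 * j * k + 6 * j * k ^ 2 + 4 * j * k ^ 3 +
    j ^ 2 + 7 * j ^ 2 * k + 8 * j ^ 2 * k ^ 2 + j ^ 2 * k ^ 3 + 3 * j ^ 3 + 8 * j ^ 3 * k +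
    3 * j ^ 3 * k ^ 2 + 3 * j ^ 4 + 3 * j ^ 4 * k + j ^ 5 + k ^ 2 + 2 * k ^ 3 + k ^ 4

lemma lo5_nonneg (i j k : ℝ) (hi : 0 ≤ i) (hj : 0 ≤ j) (hk : 0 ≤ k) : 0 ≤ lo5 i j k := by
  unfold lo5
  positivity

/-- Auxiliary coefficient. -/
def lo6 (i j k : ℝ) : ℝ :=
    6 * i * j * k + 6 * i * j * k ^ 2 + 3 * i * j ^ 2 * k + 3 * i * k + 6 * i * k ^ 2 +
    3 * i * k ^ 3 + 3 * i ^ 2 * j * k + 3 * i ^ 2 * k + 3 * i ^ 2 * k ^ 2 + i ^ 3 * k +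
    3 * j * k + 6 * j * k ^ 2 + 3 * j * k ^ 3 + 3 * j ^ 2 * k + 3 * j ^ 2 * k ^ 2 +
    j ^ 3 * k + k + 3 * k ^ 2 + 3 * k ^ 3 + k ^ 4

lemma lo6_nonneg (i j k : ℝ) (hi : 0 ≤ i) (hj : 0 ≤ j) (hk : 0 ≤ k) : 0 ≤ lo6 i j k := by
  unfold lo6
  positivity

/-- Auxiliary coefficient. -/
def lo7 (i j k : ℝ) : ℝ :=
    i * j + 7 * i * j * k + 12 * i * j * k ^ 2 + 7 * i * j * k ^ 3 + i * j * k ^ 4 +
    8 * i * j ^ 2 + 30 * i * j ^ 2 * k + 30 * i * j ^ 2 * k ^ 2 + 8 * i * j ^ 2 * k ^ 3 +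
    18 * i * j ^ 3 + 39 * i * j ^ 3 * k + 18 * i * j ^ 3 * k ^ 2 + 16 * i * j ^ 4 +
    16 * i * j ^ 4 * k + 5 * i * j ^ 5 + 4 * i ^ 2 * j + 15 * i ^ 2 * j * k +
    15 * i ^ 2 * j * k ^ 2 + 4 * i ^ 2 * j * k ^ 3 + 18 * i ^ 2 * j ^ 2 +
    39 * i ^ 2 * j ^ 2 * k + 18 * i ^ 2 * j ^ 2 * k ^ 2 + 24 * i ^ 2 * j ^ 3 +
    24 * i ^ 2 * j ^ 3 * k + 10 * i ^ 2 * j ^ 4 + 6 * i ^ 3 * j + 13 * i ^ 3 * j * k +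
    6 * i ^ 3 * j * k ^ 2 + 16 * i ^ 3 * j ^ 2 + 16 * i ^ 3 * j ^ 2 * k + 10 * i ^ 3 * j ^ 3 +
    4 * i ^ 4 * j + 4 * i ^ 4 * j * k + 5 * i ^ 4 * j ^ 2 + i ^ 5 * j + j * k +
    3 * j * k ^ 2 + 3 * j * k ^ 3 + j * k ^ 4 + j ^ 2 + 7 * j ^ 2 * k + 12 * j ^ 2 * k ^ 2 +
    7 * j ^ 2 * k ^ 3 + j ^ 2 * k ^ 4 + 4 * j ^ 3 + 15 * j ^ 3 * k + 15 * j ^ 3 * k ^ 2 +
    4 * j ^ 3 * k ^ 3 + 6 * j ^ 4 + 13 * j ^ 4 * k + 6 * j ^ 4 * k ^ 2 + 4 * j ^ 5 +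
    4 * j ^ 5 * k + j ^ 6

lemma lo7_nonneg (i j k : ℝ) (hi : 0 ≤ i) (hj : 0 ≤ j) (hk : 0 ≤ k) : 0 ≤ lo7 i j k := by
  unfold lo7
  positivity

/-- Auxiliary coefficient. -/
def lo8 (i j k : ℝ) : ℝ :=
    2 * i * j + 9 * i * j * k + 12 * i * j * k ^ 2 + 3 * i * j * k ^ 3 + 7 * i * j ^ 2 +
    12 * i * j ^ 2 * k + 3 * i * j ^ 2 * k ^ 2 + 4 * i * j ^ 3 + i * j ^ 3 * k +
    2 * i * k ^ 2 + 4 * i * k ^ 3 + i * k ^ 4 + 4 * i ^ 2 * j + 10 * i ^ 2 * j * k +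
    6 * i ^ 2 * j * k ^ 2 + 5 * i ^ 2 * j ^ 2 + 3 * i ^ 2 * j ^ 2 * k + i ^ 2 * k +
    5 * i ^ 2 * k ^ 2 + 3 * i ^ 2 * k ^ 3 + 2 * i ^ 3 * j + 3 * i ^ 3 * j * k +
    2 * i ^ 3 * k + 3 * i ^ 3 * k ^ 2 + i ^ 4 * k + 2 * j * k + 5 * j * k ^ 2 +
    4 * j * k ^ 3 + 2 * j ^ 2 + 7 * j ^ 2 * k + 6 * j ^ 2 * k ^ 2 + 3 * j ^ 3 +
    4 * j ^ 3 * k + j ^ 4 + k ^ 3 + k ^ 4

lemma lo8_nonneg (i j k : ℝ) (hi : 0 ≤ i) (hj : 0 ≤ j) (hk : 0 ≤ k) : 0 ≤ lo8 i j k := by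
  unfold lo8
  positivity

/-- Auxiliary coefficient. -/
def lo9 (i j k : ℝ) : ℝ :=
    i * j + 14 * i * j * k + 16 * i * j * k ^ 2 + 2 * i * j ^ 2 + 8 * i * j ^ 2 * k +
    3 * i * k + 12 * i * k ^ 2 + 8 * i * k ^ 3 + i ^ 2 * j + 10 * i ^ 2 * j * k +
    7 * i ^ 2 * k + 10 * i ^ 2 * k ^ 2 + 4 * i ^ 3 * k + 4 * j * k + 11 * j * k ^ 2 +
    6 * j * k ^ 3 + j ^ 2 + 7 * j ^ 2 * k + 6 * j ^ 2 * k ^ 2 + j ^ 3 + 2 * j ^ 3 * k +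
    3 * k ^ 2 + 5 * k ^ 3 + 2 * k ^ 4

lemma lo9_nonneg (i j k : ℝ) (hi : 0 ≤ i) (hj : 0 ≤ j) (hk : 0 ≤ k) : 0 ≤ lo9 i j k := by
  unfold lo9
  positivity

/-- Auxiliary coefficient. -/
def lo10 (i j k : ℝ) : ℝ :=
    6 * i * j * k + 4 * i * k + 6 * i * k ^ 2 + 3 * i ^ 2 * k + 4 * j * k + 6 * j * k ^ 2 +
    3 * j ^ 2 * k + k + 4 * k ^ 2 + 3 * k ^ 3

lemma lo10_nonneg (i j k : ℝ) (hi : 0 ≤ i) (hj : 0 ≤ j) (hk : 0 ≤ k) : 0 ≤ lo10 i j k := by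
  unfold lo10
  positivity

/-- Auxiliary coefficient. -/
def lo11 (i j k : ℝ) : ℝ :=
    i * j + 6 * i * j * k + 8 * i * j * k ^ 2 + 2 * i * j ^ 2 + 4 * i * j ^ 2 * k +
    4 * i * k ^ 2 + 4 * i * k ^ 3 + i ^ 2 * j + 5 * i ^ 2 * j * k + 2 * i ^ 2 * k +
    5 * i ^ 2 * k ^ 2 + 2 * i ^ 3 * k + j * k + 5 * j * k ^ 2 + 3 * j * k ^ 3 + j ^ 2 +
    4 * j ^ 2 * k + 3 * j ^ 2 * k ^ 2 + j ^ 3 + j ^ 3 * k + 2 * k ^ 3 + k ^ 4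

lemma lo11_nonneg (i j k : ℝ) (hi : 0 ≤ i) (hj : 0 ≤ j) (hk : 0 ≤ k) : 0 ≤ lo11 i j k := by
  unfold lo11
  positivity

/-- Auxiliary coefficient. -/
def lo12 (i j k : ℝ) : ℝ :=
    6 * i * j * k + 2 * i * k + 6 * i * k ^ 2 + 3 * i ^ 2 * k + 2 * j * k + 6 * j * k ^ 2 +
    3 * j ^ 2 * k + 2 * k ^ 2 + 3 * k ^ 3

lemma lo12_nonneg (i j k : ℝ) (hi : 0 ≤ i) (hj : 0 ≤ j) (hk : 0 ≤ k) : 0 ≤ lo12 i j k := by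
  unfold lo12
  positivity

/-- Auxiliary coefficient. -/
def lo13 (i j k : ℝ) : ℝ :=
    2 * i * j * k + 2 * i * k ^ 2 + i ^ 2 * k + 2 * j * k ^ 2 + j ^ 2 * k + k ^ 3

lemma lo13_nonneg (i j k : ℝ) (hi : 0 ≤ i) (hj : 0 ≤ j) (hk : 0 ≤ k) : 0 ≤ lo13 i j k := by
  unfold lo13
  positivity

/-- Auxiliary coefficient. -/
def lo14 (i j k : ℝ) : ℝ :=
    i * j + 9 * i * j * k + 13 * i * j * k ^ 2 + 3 * i * j * k ^ 3 + 4 * i * j ^ 2 +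
    11 * i * j ^ 2 * k + 3 * i * j ^ 2 * k ^ 2 + 3 * i * j ^ 3 + i * j ^ 3 * k + i * k +
    5 * i * k ^ 2 + 5 * i * k ^ 3 + i * k ^ 4 + 2 * i ^ 2 * j + 10 * i ^ 2 * j * k +
    6 * i ^ 2 * j * k ^ 2 + 3 * i ^ 2 * j ^ 2 + 3 * i ^ 2 * j ^ 2 * k + 3 * i ^ 2 * k +
    7 * i ^ 2 * k ^ 2 + 3 * i ^ 2 * k ^ 3 + i ^ 3 * j + 3 * i ^ 3 * j * k + 3 * i ^ 3 * k +
    3 * i ^ 3 * k ^ 2 + i ^ 4 * k + 2 * j * k + 6 * j * k ^ 2 + 4 * j * k ^ 3 + j ^ 2 +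
    6 * j ^ 2 * k + 6 * j ^ 2 * k ^ 2 + 2 * j ^ 3 + 4 * j ^ 3 * k + j ^ 4 + k ^ 2 +
    2 * k ^ 3 + k ^ 4

lemma lo14_nonneg (i j k : ℝ) (hi : 0 ≤ i) (hj : 0 ≤ j) (hk : 0 ≤ k) : 0 ≤ lo14 i j k := by
  unfold lo14
  positivity

/-- Auxiliary coefficient. -/
def lo15 (i j k : ℝ) : ℝ :=
    8 * i * j * k + 8 * i * j * k ^ 2 + 4 * i * j ^ 2 * k + 4 * i * k + 8 * i * k ^ 2 +
    4 * i * k ^ 3 + 5 * i ^ 2 * j * k + 5 * i ^ 2 * k + 5 * i ^ 2 * k ^ 2 + 2 * i ^ 3 * k +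
    3 * j * k + 6 * j * k ^ 2 + 3 * j * k ^ 3 + 3 * j ^ 2 * k + 3 * j ^ 2 * k ^ 2 +
    j ^ 3 * k + k + 3 * k ^ 2 + 3 * k ^ 3 + k ^ 4

lemma lo15_nonneg (i j k : ℝ) (hi : 0 ≤ i) (hj : 0 ≤ j) (hk : 0 ≤ k) : 0 ≤ lo15 i j k := by
  unfold lo15
  positivity

/-- Auxiliary coefficient. -/
def lo16 (i j k : ℝ) : ℝ :=
    2 * i * j * k + 2 * i * k + 2 * i * k ^ 2 + i ^ 2 * k + 2 * j * k + 2 * j * k ^ 2 +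
    j ^ 2 * k + k + 2 * k ^ 2 + k ^ 3

lemma lo16_nonneg (i j k : ℝ) (hi : 0 ≤ i) (hj : 0 ≤ j) (hk : 0 ≤ k) : 0 ≤ lo16 i j k := by
  unfold lo16
  positivity

/-- Auxiliary coefficient. -/
def up0 (i j k : ℝ) : ℝ :=
    i * j * k + i * k + i * k ^ 2 + 2 * i ^ 2 * j * k + 3 * i ^ 2 * k + 2 * i ^ 2 * k ^ 2 +
    i ^ 3 * j * k + 3 * i ^ 3 * k + i ^ 3 * k ^ 2 + i ^ 4 * k

lemma up0_nonneg (i j k : ℝ) (hi : 0 ≤ i) (hj : 0 ≤ j) (hk : 0 ≤ k) : 0 ≤ up0 i j k := by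
  unfold up0
  positivity

/-- Auxiliary coefficient. -/
def up1 (i j k : ℝ) : ℝ :=
    2 * i * j * k + 2 * i * k + i * k ^ 2 + 5 * i ^ 2 * j * k + 7 * i ^ 2 * k +
    2 * i ^ 2 * k ^ 2 + 4 * i ^ 3 * j * k + 9 * i ^ 3 * k + i ^ 3 * k ^ 2 + i ^ 4 * j * k +
    5 * i ^ 4 * k + i ^ 5 * k

lemma up1_nonneg (i j k : ℝ) (hi : 0 ≤ i) (hj : 0 ≤ j) (hk : 0 ≤ k) : 0 ≤ up1 i j k := by
  unfold up1
  positivity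

/-- Auxiliary coefficient. -/
def up2 (i j k : ℝ) : ℝ :=
    i * j * k + 2 * i * k + i ^ 2 * j + 3 * i ^ 2 * j * k + i ^ 2 * j ^ 2 + 5 * i ^ 2 * k +
    2 * i ^ 3 * j + 2 * i ^ 3 * j * k + i ^ 3 * j ^ 2 + 4 * i ^ 3 * k + i ^ 4 * j + i ^ 4 * k

lemma up2_nonneg (i j k : ℝ) (hi : 0 ≤ i) (hj : 0 ≤ j) (hk : 0 ≤ k) : 0 ≤ up2 i j k := by
  unfold up2
  positivity

/-- Auxiliary coefficient. -/
def up3 (i j k : ℝ) : ℝ :=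
    2 * i * j + 4 * i ^ 2 * j + 2 * i ^ 3 * j

lemma up3_nonneg (i j k : ℝ) (hi : 0 ≤ i) (hj : 0 ≤ j) (hk : 0 ≤ k) : 0 ≤ up3 i j k := by
  unfold up3
  positivity

/-- Auxiliary coefficient. -/
def up4 (i j k : ℝ) : ℝ :=
    i ^ 2 * j + i ^ 3 * j

lemma up4_nonneg (i j k : ℝ) (hi : 0 ≤ i) (hj : 0 ≤ j) (hk : 0 ≤ k) : 0 ≤ up4 i j k := by
  unfold up4
  positivity

/-- Auxiliary coefficient. -/
def up5 (i j k : ℝ) : ℝ :=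
    i * j + 2 * i * j * k + i * j ^ 2 + i * k + 3 * i ^ 2 * j + 4 * i ^ 2 * j * k +
    2 * i ^ 2 * j ^ 2 + 3 * i ^ 2 * k + 3 * i ^ 3 * j + 2 * i ^ 3 * j * k + i ^ 3 * j ^ 2 +
    3 * i ^ 3 * k + i ^ 4 * j + i ^ 4 * k

lemma up5_nonneg (i j k : ℝ) (hi : 0 ≤ i) (hj : 0 ≤ j) (hk : 0 ≤ k) : 0 ≤ up5 i j k := by
  unfold up5
  positivity

/-- Auxiliary coefficient. -/
def up6 (i j k : ℝ) : ℝ :=
    3 * i * j + 3 * i ^ 2 * j + i ^ 3 * j + j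

lemma up6_nonneg (i j k : ℝ) (hi : 0 ≤ i) (hj : 0 ≤ j) (hk : 0 ≤ k) : 0 ≤ up6 i j k := by
  unfold up6
  positivity

/-- Auxiliary coefficient. -/
def up7 (i j k : ℝ) : ℝ :=
    i * j * k + i * k + 3 * i ^ 2 * j * k + 4 * i ^ 2 * k + 3 * i ^ 3 * j * k +
    6 * i ^ 3 * k + i ^ 4 * j * k + 4 * i ^ 4 * k + i ^ 5 * k

lemma up7_nonneg (i j k : ℝ) (hi : 0 ≤ i) (hj : 0 ≤ j) (hk : 0 ≤ k) : 0 ≤ up7 i j k := by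
  unfold up7
  positivity

/-- Auxiliary coefficient. -/
def up8 (i j k : ℝ) : ℝ :=
    i * j * k + 2 * i * k + i * k ^ 2 + i ^ 2 * j + 2 * i ^ 2 * j * k + i ^ 2 * j ^ 2 +
    4 * i ^ 2 * k + i ^ 2 * k ^ 2 + 2 * i ^ 3 * j + i ^ 3 * j * k + i ^ 3 * j ^ 2 +
    2 * i ^ 3 * k + i ^ 4 * j

lemma up8_nonneg (i j k : ℝ) (hi : 0 ≤ i) (hj : 0 ≤ j) (hk : 0 ≤ k) : 0 ≤ up8 i j k := by
  unfold up8
  positivity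

/-- Auxiliary coefficient. -/
def up9 (i j k : ℝ) : ℝ :=
    3 * i * j + 2 * i * j * k + 2 * i * j ^ 2 + i * k + 7 * i ^ 2 * j + 2 * i ^ 2 * j * k +
    2 * i ^ 2 * j ^ 2 + i ^ 2 * k + 4 * i ^ 3 * j

lemma up9_nonneg (i j k : ℝ) (hi : 0 ≤ i) (hj : 0 ≤ j) (hk : 0 ≤ k) : 0 ≤ up9 i j k := by
  unfold up9
  positivity

/-- Auxiliary coefficient. -/
def up10 (i j k : ℝ) : ℝ :=
    4 * i * j + 3 * i ^ 2 * j + j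

lemma up10_nonneg (i j k : ℝ) (hi : 0 ≤ i) (hj : 0 ≤ j) (hk : 0 ≤ k) : 0 ≤ up10 i j k := by
  unfold up10
  positivity

/-- Auxiliary coefficient. -/
def up11 (i j k : ℝ) : ℝ :=
    i * k + 2 * i ^ 2 * j + i ^ 2 * j * k + i ^ 2 * j ^ 2 + i ^ 2 * k + 2 * i ^ 3 * j

lemma up11_nonneg (i j k : ℝ) (hi : 0 ≤ i) (hj : 0 ≤ j) (hk : 0 ≤ k) : 0 ≤ up11 i j k := by
  unfold up11
  positivity

/-- Auxiliary coefficient. -/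
def up12 (i j k : ℝ) : ℝ :=
    2 * i * j + 3 * i ^ 2 * j

lemma up12_nonneg (i j k : ℝ) (hi : 0 ≤ i) (hj : 0 ≤ j) (hk : 0 ≤ k) : 0 ≤ up12 i j k := by
  unfold up12
  positivity

/-- Auxiliary coefficient. -/
def up13 (i j k : ℝ) : ℝ :=
    i ^ 2 * j

lemma up13_nonneg (i j k : ℝ) (hi : 0 ≤ i) (hj : 0 ≤ j) (hk : 0 ≤ k) : 0 ≤ up13 i j k := by
  unfold up13
  positivity

/-- Auxiliary coefficient. -/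
def up14 (i j k : ℝ) : ℝ :=
    i * j + i * j * k + i * j ^ 2 + i * k + 3 * i ^ 2 * j + 2 * i ^ 2 * j * k +
    2 * i ^ 2 * j ^ 2 + 2 * i ^ 2 * k + 3 * i ^ 3 * j + i ^ 3 * j * k + i ^ 3 * j ^ 2 +
    i ^ 3 * k + i ^ 4 * j

lemma up14_nonneg (i j k : ℝ) (hi : 0 ≤ i) (hj : 0 ≤ j) (hk : 0 ≤ k) : 0 ≤ up14 i j k := by
  unfold up14
  positivity

/-- Auxiliary coefficient. -/
def up15 (i j k : ℝ) : ℝ :=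
    4 * i * j + 2 * i * j * k + 2 * i * j ^ 2 + 5 * i ^ 2 * j + i ^ 2 * j * k +
    i ^ 2 * j ^ 2 + 2 * i ^ 3 * j + j + j * k + j ^ 2

lemma up15_nonneg (i j k : ℝ) (hi : 0 ≤ i) (hj : 0 ≤ j) (hk : 0 ≤ k) : 0 ≤ up15 i j k := by
  unfold up15
  positivity

/-- Auxiliary coefficient. -/
def up16 (i j k : ℝ) : ℝ :=
    2 * i * j + i ^ 2 * j + j

lemma up16_nonneg (i j k : ℝ) (hi : 0 ≤ i) (hj : 0 ≤ j) (hk : 0 ≤ k) : 0 ≤ up16 i j k := by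
  unfold up16
  positivity

lemma pol_low (a d B i j k : ℝ) (ha : 0 ≤ a) (hd : 0 ≤ d) (hB : 0 ≤ B) (hi : 0 ≤ i)
    (hj : 0 ≤ j) (hk : 0 ≤ k) :
    0 ≤ pol a (a + d) B (1 + i) (1 + i + j) (1 + i + j + k) := by
  have h : pol a (a + d) B (1 + i) (1 + i + j) (1 + i + j + k) =
      lo0 i j k + B * lo1 i j k + B * a * lo2 i j k + B * a * d * lo3 i j k +
      B * a ^ 2 * lo4 i j k + B * d * lo5 i j k + B * d ^ 2 * lo6 i j k + B ^ 2 * lo7 i j k +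
      a * lo8 i j k + a * d * lo9 i j k + a * d ^ 2 * lo10 i j k + a ^ 2 * lo11 i j k +
      a ^ 2 * d * lo12 i j k + a ^ 3 * lo13 i j k + d * lo14 i j k + d ^ 2 * lo15 i j k +
      d ^ 3 * lo16 i j k := by
    unfold pol lo0 lo1 lo2 lo3 lo4 lo5 lo6 lo7 lo8 lo9 lo10 lo11 lo12 lo13 lo14 lo15 lo16
    ring
  rw [h]
  have h_lo0 := lo0_nonneg i j k hi hj hk
  have h_lo1 := lo1_nonneg i j k hi hj hk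
  have h_lo2 := lo2_nonneg i j k hi hj hk
  have h_lo3 := lo3_nonneg i j k hi hj hk
  have h_lo4 := lo4_nonneg i j k hi hj hk
  have h_lo5 := lo5_nonneg i j k hi hj hk
  have h_lo6 := lo6_nonneg i j k hi hj hk
  have h_lo7 := lo7_nonneg i j k hi hj hk
  have h_lo8 := lo8_nonneg i j k hi hj hk
  have h_lo9 := lo9_nonneg i j k hi hj hk
  have h_lo10 := lo10_nonneg i j k hi hj hk
  have h_lo11 := lo11_nonneg i j k hi hj hk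
  have h_lo12 := lo12_nonneg i j k hi hj hk
  have h_lo13 := lo13_nonneg i j k hi hj hk
  have h_lo14 := lo14_nonneg i j k hi hj hk
  have h_lo15 := lo15_nonneg i j k hi hj hk
  have h_lo16 := lo16_nonneg i j k hi hj hk
  positivity

lemma pol_up (a d B i j k : ℝ) (ha : 0 ≤ a) (hd : 0 ≤ d) (hB : 0 ≤ B) (hi : 0 ≤ i)
    (hj : 0 ≤ j) (hk : 0 ≤ k) :
    pol a (a + d) B (1 + i + j + k) (1 + i + j) (1 + i) ≤ 0 := by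
  have h : - pol a (a + d) B (1 + i + j + k) (1 + i + j) (1 + i) =
      up0 i j k + B * up1 i j k + B * a * up2 i j k + B * a * d * up3 i j k +
      B * a ^ 2 * up4 i j k + B * d * up5 i j k + B * d ^ 2 * up6 i j k + B ^ 2 * up7 i j k +
      a * up8 i j k + a * d * up9 i j k + a * d ^ 2 * up10 i j k + a ^ 2 * up11 i j k +
      a ^ 2 * d * up12 i j k + a ^ 3 * up13 i j k + d * up14 i j k + d ^ 2 * up15 i j k +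
      d ^ 3 * up16 i j k := by
    unfold pol up0 up1 up2 up3 up4 up5 up6 up7 up8 up9 up10 up11 up12 up13 up14 up15 up16
    ring
  have h2 : 0 ≤ - pol a (a + d) B (1 + i + j + k) (1 + i + j) (1 + i) := by
    rw [h]
    have h_up0 := up0_nonneg i j k hi hj hk
    have h_up1 := up1_nonneg i j k hi hj hk
    have h_up2 := up2_nonneg i j k hi hj hk
    have h_up3 := up3_nonneg i j k hi hj hk
    have h_up4 := up4_nonneg i j k hi hj hk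
    have h_up5 := up5_nonneg i j k hi hj hk
    have h_up6 := up6_nonneg i j k hi hj hk
    have h_up7 := up7_nonneg i j k hi hj hk
    have h_up8 := up8_nonneg i j k hi hj hk
    have h_up9 := up9_nonneg i j k hi hj hk
    have h_up10 := up10_nonneg i j k hi hj hk
    have h_up11 := up11_nonneg i j k hi hj hk
    have h_up12 := up12_nonneg i j k hi hj hk
    have h_up13 := up13_nonneg i j k hi hj hk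
    have h_up14 := up14_nonneg i j k hi hj hk
    have h_up15 := up15_nonneg i j k hi hj hk
    have h_up16 := up16_nonneg i j k hi hj hk
    positivity
  linarith

end Pool.Agent.MP_7f1385_an
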