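import Pool.Agent.Lib.MP_7f1385_an.Parity

/-!
# Local stability of the equilibrium
-/

set_option autoImplicit false

namespace Pool.Agent.MP_7f1385_an

open Filter Topology

variable {α β A B : ℝ}

lemma T_eq (z : ℝ × ℝ) : T α β A B z = (z.2, F α β A B z.1 z.2) := by
  unfold T F
  congr 1
  congr 1 <;> ring

lemma locStable_of_inv {G : ℝ × ℝ → ℝ × ℝ} {z₀ : ℝ × ℝ}
    (h : ∀ ε > 0, ∃ V : ℝ × ℝ → Prop,
      (∃ δ > 0, ∀ z : ℝ × ℝ, 0 ≤ z.1 → 0 ≤ z.2 → dist z z₀ < δ → V z) ∧
      (∀ z, V z → V (G z)) ∧ (∀ z, V z → dist z z₀ < ε)) : LocStable G z₀ := by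
  intro ε hε
  obtain ⟨V, ⟨δ, hδ, h1⟩, h2, h3⟩ := h ε hε
  refine ⟨δ, hδ, fun z hz1 hz2 hz n => h3 _ ?_⟩
  induction n with
  | zero => exact h1 z hz1 hz2 hz
  | succ n ih =>
    rw [Function.iterate_succ_apply']
    exact h2 _ ih

lemma dist_lt_iff {z : ℝ × ℝ} {p q ε : ℝ} :
    dist z (p, q) < ε ↔ |z.1 - p| < ε ∧ |z.2 - q| < ε := by
  rw [Prod.dist_eq, max_lt_iff, Real.dist_eq, Real.dist_eq]

lemma box_stable {e : ℝ} (hα : 0 ≤ α) (hA : 0 ≤ A) (hβ : 0 < β) (hB : 0 < B)
    (h : ∀ ε > 0, ∃ l r : ℝ, e - ε < l ∧ l < e ∧ e < r ∧ r < e + ε ∧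
      ∀ u v, 0 ≤ u → 0 ≤ v → l ≤ u → u ≤ r → l ≤ v → v ≤ r →
        l ≤ F α β A B u v ∧ F α β A B u v ≤ r) : LocStable (T α β A B) (e, e) := by
  apply locStable_of_inv
  intro ε hε
  obtain ⟨l, r, h1, h2, h3, h4, h5⟩ := h ε hε
  refine ⟨fun z => 0 ≤ z.1 ∧ 0 ≤ z.2 ∧ l ≤ z.1 ∧ z.1 ≤ r ∧ l ≤ z.2 ∧ z.2 ≤ r,
    ⟨min (e - l) (r - e), lt_min (by linarith) (by linarith), ?_⟩, ?_, ?_⟩
  · intro z hz1 hz2 hz
    rw [dist_lt_iff] at hz
    have h6 := lt_min_iff.1 hz.1
    have h7 := lt_min_iff.1 hz.2
    have h8 := abs_lt.1 h6.1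
    have h9 := abs_lt.1 h6.2
    have h10 := abs_lt.1 h7.1
    have h11 := abs_lt.1 h7.2
    exact ⟨hz1, hz2, by linarith, by linarith, by linarith, by linarith⟩
  · rintro z ⟨hz1, hz2, hz3, hz4, hz5, hz6⟩
    rw [T_eq]
    obtain ⟨h6, h7⟩ := h5 z.1 z.2 hz1 hz2 hz3 hz4 hz5 hz6
    exact ⟨hz2, F_nonneg hα hA hβ hB hz1 hz2, hz5, hz6, h6, h7⟩
  · rintro z ⟨hz1, hz2, hz3, hz4, hz5, hz6⟩
    rw [dist_lt_iff, abs_lt, abs_lt]
    exact ⟨⟨by linarith, by linarith⟩, ⟨by linarith, by linarith⟩⟩

lemma num_eq {e u v : ℝ} (hE : (B + 1) * e ^ 2 + (A - β - 1) * e - α = 0) :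
    u + β * v + α - e * (u + B * v + A) = (1 - e) * (u - e) + (β - B * e) * (v - e) := by
  linear_combination (-1) * hE

/-- Linearly stable case (in the maximum norm). -/
lemma stable_lin {e : ℝ} (hα : 0 ≤ α) (hA : 0 ≤ A) (hβ : 0 < β) (hB : 0 < B)
    (hE : (B + 1) * e ^ 2 + (A - β - 1) * e - α = 0)
    (h : |1 - e| + |β - B * e| < (1 + B) * e + A) : LocStable (T α β A B) (e, e) := by
  apply box_stable hα hA hβ hB
  intro ε hε
  set w := ((1 + B) * e + A - (|1 - e| + |β - B * e|)) / (2 * (1 + B)) with hw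
  have hw0 : 0 < w := div_pos (by linarith) (by positivity)
  have hw2 : (1 + B) * w = ((1 + B) * e + A - (|1 - e| + |β - B * e|)) / 2 := by
    rw [hw]
    field_simp
  set d := min (ε / 2) w with hd
  have hd0 : 0 < d := lt_min (by linarith) hw0
  have hdε : d < ε := (min_le_left _ _).trans_lt (by linarith)
  have hdw : (1 + B) * d ≤ (1 + B) * w :=
    mul_le_mul_of_nonneg_left (min_le_right _ _) (by positivity)
  refine ⟨e - d, e + d, by linarith, by linarith, by linarith, by linarith, ?_⟩
  intro u v hu hv h1 h2 h3 h4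
  have hDge : ((1 + B) * e + A + (|1 - e| + |β - B * e|)) / 2 ≤ u + B * v + A := by
    nlinarith
  have ha1 := abs_nonneg (1 - e)
  have ha2 := abs_nonneg (β - B * e)
  have hD : 0 < u + B * v + A := by linarith
  have hDs : |1 - e| + |β - B * e| ≤ u + B * v + A := by linarith
  have hu' : |u - e| ≤ d := abs_le.2 ⟨by linarith, by linarith⟩
  have hv' : |v - e| ≤ d := abs_le.2 ⟨by linarith, by linarith⟩
  have hN := num_eq (u := u) (v := v) hE
  have hNabs : |(1 - e) * (u - e) + (β - B * e) * (v - e)| ≤ d * (u + B * v + A) := by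
    calc |(1 - e) * (u - e) + (β - B * e) * (v - e)|
        ≤ |(1 - e) * (u - e)| + |(β - B * e) * (v - e)| := abs_add_le _ _
      _ = |1 - e| * |u - e| + |β - B * e| * |v - e| := by rw [abs_mul, abs_mul]
      _ ≤ |1 - e| * d + |β - B * e| * d :=
          add_le_add (mul_le_mul_of_nonneg_left hu' ha1) (mul_le_mul_of_nonneg_left hv' ha2)
      _ = d * (|1 - e| + |β - B * e|) := by ring
      _ ≤ d * (u + B * v + A) := mul_le_mul_of_nonneg_left hDs hd0.le
  have h5 := abs_le.1 hNabs
  constructor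
  · rw [le_F_iff hD]
    linarith [h5.1]
  · rw [F_le_iff hD]
    linarith [h5.2]

/-- The critical case `4 α = K`: `2 e = 1 - β - A`, `B > 1`. -/
lemma stable_crit {e : ℝ} (hα : 0 ≤ α) (hA : 0 ≤ A) (hβ : 0 < β) (hB1 : 1 < B) (he : 0 < e)
    (hE : (B + 1) * e ^ 2 + (A - β - 1) * e - α = 0) (h2e : 2 * e = 1 - β - A)
    (hm : β < B * e) : LocStable (T α β A B) (e, e) := by
  have hB : 0 < B := by linarith
  apply box_stable hα hA hβ hB
  intro ε hε
  set m := B * e - β with hmdef
  have hm0 : 0 < m := by linarith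
  set t := min (ε / 2) (min (m / B) (1 / 2)) with ht
  have ht0 : 0 < t := lt_min (by linarith) (lt_min (by positivity) (by norm_num))
  have htε : t < ε := (min_le_left _ _).trans_lt (by linarith)
  have htm : B * t ≤ m := by
    have : t ≤ m / B := (min_le_right _ _).trans (min_le_left _ _)
    rw [le_div_iff₀ hB] at this
    linarith
  have ht2 : t ≤ 1 / 2 := (min_le_right _ _).trans (min_le_right _ _)
  have hc0 : 0 < m + (B - 1) * t := by
    have := mul_pos (sub_pos.2 hB1) ht0
    linarith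
  set σ := (B - 1) * t ^ 2 / (m + (B - 1) * t) with hσ
  have hσ0 : 0 < σ := div_pos (mul_pos (by linarith) (by positivity)) hc0
  have hσ1 : σ * (m + (B - 1) * t) = (B - 1) * t ^ 2 := by
    rw [hσ, div_mul_cancel₀ _ hc0.ne']
  have hσt : σ < t := by
    rw [hσ, div_lt_iff₀ hc0]
    nlinarith [mul_pos ht0 hm0]
  have he1 : e < 1 / 2 := by linarith
  refine ⟨e - t + σ, e + t, by linarith, by linarith, by linarith, by linarith, ?_⟩
  intro u v hu hv h1 h2 h3 h4
  have hl0 : 0 ≤ e - t + σ := by
    have : t ≤ e := by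
      by_contra hneg
      push Not at hneg
      nlinarith
    linarith
  have hD : 0 < u + B * v + A := by
    have h5 : 0 < e - t + σ := by
      have : t ≤ e := by
        by_contra hneg
        push Not at hneg
        nlinarith
      linarith
    have : 0 < u := h5.trans_le h1
    positivity
  have h6 : 0 ≤ B * (e - t + σ) - β := by
    nlinarith [mul_pos hB hσ0]
  have h7 : 0 ≤ B * (e + t) - β := by nlinarith
  constructor
  · rw [le_F_iff hD]
    have h8 : 0 ≤ (u - (e - t + σ)) * (1 - (e - t + σ)) :=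
      mul_nonneg (by linarith) (by linarith)
    have h9 : 0 ≤ ((e + t) - v) * (B * (e - t + σ) - β) := mul_nonneg (by linarith) h6
    have h10 : (e - t + σ) * (1 - (e - t + σ)) + (e + t) * (β - B * (e - t + σ)) + α -
        A * (e - t + σ) = σ * (t - σ) + ((B - 1) * t ^ 2 - σ * (m + (B - 1) * t)) := by
      rw [hmdef]
      have hA2 : A = 1 - β - 2 * e := by linarith
      rw [hA2] at hE ⊢
      linear_combination (-1) * hE
    have h11 : 0 ≤ σ * (t - σ) := mul_nonneg hσ0.le (by linarith)
    rw [hσ1] at h10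
    nlinarith
  · rw [F_le_iff hD]
    have h8 : 0 ≤ ((e + t) - u) * (1 - (e + t)) :=
      mul_nonneg (by linarith) (by linarith)
    have h9 : 0 ≤ (v - (e - t + σ)) * (B * (e + t) - β) := mul_nonneg (by linarith) h7
    have h10 : (e + t) * (1 - (e + t)) + (e - t + σ) * (β - B * (e + t)) + α -
        A * (e + t) = ((B - 1) * t ^ 2 - σ * (m + (B - 1) * t)) - t * σ := by
      rw [hmdef]
      have hA2 : A = 1 - β - 2 * e := by linarith
      rw [hA2] at hE ⊢
      linear_combination (-1) * hE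
    have h11 : 0 ≤ t * σ := mul_nonneg ht0.le hσ0.le
    rw [hσ1] at h10
    nlinarith

/-- The non-monotone case `β > B`, `α ≤ A`, `e > 1`. -/
lemma stable_nonmono {e : ℝ} (hα : 0 ≤ α) (hαA : α ≤ A) (hβB : B < β) (hB : 0 < B)
    (hE : (B + 1) * e ^ 2 + (A - β - 1) * e - α = 0) (he1 : 1 < e) :
    LocStable (T α β A B) (e, e) := by
  have hA : 0 ≤ A := hα.trans hαA
  have hβ : 0 < β := hB.trans hβB
  have he0 : 0 < e := by linarith
  have hβB' : 0 < β - B := by linarith
  have hDI : ∀ {u v : ℝ}, 0 < u → 0 < v → 0 < u + B * v + A := fun hu hv => D_pos hA hB hu hv.le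
  -- `A - α < β - B`
  have hM : A - α < β - B := by
    have h1 := E_mul (m := 1) hE
    have h2 : (1 - e) * ((B + 1) * 1 * e + α) < 0 :=
      mul_neg_of_neg_of_pos (by linarith) (by positivity)
    rw [← h1] at h2
    by_contra hneg
    push Not at hneg
    nlinarith
  have hs1 : ∀ v, 1 ≤ v → (B - β) * v + (A - α) ≤ 0 := fun v hv => by
    nlinarith [mul_nonneg hβB'.le (sub_nonneg.2 hv)]
  have hs2 : ∀ u, 0 < u → 0 ≤ (β - B) * u + (β * A - B * α) := by
    intro u hu
    nlinarith [mul_pos hβB' hu, mul_nonneg hβB'.le hA]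
  have hh : ∀ v, e * (e * (v - 1) + B * v ^ 2 + (A - β) * v - α) =
      (v - e) * (e + B * e * v + α) := fun v => by
    linear_combination v * hE
  have hup : ∀ u v, e < u → e < v → F α β A B u v < v := by
    intro u v hu hv
    rw [F_lt_iff (hDI (he0.trans hu) (he0.trans hv))]
    have h3 : 0 < e * (e * (v - 1) + B * v ^ 2 + (A - β) * v - α) := by
      rw [hh]
      have : 0 < v := he0.trans hv
      exact mul_pos (by linarith) (by positivity)
    have h4 := (mul_pos_iff_of_pos_left he0).1 h3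
    nlinarith [mul_nonneg (sub_nonneg.2 hu.le) (show 0 ≤ v - 1 by linarith)]
  have hdn : ∀ u v, 0 < u → 1 ≤ v → u < e → v < e → v < F α β A B u v := by
    intro u v hu0 hv1 hu hv
    rw [lt_F_iff (hDI hu0 (by linarith))]
    have h3 : 0 < e * -(e * (v - 1) + B * v ^ 2 + (A - β) * v - α) := by
      have : 0 < (e - v) * (e + B * e * v + α) :=
        mul_pos (by linarith) (by positivity)
      linarith [hh v]
    have h4 := (mul_pos_iff_of_pos_left he0).1 h3
    nlinarith [mul_nonneg (sub_nonneg.2 hu.le) (show 0 ≤ v - 1 by linarith)]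
  apply locStable_of_inv
  intro ε hε
  set d := min (ε / 2) (min ((e - 1) / 2) 1) with hd
  have hd0 : 0 < d := lt_min (by linarith) (lt_min (by linarith) one_pos)
  have hdε : d < ε := (min_le_left _ _).trans_lt (by linarith)
  have hde : d < e - 1 := ((min_le_right _ _).trans (min_le_left _ _)).trans_lt (by linarith)
  have hd1 : d ≤ 1 := (min_le_right _ _).trans (min_le_right _ _)
  set l := e - d with hl
  set r := e + d with hr
  have hl1 : 1 ≤ l := by linarith
  have hl0 : 0 < l := by linarith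
  have hr0 : 0 < r := by linarith
  have hFl : F α β A B l e ≤ r := by
    rw [F_le_iff (hDI hl0 he0)]
    have h1 := num_eq (u := l) (v := e) hE
    have h2 : (1 - e) * (l - e) + (β - B * e) * (e - e) = (e - 1) * d := by rw [hl]; ring
    rw [h2] at h1
    have h3 : 0 ≤ d * (l + B * e + A - (e - 1)) := by
      have h31 : 0 < B * e := mul_pos hB he0
      exact mul_nonneg hd0.le (by linarith)
    have h4 : r * (l + B * e + A) = e * (l + B * e + A) + d * (l + B * e + A) := by
      rw [hr]; ring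
    nlinarith
  have hFr : l ≤ F α β A B r e := by
    rw [le_F_iff (hDI hr0 he0)]
    have h1 := num_eq (u := r) (v := e) hE
    have h2 : (1 - e) * (r - e) + (β - B * e) * (e - e) = -((e - 1) * d) := by rw [hr]; ring
    rw [h2] at h1
    have h3 : 0 ≤ d * (r + B * e + A - (e - 1)) := by
      have h31 : 0 < B * e := mul_pos hB he0
      exact mul_nonneg hd0.le (by linarith)
    have h4 : l * (r + B * e + A) = e * (r + B * e + A) - d * (r + B * e + A) := by
      rw [hl]; ring
    nlinarith
  -- the crucial step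
  have step : ∀ a b c, l ≤ a → a ≤ r → l ≤ b → b ≤ r → l ≤ c → c ≤ r → c = F α β A B a b →
      l ≤ F α β A B b c ∧ F α β A B b c ≤ r := by
    intro a b c ha1 ha2 hb1 hb2 hc1 hc2 hc
    have ha0 : 0 < a := by linarith
    have hb0 : 0 < b := by linarith
    have hc0 : 0 < c := by linarith
    constructor
    · rcases le_or_gt e c with h3 | h3
      · calc l ≤ F α β A B r e := hFr
          _ ≤ F α β A B r c := mono_v hB (hDI hr0 he0) h3 (hs2 _ hr0)
          _ ≤ F α β A B b c := anti_u (hDI hb0 hc0) hb2 (hs1 _ (by linarith))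
      · rcases le_or_gt e b with h4 | h4
        · have h5 : F α β A B r b ≤ c := by
            rw [hc]
            exact anti_u (hDI ha0 hb0) ha2 (hs1 _ (by linarith))
          have h6 : 0 < F α β A B r b := by
            unfold F
            positivity
          calc l ≤ F α β A B r e := hFr
            _ ≤ F α β A B b (F α β A B r b) := claim_up hα hαA hβ hB he1.le h4 hb2 hE
            _ ≤ F α β A B b c := mono_v hB (hDI hb0 h6) h5 (hs2 _ hb0)
        · exact hc1.trans (hdn _ _ hb0 (by linarith) h4 h3).le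
    · rcases le_or_gt c e with h3 | h3
      · calc F α β A B b c ≤ F α β A B l c := anti_u (hDI hl0 hc0) hb1 (hs1 _ (by linarith))
          _ ≤ F α β A B l e := mono_v hB (hDI hl0 hc0) h3 (hs2 _ hl0)
          _ ≤ r := hFl
      · rcases le_or_gt b e with h4 | h4
        · have h5 : c ≤ F α β A B l b := by
            rw [hc]
            exact anti_u (hDI hl0 hb0) ha1 (hs1 _ (by linarith))
          calc F α β A B b c ≤ F α β A B b (F α β A B l b) :=
                mono_v hB (hDI hb0 hc0) h5 (hs2 _ hb0)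
            _ ≤ F α β A B l e := claim_low hα hαA hβ hB hl1 hb1 h4 hE
            _ ≤ r := hFl
        · exact (hup _ _ h4 h3).le.trans hc2
  -- continuity at the equilibrium
  have hFe : F α β A B e e = e := by
    have hD := hDI he0 he0
    rw [F, div_eq_iff hD.ne']
    linarith
  have hcont : ∃ δ > 0, ∀ z : ℝ × ℝ, dist z (e, e) < δ → |F α β A B z.1 z.2 - e| < d := by
    have h1 : Tendsto (fun z : ℝ × ℝ => F α β A B z.1 z.2) (𝓝 (e, e))
        (𝓝 (F α β A B e e)) := by
      apply F_tendsto (hDI he0 he0).ne'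
      · exact (continuous_fst.tendsto (e, e))
      · exact (continuous_snd.tendsto (e, e))
    rw [hFe] at h1
    obtain ⟨δ, hδ, h2⟩ := Metric.tendsto_nhds_nhds.1 h1 d hd0
    exact ⟨δ, hδ, fun z hz => by simpa [Real.dist_eq] using h2 hz⟩
  obtain ⟨δ, hδ, hδ2⟩ := hcont
  refine ⟨fun z => l ≤ z.1 ∧ z.1 ≤ r ∧ l ≤ z.2 ∧ z.2 ≤ r ∧ l ≤ F α β A B z.1 z.2 ∧
    F α β A B z.1 z.2 ≤ r, ⟨min δ d, lt_min hδ hd0, ?_⟩, ?_, ?_⟩
  · intro z _ _ hz
    have h1 := hδ2 z (hz.trans_le (min_le_left _ _))
    have h2 := dist_lt_iff.1 (hz.trans_le (min_le_right _ _))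
    have h3 := abs_lt.1 h1
    have h4 := abs_lt.1 h2.1
    have h5 := abs_lt.1 h2.2
    exact ⟨by linarith, by linarith, by linarith, by linarith, by linarith, by linarith⟩
  · rintro z ⟨h1, h2, h3, h4, h5, h6⟩
    rw [T_eq]
    obtain ⟨h7, h8⟩ := step z.1 z.2 _ h1 h2 h3 h4 h5 h6 rfl
    exact ⟨h3, h4, h5, h6, h7, h8⟩
  · rintro z ⟨h1, h2, h3, h4, -, -⟩
    rw [dist_lt_iff, abs_lt, abs_lt]
    exact ⟨⟨by linarith, by linarith⟩, ⟨by linarith, by linarith⟩⟩

/-- The zero equilibrium. -/
lemma stable_zero (hβ : 0 < β) (hB : 0 < B) (hA : 1 + β ≤ A) :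
    LocStable (T 0 β A B) (0, 0) := by
  have hA0 : 0 < A := by linarith
  apply box_stable le_rfl hA0.le hβ hB
  intro ε hε
  refine ⟨-(ε / 2), ε / 2, by linarith, by linarith, by linarith, by linarith, ?_⟩
  intro u v hu hv _ h2 _ h4
  have hD : 0 < u + B * v + A := by positivity
  constructor
  · have := F_nonneg (α := 0) (β := β) le_rfl hA0.le hβ hB hu hv
    linarith
  · rw [F_le_iff hD]
    have h5 : 0 ≤ ε / 2 * (u + B * v) := by positivity
    nlinarith [mul_le_mul_of_nonneg_left hA (show 0 ≤ ε / 2 by linarith),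
      mul_le_mul_of_nonneg_left h4 hβ.le]

/-- Local stability of the positive equilibrium. -/
lemma stable_pos {e : ℝ} (hα : 0 ≤ α) (hA : 0 ≤ A) (hβ : 0 < β) (hB : 0 < B) (he : 0 < e)
    (hE : (B + 1) * e ^ 2 + (A - β - 1) * e - α = 0) (h : β ≤ B ∨ α ≤ A)
    (hK : 1 ≤ β + A ∨ (1 - β - A) * (B * (1 - β - A) - 1 - 3 * β + A) ≤ 4 * α) :
    LocStable (T α β A B) (e, e) := by
  have hE1 : 0 ≤ (B + 1) * e + (A - β - 1) := by
    have : 0 ≤ e * ((B + 1) * e + (A - β - 1)) := by linarith
    exact nonneg_of_mul_nonneg_right this he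
  rcases le_total e 1 with h1 | h1
  · rcases le_total (B * e) β with h2 | h2
    · apply stable_lin hα hA hβ hB hE
      rw [abs_of_nonneg (by linarith), abs_of_nonneg (by linarith)]
      have : 0 < (B + 1) * e := by positivity
      linarith
    · -- the critical case lives here
      have h3 : 1 - β - A ≤ 2 * e ∧ (2 * e = 1 - β - A → 1 < B ∧ β < B * e) := by
        rcases hK with hK | hK
        · exact ⟨by linarith, fun h4 => by linarith⟩
        · rcases le_or_gt (1 - β - A) 0 with hs | hs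
          · exact ⟨by linarith, fun h4 => by linarith⟩
          · set s := 1 - β - A with hsdef
            have h5 : (B + 1) * (s / 2) ^ 2 + (A - β - 1) * (s / 2) - α ≤ 0 := by
              have h51 : (B + 1) * (s / 2) ^ 2 + (A - β - 1) * (s / 2) - α =
                  (s * (B * s - 1 - 3 * β + A) - 4 * α) / 4 := by
                have : A = 1 - β - s := by rw [hsdef]; ring
                rw [this]
                ring
              rw [h51]
              linarith
            have h6 := le_of_E_nonpos hα hB (show 0 < s / 2 by linarith) he hE h5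
            refine ⟨by linarith, fun h7 => ?_⟩
            have h8 : e = s / 2 := by linarith
            have h9 : (B - 1) * s ^ 2 - 4 * β * s = 4 * α := by
              have hA2 : A = 1 - β - s := by rw [hsdef]; ring
              rw [h8, hA2] at hE
              linarith
            have h10 : 0 < (B - 1) * s ^ 2 := by
              have := mul_pos hβ hs
              linarith
            have h11 : 0 < B - 1 := (pos_iff_pos_of_mul_pos h10).2 (by positivity)
            refine ⟨by linarith, ?_⟩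
            have h12 : 4 * β ≤ (B - 1) * s := by
              have : 0 ≤ s * ((B - 1) * s - 4 * β) := by nlinarith
              have := nonneg_of_mul_nonneg_right this hs
              linarith
            rw [h8]
            nlinarith
      rcases h3.1.lt_or_eq with h4 | h4
      · apply stable_lin hα hA hβ hB hE
        rw [abs_of_nonneg (by linarith), abs_of_nonpos (by linarith)]
        linarith
      · obtain ⟨h5, h6⟩ := h3.2 h4.symm
        exact stable_crit hα hA hβ h5 he hE h4.symm h6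
  · rcases le_total β (B * e) with h2 | h2
    · apply stable_lin hα hA hβ hB hE
      rw [abs_of_nonpos (by linarith), abs_of_nonpos (by linarith)]
      linarith
    · rcases h1.lt_or_eq with h3 | h3
      · have hβB : B < β := by nlinarith
        have hαA : α ≤ A := h.resolve_left (by linarith)
        exact stable_nonmono hα hαA hβB hB hE h3
      · apply stable_lin hα hA hβ hB hE
        rw [← h3] at hE h2 ⊢
        rw [abs_of_nonneg (by linarith), abs_of_nonneg (by linarith)]
        linarith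

end Pool.Agent.MP_7f1385_an
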